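import Mathlib

-- part Pool.Agent.Lib.MP_4ffbf9_nt.MA.Defs
section

/-!
Linear forms in logarithms of algebraic numbers, some logarithms being very small:
definitions, small facts and the statements of the parts of the proof.
-/

set_option autoImplicit false

namespace Pool.Agent.Lib.MP_4ffbf9_nt.MA

open Finset Polynomial

/-- the binomial coefficient as a function of a complex number -/
noncomputable def bin (z : ℂ) (d : ℕ) : ℂ := (∏ j ∈ range d, (z - j)) / d.factorial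

/-- the binomial polynomial -/
noncomputable def binP (d : ℕ) : ℂ[X] :=
  C ((d.factorial : ℂ)⁻¹) * ∏ j ∈ range d, (X - C (j : ℂ))

theorem eval_binP (z : ℂ) (d : ℕ) : (binP d).eval z = bin z d := by
  simp [binP, bin, eval_prod, div_eq_inv_mul]

theorem degree_binP (d : ℕ) : (binP d).degree = d := by
  rw [binP, degree_C_mul (inv_ne_zero (Nat.cast_ne_zero.2 d.factorial_ne_zero)), degree_prod]
  simp only [degree_X_sub_C, sum_const, card_range, nsmul_one]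

theorem natDegree_binP (d : ℕ) : (binP d).natDegree = d :=
  natDegree_eq_of_degree_eq_some (degree_binP d)

theorem bin_zero (z : ℂ) : bin z 0 = 1 := by simp [bin]

theorem bin_int (z : ℤ) (τ : ℕ) : ∃ n : ℤ, bin z τ = n := by
  obtain ⟨n, h⟩ := Nat.factorial_coe_dvd_prod τ (-z)
  refine ⟨(-1) ^ τ * n, ?_⟩
  have h1 : ∏ j ∈ range τ, ((z : ℂ) - j) = (-1) ^ τ * ∏ j ∈ range τ, (-(z : ℂ) + j) := by
    rw [← card_range τ, ← prod_const, card_range, ← prod_mul_distrib]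
    exact prod_congr rfl fun _ _ => by ring
  have h2 : ∏ j ∈ range τ, (-(z : ℂ) + j) = τ.factorial * n := by exact_mod_cast h
  have h3 : (τ.factorial : ℂ) ≠ 0 := Nat.cast_ne_zero.2 τ.factorial_ne_zero
  rw [bin, h1, h2]
  push_cast
  field_simp

theorem bin_size (z : ℂ) (β : ℝ) (τ T : ℕ) (hτ : τ ≤ T) (hβ : 0 ≤ β)
    (h : ‖z‖ + T ≤ Real.exp β * T) : ‖bin z τ‖ ≤ Real.exp ((β + 1) * T) := by
  have h1 : ‖∏ j ∈ range τ, (z - j)‖ ≤ (Real.exp β * T) ^ τ := by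
    rw [norm_prod, ← card_range τ, ← prod_const, card_range]
    refine prod_le_prod (fun _ _ => norm_nonneg _) fun j hj => ((norm_sub_le _ _).trans ?_).trans h
    rw [Complex.norm_natCast]
    exact add_le_add le_rfl (Nat.cast_le.2 ((mem_range.1 hj).le.trans hτ))
  rw [bin, norm_div, Complex.norm_natCast, add_one_mul, Real.exp_add]
  refine (div_le_div_of_nonneg_right h1 (Nat.cast_nonneg _)).trans ?_
  rw [mul_pow, mul_div_assoc, ← Real.exp_nat_mul, mul_comm (τ : ℝ)]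
  exact mul_le_mul (Real.exp_le_exp.2 (mul_le_mul_of_nonneg_left (Nat.cast_le.2 hτ) hβ))
    (Real.pow_div_factorial_le_exp _ (Nat.cast_nonneg _) _) (by positivity) (by positivity)

/-- an algebraic integer of `F` all of whose conjugates have modulus at most `H` -/
def Sm (F : IntermediateField ℚ ℂ) (z : ℂ) (H : ℝ) : Prop :=
  ∃ η : F, (η : ℂ) = z ∧ IsIntegral ℤ z ∧ ∀ σ : F →+* ℂ, ‖σ η‖ ≤ H

/-- `F` is a number field of degree at most `d` -/
structure Fld (F : IntermediateField ℚ ℂ) (d : ℕ) : Prop where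
  fin : FiniteDimensional ℚ F
  deg : Module.finrank ℚ F ≤ d

theorem Fld.one_le {F : IntermediateField ℚ ℂ} {d : ℕ} (h : Fld F d) : 1 ≤ d :=
  haveI := h.fin
  le_trans Module.finrank_pos h.deg

theorem Fld.numberField {F : IntermediateField ℚ ℂ} {d : ℕ} (h : Fld F d) : NumberField F :=
  haveI := h.fin
  NumberField.mk

theorem Sm.mono {F : IntermediateField ℚ ℂ} {z : ℂ} {H H' : ℝ} (h : Sm F z H) (hH : H ≤ H') :
    Sm F z H' := by
  obtain ⟨η, h1, h2, h3⟩ := h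
  exact ⟨η, h1, h2, fun σ => (h3 σ).trans hH⟩

theorem Sm.norm_le {F : IntermediateField ℚ ℂ} {z : ℂ} {H : ℝ} (h : Sm F z H) : ‖z‖ ≤ H := by
  obtain ⟨η, rfl, -, h3⟩ := h
  exact h3 F.subtype

theorem Sm.int (F : IntermediateField ℚ ℂ) (n : ℤ) : Sm F n ‖(n : ℂ)‖ :=
  ⟨n, by simp, isIntegral_algebraMap (R := ℤ) (x := n), fun σ => by simp⟩

theorem Sm.mul {F : IntermediateField ℚ ℂ} {z z' : ℂ} {H H' : ℝ} (h : Sm F z H)
    (h' : Sm F z' H') : Sm F (z * z') (H * H') := by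
  obtain ⟨η, rfl, h2, h3⟩ := h
  obtain ⟨η', rfl, h2', h3'⟩ := h'
  refine ⟨η * η', rfl, h2.mul h2', fun σ => ?_⟩
  rw [map_mul, norm_mul]
  exact mul_le_mul (h3 σ) (h3' σ) (norm_nonneg _) ((norm_nonneg _).trans (h3 σ))

theorem Sm.add {F : IntermediateField ℚ ℂ} {z z' : ℂ} {H H' : ℝ} (h : Sm F z H)
    (h' : Sm F z' H') : Sm F (z + z') (H + H') := by
  obtain ⟨η, rfl, h2, h3⟩ := h
  obtain ⟨η', rfl, h2', h3'⟩ := h'
  refine ⟨η + η', rfl, h2.add h2', fun σ => ?_⟩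
  rw [map_add]
  exact (norm_add_le _ _).trans (add_le_add (h3 σ) (h3' σ))

section
variable {ι κ : Type} [Fintype ι]

/-- the linear form in the logarithms -/
noncomputable def lin (ℓ : ι → ℂ) (x : ι → ℚ) : ℂ := ∑ i, (x i : ℂ) * ℓ i

/-- the saturated lattice: rational exponent vectors with a value in `F` -/
def InG (F : IntermediateField ℚ ℂ) (ℓ : ι → ℂ) (x : ι → ℚ) : Prop := Complex.exp (lin ℓ x) ∈ F

/-- `exp (ℓ i)` lies in `F`; `a i` bounds its denominator, its conjugates and `ℓ i` -/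
structure Num0 (F : IntermediateField ℚ ℂ) (dn : ι → ℕ) (ℓ : ι → ℂ) (a : ι → ℝ) : Prop where
  hd : ∀ i, 0 < dn i
  mem : ∀ i, Complex.exp (ℓ i) ∈ F
  int1 : ∀ i, IsIntegral ℤ ((dn i : ℂ) * Complex.exp (ℓ i))
  int2 : ∀ i, IsIntegral ℤ ((dn i : ℂ) * Complex.exp (-ℓ i))
  ha : ∀ i, Real.log (dn i) ≤ a i
  conj : ∀ (i : ι) (σ : F →+* ℂ) (η : F), (η : ℂ) = Complex.exp (ℓ i) → |Real.log ‖σ η‖| ≤ a i
  norm_le : ∀ i, ‖ℓ i‖ ≤ a i
  one : ∀ i, 1 ≤ a i

/-- the same, normalised so that the lattice has a gap `log 2` around the kernel of the form -/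
structure Num (F : IntermediateField ℚ ℂ) (dn : ι → ℕ) (ℓ : ι → ℂ) (a : ι → ℝ) : Prop
    extends Num0 F dn ℓ a where
  gap : ∀ x : ι → ℚ, InG F ℓ x → lin ℓ x ≠ 0 → Real.log 2 ≤ ∑ i, |(x i : ℝ)| * a i

/-- linear independence over the rationals -/
def Ind (ℓ : ι → ℂ) : Prop := ∀ x : ι → ℚ, lin ℓ x = 0 → x = 0

/-- `N` is a common denominator for the saturated lattice -/
def Den (F : IntermediateField ℚ ℂ) (N : ℕ) (ℓ : ι → ℂ) : Prop :=
  ∀ x, InG F ℓ x → ∀ i, ∃ z : ℤ, (N : ℚ) * x i = z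

/-- vanishing against all products of polynomials of bounded degrees -/
def Van (P : Finset κ) (c : κ → ℂ) (y : κ → ι → ℂ) (D : ι → ℕ) : Prop :=
  ∀ f : ι → ℂ[X], (∀ i, (f i).natDegree ≤ D i) → ∑ k ∈ P, c k * ∏ i, (f i).eval (y k i) = 0

/-- the coordinates after the elimination of the index `e` -/
noncomputable def yy (N : ℕ) (β : ι → ℚ) (e : ι) (x : ι → ℚ) (i : ι) : ℂ :=
  (N : ℂ) ^ 2 * ((β e : ℂ) * x i - (β i : ℂ) * x e)

/-- lattice points in a box of weighted size `x` -/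
structure Pts (F : IntermediateField ℚ ℂ) (ℓ : ι → ℂ) (a : ι → ℝ) (x : ℝ) (P : Finset κ)
    (lam : κ → ι → ℚ) : Prop where
  mem : ∀ k ∈ P, InG F ℓ (lam k)
  inj : ∀ k ∈ P, ∀ k' ∈ P, lam k = lam k' → k = k'
  box : ∀ k ∈ P, ∀ i, |(lam k i : ℝ)| * a i ≤ x
  diam : ∀ k ∈ P, ∀ k' ∈ P, ∀ i, |(lam k i : ℝ) - lam k' i| * a i ≤ x

/-- the fixed data of the construction -/
structure Ctx (F : IntermediateField ℚ ℂ) (d m N : ℕ) (dn : ι → ℕ) (ℓ : ι → ℂ) (a : ι → ℝ)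
    (β : ι → ℚ) (e : ι) : Prop where
  fld : Fld F d
  card : Fintype.card ι ≤ m
  num : Num F dn ℓ a
  one : 1 ≤ N
  den : Den F N ℓ
  mem : InG F ℓ β
  ne : β e ≠ 0

/-- vanishing at the odd integers below `2 * S` -/
def VanS (ℓ : ι → ℂ) (N : ℕ) (β : ι → ℚ) (e : ι) (P : Finset κ) (lam : κ → ι → ℚ) (p : κ → ℤ)
    (S : ℕ) (D : ι → ℕ) : Prop :=
  ∀ j < S, Van P (fun k => (p k : ℂ) * Complex.exp ((2 * j + 1) * lin ℓ (lam k)))
    (fun k => yy N β e (lam k)) D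

/-- the constant of the extrapolation -/
def cc (d m : ℕ) : ℕ := d * 2 ^ 2 ^ m * (10 * m + 8) + m ^ 2 + 16 * m + 9

/-- the degrees, with a reserve `2 * R i` for the small logarithms -/
noncomputable def Dh [DecidableEq ι] (c x : ℝ) (n : ℕ) (R τ : ι → ℕ) (Nn : Finset ι)
    (e i : ι) : ℕ :=
  if i = e then 0 else if i ∈ Nn then 2 * R i + min (n * τ i) ⌊4 * c * x⌋₊ else ⌊4 * c * x⌋₊

theorem lin_zero (ℓ : ι → ℂ) : lin ℓ 0 = 0 := by simp [lin]

theorem lin_add (ℓ : ι → ℂ) (x y : ι → ℚ) : lin ℓ (x + y) = lin ℓ x + lin ℓ y := by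
  simp [lin, add_mul, sum_add_distrib]

theorem lin_sub (ℓ : ι → ℂ) (x y : ι → ℚ) : lin ℓ (x - y) = lin ℓ x - lin ℓ y := by
  simp [lin, sub_mul, sum_sub_distrib]

theorem lin_neg (ℓ : ι → ℂ) (x : ι → ℚ) : lin ℓ (-x) = -lin ℓ x := by
  simp [lin]

theorem lin_smul (ℓ : ι → ℂ) (r : ℚ) (x : ι → ℚ) : lin ℓ (r • x) = r * lin ℓ x := by
  simp [lin, mul_sum, mul_assoc]

theorem lin_half (ℓ : ι → ℂ) (x y : ι → ℚ) :
    lin ℓ (fun i => (x i - y i) / 2) = (lin ℓ x - lin ℓ y) / 2 := by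
  rw [← lin_sub, lin, lin, sum_div]
  exact sum_congr rfl fun i _ => by simp only [Pi.sub_apply]; push_cast; ring

variable {F : IntermediateField ℚ ℂ}

theorem InG.zero (F : IntermediateField ℚ ℂ) (ℓ : ι → ℂ) : InG F ℓ 0 := by
  rw [InG, lin_zero, Complex.exp_zero]; exact one_mem F

theorem InG.add {ℓ : ι → ℂ} {x y : ι → ℚ} (hx : InG F ℓ x) (hy : InG F ℓ y) :
    InG F ℓ (x + y) := by
  rw [InG, lin_add, Complex.exp_add]; exact mul_mem hx hy

theorem InG.neg {ℓ : ι → ℂ} {x : ι → ℚ} (hx : InG F ℓ x) : InG F ℓ (-x) := by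
  rw [InG, lin_neg, Complex.exp_neg]; exact inv_mem hx

theorem InG.sub {ℓ : ι → ℂ} {x y : ι → ℚ} (hx : InG F ℓ x) (hy : InG F ℓ y) :
    InG F ℓ (x - y) := by
  rw [sub_eq_add_neg]; exact hx.add hy.neg

theorem InG.zsmul {ℓ : ι → ℂ} {x : ι → ℚ} (hx : InG F ℓ x) (n : ℤ) :
    InG F ℓ ((n : ℚ) • x) := by
  rw [InG, lin_smul, Rat.cast_intCast, Complex.exp_int_mul]; exact zpow_mem hx n

theorem exp_lin_int (ℓ : ι → ℂ) (n : ι → ℤ) :
    Complex.exp (lin ℓ fun i => (n i : ℚ)) = ∏ i, Complex.exp (ℓ i) ^ n i := by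
  rw [lin, Complex.exp_sum]
  exact prod_congr rfl fun i _ => by rw [Rat.cast_intCast, Complex.exp_int_mul]

theorem Num0.inG_int {dn : ι → ℕ} {ℓ : ι → ℂ} {a : ι → ℝ} (h : Num0 F dn ℓ a) (n : ι → ℤ) :
    InG F ℓ fun i => (n i : ℚ) := by
  rw [InG, exp_lin_int]
  exact prod_mem fun i _ => zpow_mem (h.mem i) _

omit [Fintype ι] in
theorem Num0.pos {dn : ι → ℕ} {ℓ : ι → ℂ} {a : ι → ℝ} (h : Num0 F dn ℓ a) (i : ι) : 0 < a i :=
  one_pos.trans_le (h.one i)

/-- the size of the linear form at a point of the box -/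
theorem Num0.norm_lin_le {dn : ι → ℕ} {ℓ : ι → ℂ} {a : ι → ℝ} (h : Num0 F dn ℓ a) {m : ℕ}
    (hm : Fintype.card ι ≤ m) {x : ι → ℚ} {r : ℝ} (hr : 0 ≤ r)
    (hx : ∀ i, |(x i : ℝ)| * a i ≤ r) : ‖lin ℓ x‖ ≤ m * r := by
  refine (norm_sum_le _ _).trans ((sum_le_card_nsmul _ _ r fun i _ => ?_).trans ?_)
  · rw [norm_mul, Complex.norm_ratCast]
    exact (mul_le_mul_of_nonneg_left (h.norm_le i) (abs_nonneg _)).trans (hx i)
  · rw [nsmul_eq_mul, card_univ]
    exact mul_le_mul_of_nonneg_right (Nat.cast_le.2 hm) hr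

/-- the size of the common denominator -/
theorem Num0.prod_le {dn : ι → ℕ} {ℓ : ι → ℂ} {a : ι → ℝ} (h : Num0 F dn ℓ a) {m : ℕ}
    (hm : Fintype.card ι ≤ m) {g : ℝ} (hg : 0 ≤ g) (ha : ∀ i, a i ≤ g) :
    ∏ i, (dn i : ℝ) ^ ⌈2 * g / a i⌉₊ ≤ Real.exp (3 * m * g) := by
  have h1 : ∀ i, (dn i : ℝ) ^ ⌈2 * g / a i⌉₊ ≤ Real.exp (3 * g) := fun i => by
    have h0 : (0 : ℝ) < dn i := Nat.cast_pos.2 (h.hd i)
    have hp := h.pos i
    rw [← Real.exp_log h0, ← Real.exp_nat_mul]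
    refine Real.exp_le_exp.2 ((mul_le_mul_of_nonneg_left (h.ha i) (Nat.cast_nonneg _)).trans ?_)
    have h2 := (Nat.ceil_lt_add_one (show 0 ≤ 2 * g / a i by positivity)).le
    refine (mul_le_mul_of_nonneg_right h2 hp.le).trans ?_
    rw [add_mul, div_mul_cancel₀ _ hp.ne']
    linarith [ha i]
  refine (prod_le_prod (fun i _ => by positivity) fun i _ => h1 i).trans ?_
  rw [prod_const, ← Real.exp_nat_mul, card_univ]
  refine Real.exp_le_exp.2 ?_
  have : (Fintype.card ι : ℝ) ≤ m := Nat.cast_le.2 hm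
  nlinarith

theorem Num.gap' {dn : ι → ℕ} {ℓ : ι → ℂ} {a : ι → ℝ} (h : Num F dn ℓ a) (hI : Ind ℓ)
    {x : ι → ℚ} (hx : InG F ℓ x) (h0 : x ≠ 0) : Real.log 2 ≤ ∑ i, |(x i : ℝ)| * a i :=
  h.gap x hx fun h1 => h0 (hI x h1)

theorem Ctx.yy_int {d m N : ℕ} {dn : ι → ℕ} {ℓ : ι → ℂ} {a : ι → ℝ} {β : ι → ℚ} {e : ι}
    (h : Ctx F d m N dn ℓ a β e) {x : ι → ℚ} (hx : InG F ℓ x) (i : ι) :
    ∃ z : ℤ, yy N β e x i = z := by
  obtain ⟨z1, h1⟩ := h.den β h.mem e
  obtain ⟨z2, h2⟩ := h.den β h.mem i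
  obtain ⟨z3, h3⟩ := h.den x hx i
  obtain ⟨z4, h4⟩ := h.den x hx e
  refine ⟨z1 * z3 - z2 * z4, ?_⟩
  have : (N : ℚ) ^ 2 * (β e * x i - β i * x e) = z1 * z3 - z2 * z4 := by
    rw [← h1, ← h2, ← h3, ← h4]; ring
  rw [yy]
  exact_mod_cast this

omit [Fintype ι] in
theorem norm_yy (N : ℕ) (β : ι → ℚ) (e : ι) (x : ι → ℚ) (i : ι) :
    ‖yy N β e x i‖ = |(N : ℝ) ^ 2 * ((β e : ℝ) * x i - (β i : ℝ) * x e)| := by
  rw [← Real.norm_eq_abs, ← Complex.norm_real, yy]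
  push_cast
  rfl

theorem Ctx.m_pos {d m N : ℕ} {dn : ι → ℕ} {ℓ : ι → ℂ} {a : ι → ℝ} {β : ι → ℚ} {e : ι}
    (h : Ctx F d m N dn ℓ a β e) : 1 ≤ m :=
  le_trans (Fintype.card_pos_iff.2 ⟨e⟩) h.card

theorem Pts.mono {ℓ : ι → ℂ} {a : ι → ℝ} {x : ℝ} {P P' : Finset κ} {lam : κ → ι → ℚ}
    (h : Pts F ℓ a x P lam) (hP : P' ⊆ P) : Pts F ℓ a x P' lam :=
  ⟨fun k hk => h.mem k (hP hk), fun k hk k' hk' => h.inj k (hP hk) k' (hP hk'),
    fun k hk => h.box k (hP hk), fun k hk k' hk' => h.diam k (hP hk) k' (hP hk')⟩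

end

/-! ### Statements -/

/-- extrapolation from small derivatives at the odd integers -/
def StInterp : Prop :=
  ∀ (κ : Type) (P : Finset κ) (q w : κ → ℂ) (S t : ℕ) (ω η z : ℝ), 1 ≤ t → 0 ≤ ω → 0 ≤ η →
    (∀ k ∈ P, ‖w k‖ ≤ ω) → 0 ≤ z → z ≤ 2 * S →
    (∀ j < S, ∀ r < t,
      ‖∑ k ∈ P, q k * Complex.exp ((2 * j + 1) * w k) * w k ^ r‖ ≤ η * (4 * t) ^ r) →
    ‖∑ k ∈ P, q k * Complex.exp (z * w k)‖ ≤
      η * Real.exp (8 * (S * t)) + (∑ k ∈ P, ‖q k‖) * Real.exp (8 * (S * ω) - S * t)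

/-- the inequality of Liouville -/
def StLiou : Prop :=
  ∀ (F : IntermediateField ℚ ℂ) (d : ℕ), Fld F d →
    (∀ (z : ℂ) (H : ℝ), Sm F z H → 1 ≤ H → z ≠ 0 → 1 ≤ ‖z‖ * H ^ d) ∧
    ∀ η : F, IsIntegral ℤ (η : ℂ) → (∀ σ : F →+* ℂ, ‖σ η‖ < 1) → η = 0

/-- the lemma of Siegel with rational integers as unknowns -/
def StSiegel : Prop :=
  ∀ (F : IntermediateField ℚ ℂ) (d : ℕ) (E κ : Type) [Fintype E] (P : Finset κ) (θ : E → κ → ℂ)
    (Θ : ℝ), Fld F d → 1 ≤ Θ → (∀ j, ∀ k ∈ P, Sm F (θ j k) Θ) → P.Nonempty →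
    4 * d * Fintype.card E ≤ P.card → ∃ p : κ → ℤ, (∃ k ∈ P, p k ≠ 0) ∧
      (∀ k ∈ P, |(p k : ℝ)| ≤ 6 * P.card * Θ) ∧ ∀ j, ∑ k ∈ P, (p k : ℂ) * θ j k = 0

/-- the inequality of Liouville for sums of square roots, and the splitting into classes -/
def StKL : Prop :=
  ∀ (F : IntermediateField ℚ ℂ) (d : ℕ) (κ : Type) (P : Finset κ) (n : ℕ) (cl : κ → Fin n)
    (q : κ → ℤ) (y : κ → ℂ) (Y H : ℝ), Fld F d → (∀ k ∈ P, y k ≠ 0) → 0 ≤ Y →
    (∀ k ∈ P, Sm F (y k ^ 2) (Y ^ 2)) → (∀ k ∈ P, ∀ l ∈ P, cl k = cl l → y k / y l ∈ F) →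
    1 ≤ H → (∑ k ∈ P, |(q k : ℝ)|) * Y ≤ H →
    ‖∑ k ∈ P, (q k : ℂ) * y k‖ * H ^ (d * 2 ^ n) < 1 →
    ∀ l ∈ P, ∀ P' : Finset κ, (∀ k, k ∈ P' ↔ k ∈ P ∧ y k / y l ∈ F) →
      ∑ k ∈ P', (q k : ℂ) * y k = 0

/-- denominators and conjugates on the lattice -/
def StDen : Prop :=
  ∀ (F : IntermediateField ℚ ℂ) (ι : Type) [Fintype ι] (dn : ι → ℕ) (ℓ : ι → ℂ) (a : ι → ℝ)
    (x : ι → ℚ) (E : ι → ℕ) (r : ℝ), Num0 F dn ℓ a → InG F ℓ x → (∀ i, |(x i : ℝ)| ≤ E i) →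
    ∑ i, |(x i : ℝ)| * a i ≤ r →
    Sm F ((∏ i, (dn i : ℂ) ^ E i) * Complex.exp (lin ℓ x))
      ((∏ i, (dn i : ℝ) ^ E i) * Real.exp r) ∧
    ∀ (σ : F →+* ℂ) (η : F), (η : ℂ) = Complex.exp (lin ℓ x) → ‖σ η‖ ≤ Real.exp r

/-- the gap, uniformly in the field -/
def StGap : Prop :=
  ∀ d : ℕ, ∃ δ : ℝ, 0 < δ ∧ ∀ (F : IntermediateField ℚ ℂ) (ι : Type) [Fintype ι] (dn : ι → ℕ)
    (ℓ : ι → ℂ) (a : ι → ℝ) (x : ι → ℚ), Fld F d → Num0 F dn ℓ a → InG F ℓ x → lin ℓ x ≠ 0 →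
    δ ≤ ∑ i, |(x i : ℝ)| * a i

/-- from polynomials with bounded coefficients to denominators and conjugates -/
def StNum : Prop :=
  ∀ m D : ℕ, ∃ (d : ℕ) (ρ : ℝ), 1 ≤ ρ ∧ ∀ (ι : Type) [Fintype ι] (ℓ : ι → ℂ) (a : ι → ℝ),
    Fintype.card ι ≤ m →
    (∀ i, 1 ≤ a i ∧ ‖ℓ i‖ ≤ a i ∧ ∃ P : ℤ[X], P ≠ 0 ∧ P.natDegree ≤ D ∧
      (∀ j, |(P.coeff j : ℝ)| ≤ Real.exp (a i)) ∧ aeval (Complex.exp (ℓ i)) P = 0) →
    ∃ (F : IntermediateField ℚ ℂ) (dn : ι → ℕ), Fld F d ∧ Num F dn ℓ fun i => ρ * a i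

/-- the index of the integral points in the lattice, and many points in a box -/
def StLat : Prop :=
  ∀ (F : IntermediateField ℚ ℂ) (ι : Type) [Fintype ι] (m : ℕ) (dn : ι → ℕ) (ℓ : ι → ℂ)
    (a : ι → ℝ), Fintype.card ι ≤ m → Num F dn ℓ a → Ind ℓ →
    ∃ N : ℕ, 1 ≤ N ∧ (N : ℝ) ≤ ∏ i, (3 * m * a i) ∧ Den F N ℓ ∧
      ∀ H : ℝ, 0 < H → ∃ P : Finset (ι → ℚ), Pts F ℓ a H P id ∧
        (N : ℝ) * ∏ i, (H / (2 * a i)) ≤ P.card

/-- the classes modulo the doubles -/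
def StCls : Prop :=
  ∀ (F : IntermediateField ℚ ℂ) (ι : Type) [Fintype ι] (m N : ℕ) (ℓ : ι → ℂ),
    Fintype.card ι ≤ m → 1 ≤ N → Den F N ℓ →
    ∃ cl : (ι → ℚ) → Fin (2 ^ m), ∀ x x' : ι → ℚ, InG F ℓ x → InG F ℓ x' → cl x = cl x' →
      InG F ℓ fun i => (x i - x' i) / 2

/-- binomial polynomials suffice; affine changes of the variables -/
def StVan : Prop :=
  ∀ (ι κ : Type) [Fintype ι] (P : Finset κ) (c : κ → ℂ) (y : κ → ι → ℂ) (D : ι → ℕ),
    ((∀ d : ι → ℕ, (∀ i, d i ≤ D i) → ∑ k ∈ P, c k * ∏ i, bin (y k i) (d i) = 0) →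
      Van P c y D) ∧
    (Van P c y D → ∀ (r s : ℂ) (o : ι → ℂ),
      Van P (fun k => r * c k) (fun k i => s * y k i + o i) D)

/-- derivatives are small: few derivatives are spent in the directions of the small logarithms -/
def StExp : Prop :=
  ∀ (ι κ : Type) [Fintype ι] (P : Finset κ) (c w δ : κ → ℂ) (y : κ → ι → ℂ) (γ : ι → ℂ)
    (G Nn : Finset ι) (D D' τ : ι → ℕ) (t r : ℕ) (ω η : ℝ) (f : ι → ℂ[X]),
    Van P c y D → Disjoint G Nn →
    (∀ k ∈ P, w k = ∑ i ∈ G, γ i * y k i + ∑ i ∈ Nn, γ i * y k i + δ k) →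
    (∀ i, D' i ≤ D i) → (∀ i ∈ G, D' i + t ≤ D i) → (∀ i ∈ Nn, D' i + min (τ i) t ≤ D i) →
    0 ≤ ω → 0 ≤ η → (∀ k ∈ P, ‖∑ i ∈ G, γ i * y k i‖ ≤ ω) →
    (∀ k ∈ P, ∀ i ∈ Nn, ‖γ i * y k i‖ ≤ 1 ∧ ‖γ i * y k i‖ ^ (τ i + 1) ≤ η) →
    (∀ k ∈ P, ‖δ k‖ ≤ 1 ∧ ‖δ k‖ ≤ η) → r ≤ t → (∀ i, (f i).natDegree ≤ D' i) →
    ‖∑ k ∈ P, c k * (∏ i, (f i).eval (y k i)) * w k ^ r‖ ≤
      (Nn.card + 1) * η * (∑ k ∈ P, ‖c k * ∏ i, (f i).eval (y k i)‖) * (ω + Nn.card + 1) ^ r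

/-- one step of the descent -/
def StStep : Prop :=
  ∀ (F : IntermediateField ℚ ℂ) (ι κ : Type) [Fintype ι] (d m N : ℕ) (dn : ι → ℕ) (ℓ : ι → ℂ)
    (a : ι → ℝ) (β : ι → ℚ) (e : ι) (Nn : Finset ι) (P : Finset κ) (lam : κ → ι → ℚ) (p : κ → ℤ)
    (S t : ℕ) (D D' τ : ι → ℕ) (x g c : ℝ), Ctx F d m N dn ℓ a β e → e ∉ Nn →
    Pts F ℓ a x P lam → VanS ℓ N β e P lam p S D →
    1 ≤ g → (∀ i, a i ≤ g) → 0 < x → S * x ≤ g → (cc d m : ℝ) ≤ c → c * g ≤ S * t →
    S * t ≤ (c + 2 * m) * g → 3 * m * x ≤ 4 * t →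
    ∑ k ∈ P, |(p k : ℝ)| ≤ Real.exp ((5 * m + 7) * g) →
    (∀ k ∈ P, ∀ n : ι → ℕ, (∀ i, n i ≤ D' i) →
      ‖∏ i, bin (yy N β e (lam k) i) (n i)‖ ≤ Real.exp g) →
    (∀ i, D' i ≤ D i) → (∀ i, i ∉ Nn → i ≠ e → D' i + t ≤ D i) →
    (∀ i ∈ Nn, D' i + min (τ i) t ≤ D i) →
    (∀ k ∈ P, ∀ i ∈ Nn, ‖ℓ i‖ * |(lam k i : ℝ) - β i * lam k e / β e| / x ≤ 1 ∧
      (‖ℓ i‖ * |(lam k i : ℝ) - β i * lam k e / β e| / x) ^ (τ i + 1) ≤
        Real.exp (-(10 * c * g))) →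
    (∀ k ∈ P, |(lam k e : ℝ) / β e| * ‖lin ℓ β‖ / x ≤ Real.exp (-(10 * c * g))) →
    ∀ k₀ ∈ P, ∀ P' : Finset κ,
      (∀ k, k ∈ P' ↔ k ∈ P ∧ InG F ℓ fun i => (lam k i - lam k₀ i) / 2) →
      VanS ℓ N β e P' (fun k i => (lam k i - lam k₀ i) / 2) p (2 * S) D'

/-- the auxiliary function -/
def StStart : Prop :=
  ∀ (F : IntermediateField ℚ ℂ) (ι κ : Type) [Fintype ι] (d m N : ℕ) (dn : ι → ℕ) (ℓ : ι → ℂ)
    (a : ι → ℝ) (β : ι → ℚ) (e : ι) (P₀ : Finset κ) (lam : κ → ι → ℚ) (S : ℕ) (D : ι → ℕ)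
    (x g : ℝ), Ctx F d m N dn ℓ a β e → Pts F ℓ a x P₀ lam → 1 ≤ S → 1 ≤ g → (∀ i, a i ≤ g) →
    0 ≤ x → S * x ≤ g → 4 * d * (S * ∏ i, (D i + 1)) ≤ P₀.card →
    ((4 * d * (S * ∏ i, (D i + 1)) : ℕ) : ℝ) ≤ Real.exp (2 * g) →
    (∀ k ∈ P₀, ∀ n : ι → ℕ, (∀ i, n i ≤ D i) →
      ‖∏ i, bin (yy N β e (lam k) i) (n i)‖ ≤ Real.exp g) →
    ∃ (P : Finset κ) (p : κ → ℤ), P ⊆ P₀ ∧ P.Nonempty ∧ (∀ k ∈ P, p k ≠ 0) ∧
      ∑ k ∈ P, |(p k : ℝ)| ≤ Real.exp ((5 * m + 7) * g) ∧ VanS ℓ N β e P lam p S D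

/-- separation of the values of the coordinates of the small logarithms -/
def StSep : Prop :=
  ∀ (F : IntermediateField ℚ ℂ) (ι κ : Type) [Fintype ι] (d m N : ℕ) (dn : ι → ℕ) (ℓ : ι → ℂ)
    (a : ι → ℝ) (β : ι → ℚ) (e : ι) (Nn : Finset ι) (P : Finset κ) (lam : κ → ι → ℚ) (p : κ → ℤ)
    (S : ℕ) (D R : ι → ℕ) (x : ℝ), Ctx F d m N dn ℓ a β e → Pts F ℓ a x P lam →
    VanS ℓ N β e P lam p S D → P.Nonempty → (∀ k ∈ P, lam k e = 0) →
    (∀ i ∈ Nn, N * x < (R i + 1) * a i ∧ 2 * R i ≤ D i) →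
    ∃ (P' : Finset κ) (lam' : κ → ι → ℚ), P' ⊆ P ∧ P'.Nonempty ∧ Pts F ℓ a x P' lam' ∧
      VanS ℓ N β e P' lam' p S D ∧ ∀ k ∈ P', lam' k e = 0 ∧ ∀ i ∈ Nn, lam' k i = 0

/-- the descent -/
def StDesc : Prop :=
  ∀ (F : IntermediateField ℚ ℂ) (ι : Type) [Fintype ι] [DecidableEq ι] (d m N : ℕ) (dn : ι → ℕ)
    (ℓ : ι → ℂ) (a : ι → ℝ) (β : ι → ℚ) (e : ι) (Nn : Finset ι) (S J : ℕ) (τ : ι → ℕ)
    (H c B : ℝ) (P₀ : Finset (ι → ℚ)),
    Ctx F d m N dn ℓ a β e → Ind ℓ → e ∉ Nn → (cc d m : ℝ) ≤ c → 1 ≤ H → 3 ≤ B →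
    (∀ i, a i ≤ S * H) → 8 * m * c * (Real.log ((N : ℝ) ^ 2 * B) + 2) ≤ S →
    (∀ i, i ≠ e → |(β e : ℝ)| / a i + |(β i : ℝ)| / a e ≤ B) →
    N ≤ 2 ^ J → (Nn.Nonempty → N * H < 2 ^ J * a e) →
    (∀ i ∈ Nn, ‖ℓ i‖ * (1 + B * N) ≤ 1 ∧
      (‖ℓ i‖ * (1 + B * N)) ^ (τ i + 1) ≤ Real.exp (-(10 * c * (S * H)))) →
    N * ‖lin ℓ β‖ ≤ Real.exp (-(10 * c * (S * H))) →
    Pts F ℓ a H P₀ id →
    4 * d * (S * ∏ i, (Dh c H J (fun i => ⌊H / a i⌋₊) τ Nn e i + 1)) ≤ P₀.card → False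

/-- the bound for independent logarithms -/
def StCore : Prop :=
  ∀ d m : ℕ, ∃ c : ℝ, 1 ≤ c ∧ ∀ (F : IntermediateField ℚ ℂ) (ι : Type) [Fintype ι]
    [DecidableEq ι] (dn : ι → ℕ) (ℓ : ι → ℂ) (a K : ι → ℝ) (β : ι → ℚ) (e : ι) (Nn : Finset ι)
    (B W Ω : ℝ), Fld F d → Fintype.card ι ≤ m → Num F dn ℓ a → Ind ℓ → InG F ℓ β → β e ≠ 0 →
    e ∉ Nn → 3 ≤ B → c * Real.log B ^ (2 * Nn.card + 2) ≤ W → W ≤ B →
    (∏ i ∈ Nnᶜ, a i) * ∏ i ∈ Nn, K i ≤ Ω → (∀ i, a i ≤ Ω) → (Nn.Nonempty → Ω ≤ B * a e) →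
    (∀ i ∈ Nn, 1 ≤ K i ∧ ‖ℓ i‖ ≤ B * Real.exp (-(a i / K i))) →
    (∀ i, i ≠ e → |(β e : ℝ)| / a i + |(β i : ℝ)| / a e ≤ B) →
    Real.exp (-(c * W * Ω)) ≤ ‖lin ℓ β‖

/-- the same on the support `σ` of the coefficients -/
def StCoreS : Prop :=
  ∀ d m : ℕ, ∃ c : ℝ, 1 ≤ c ∧ ∀ (F : IntermediateField ℚ ℂ) (ι : Type) [Fintype ι]
    [DecidableEq ι] (dn : ι → ℕ) (ℓ : ι → ℂ) (a K : ι → ℝ) (β : ι → ℚ) (e : ι)
    (σ Nn : Finset ι) (B W Ω : ℝ), Fld F d → Fintype.card ι ≤ m → Num F dn ℓ a →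
    (∀ i, i ∈ σ ↔ β i ≠ 0) →
    (∀ x : ι → ℚ, (∀ i, β i = 0 → x i = 0) → lin ℓ x = 0 → x = 0) → InG F ℓ β → e ∈ σ →
    e ∉ Nn → Nn ⊆ σ → 3 ≤ B → c * Real.log B ^ (2 * Nn.card + 2) ≤ W → W ≤ B →
    (∏ i ∈ σ \ Nn, a i) * ∏ i ∈ Nn, K i ≤ Ω → (∀ i ∈ σ, a i ≤ Ω) →
    (Nn.Nonempty → Ω ≤ B * a e) →
    (∀ i ∈ Nn, 1 ≤ K i ∧ ‖ℓ i‖ ≤ B * Real.exp (-(a i / K i))) →
    (∀ i ∈ σ, i ≠ e → |(β e : ℝ)| / a i + |(β i : ℝ)| / a e ≤ B) →
    Real.exp (-(c * W * Ω)) ≤ ‖lin ℓ β‖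

/-- reduction to independent logarithms -/
def StRed : Prop :=
  ∀ (ι : Type) [Fintype ι] (ℓ : ι → ℂ) (a : ι → ℝ) (b : ι → ℚ) (M : ℝ), (∀ i, 0 < a i) →
    (∀ i, |(b i : ℝ)| * a i ≤ M) → ∃ β : ι → ℚ, lin ℓ β = lin ℓ b ∧
      (∀ i, |(β i : ℝ)| * a i ≤ 2 ^ Fintype.card ι * M) ∧
      ∀ x : ι → ℚ, (∀ i, β i = 0 → x i = 0) → lin ℓ x = 0 → x = 0

/-- the trivial lower bound -/
def StTriv : Prop :=
  ∀ (F : IntermediateField ℚ ℂ) (d : ℕ) (ι : Type) [Fintype ι] (dn : ι → ℕ) (ℓ : ι → ℂ)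
    (a : ι → ℝ) (b : ι → ℤ) (r : ℝ), Fld F d → Num0 F dn ℓ a → ∑ i, |(b i : ℝ)| * a i ≤ r →
    1 ≤ r → ∑ i, (b i : ℂ) * ℓ i ≠ 0 → Real.exp (-((3 * d + 2) * r)) ≤ ‖∑ i, (b i : ℂ) * ℓ i‖

end Pool.Agent.Lib.MP_4ffbf9_nt.MA
end

-- part Pool.Agent.Lib.MP_4ffbf9_nt.MA.Interp
section

/-! Extrapolation with divided differences. -/

set_option autoImplicit false

namespace Pool.Agent.Lib.MP_4ffbf9_nt.MA

namespace Interp

open Finset PowerSeries

/-- the series `X / (1 - x X)` -/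
noncomputable def B (x : ℝ) : PowerSeries ℝ := X * PowerSeries.mk fun r => x ^ r

theorem geo (x : ℝ) : (PowerSeries.mk fun r => x ^ r : PowerSeries ℝ) * (1 - C x * X) = 1 := by
  ext n
  rw [mul_sub, mul_one, ← mul_assoc, map_sub]
  rcases n with _ | n
  · simp
  · rw [coeff_succ_mul_X, mul_comm _ (C x), coeff_C_mul]
    simp [pow_succ', coeff_one]

theorem B_sub (x y : ℝ) : B x = B y + C (x - y) * (B x * B y) := by
  rw [B, B, map_sub]
  linear_combination (X * PowerSeries.mk fun r => y ^ r) * geo x - (X * PowerSeries.mk fun r => x ^ r) * geo y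

theorem B_pow (x : ℝ) (j : ℕ) :
    B x ^ (j + 1) = X ^ (j + 1) * PowerSeries.mk fun s => x ^ s * ((j + s).choose j : ℝ) := by
  rw [B, mul_pow, ← rescale_mk, ← mk_one_pow_eq_mk_choose_add, map_pow, rescale_mk]
  simp

theorem hasSum_pow (x w : ℝ) (j : ℕ) :
    HasSum (fun r => coeff (r + 1) (B x ^ (j + 1)) * w ^ r / r.factorial)
      (w ^ j * Real.exp (x * w) / j.factorial) := by
  rw [← hasSum_nat_add_iff' j, sum_eq_zero fun r hr => by
    rw [B_pow, coeff_X_pow_mul', if_neg (by have := mem_range.1 hr; omega), zero_mul, zero_div],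
    sub_zero, Real.exp_eq_exp_ℝ, mul_div_right_comm]
  refine ((NormedSpace.expSeries_div_hasSum_exp (x * w)).mul_left (w ^ j / j.factorial)).congr_fun
    fun s => ?_
  rw [B_pow, add_assoc, coeff_X_pow_mul, coeff_mk, add_comm j s,
    Nat.cast_choose ℝ (Nat.le_add_left j s), Nat.add_sub_cancel]
  field_simp
  ring

theorem hasSum_powC (x : ℝ) (w : ℂ) (j : ℕ) :
    HasSum (fun r => ((coeff (r + 1) (B x ^ (j + 1)) : ℝ) : ℂ) * w ^ r / r.factorial)
      (w ^ j * Complex.exp (x * w) / j.factorial) := by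
  rw [← hasSum_nat_add_iff' j, sum_eq_zero fun r hr => by
    rw [B_pow, coeff_X_pow_mul', if_neg (by have := mem_range.1 hr; omega), Complex.ofReal_zero,
      zero_mul, zero_div], sub_zero, Complex.exp_eq_exp_ℂ, mul_div_right_comm]
  refine ((NormedSpace.expSeries_div_hasSum_exp (x * w)).mul_left (w ^ j / j.factorial)).congr_fun
    fun s => ?_
  have h1 : ∀ n : ℕ, (n.factorial : ℂ) ≠ 0 := fun n => Nat.cast_ne_zero.2 n.factorial_ne_zero
  have h2 := h1 s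
  have h3 := h1 j
  have h4 := h1 (s + j)
  rw [B_pow, add_assoc, coeff_X_pow_mul, coeff_mk, add_comm j s,
    Nat.cast_choose ℝ (Nat.le_add_left j s), Nat.add_sub_cancel]
  push_cast
  field_simp
  ring

/-- domination of the coefficients -/
def Dom (A A' : PowerSeries ℝ) : Prop := ∀ n, |coeff n A| ≤ coeff n A'

theorem Dom.mul {A A' D D' : PowerSeries ℝ} (h : Dom A A') (k : Dom D D') :
    Dom (A * D) (A' * D') := fun n => by
  rw [coeff_mul, coeff_mul]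
  refine (abs_sum_le_sum_abs _ _).trans (sum_le_sum fun p _ => ?_)
  rw [abs_mul]
  exact mul_le_mul (h _) (k _) (abs_nonneg _) ((abs_nonneg _).trans (h _))

theorem dom_B {x R : ℝ} (h : |x| ≤ R) : Dom (B x) (B R) := fun n => by
  rcases n with _ | n
  · simp [B]
  · rw [B, B, coeff_succ_X_mul, coeff_succ_X_mul, coeff_mk, coeff_mk, abs_pow]
    exact pow_le_pow_left₀ (abs_nonneg _) h n

theorem dom_prod {x : ℕ → ℝ} {R : ℝ} (j : ℕ) (h : ∀ i < j, |x i| ≤ R) :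
    Dom (∏ i ∈ range j, B (x i)) (B R ^ j) := by
  induction j with
  | zero =>
    intro n
    rw [prod_range_zero, pow_zero, coeff_one]
    split_ifs <;> simp
  | succ j ih =>
    rw [prod_range_succ, pow_succ]
    exact (ih fun i hi => h i (by omega)).mul (dom_B (h j (by omega)))

/-- the divided difference of the exponential -/
noncomputable def E (A : PowerSeries ℝ) (w : ℂ) : ℂ :=
  ∑' r, ((coeff (r + 1) A : ℝ) : ℂ) * w ^ r / r.factorial

theorem Dom.term {A A' : PowerSeries ℝ} (h : Dom A A') (w : ℂ) (r : ℕ) :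
    ‖((coeff (r + 1) A : ℝ) : ℂ) * w ^ r / r.factorial‖ ≤
      coeff (r + 1) A' * ‖w‖ ^ r / r.factorial := by
  rw [norm_div, norm_mul, norm_pow, Complex.norm_natCast, Complex.norm_real]
  exact div_le_div_of_nonneg_right (mul_le_mul_of_nonneg_right (h _) (by positivity))
    (Nat.cast_nonneg _)

theorem Dom.summable {A : PowerSeries ℝ} {R : ℝ} {j : ℕ} (h : Dom A (B R ^ (j + 1))) (w : ℂ) :
    Summable fun r => ((coeff (r + 1) A : ℝ) : ℂ) * w ^ r / r.factorial :=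
  (hasSum_pow R ‖w‖ j).summable.of_norm_bounded (h.term w)

theorem Dom.le {A : PowerSeries ℝ} {R : ℝ} {j : ℕ} (h : Dom A (B R ^ (j + 1))) (w : ℂ) :
    ‖E A w‖ ≤ ‖w‖ ^ j * Real.exp (R * ‖w‖) / j.factorial :=
  tsum_of_norm_bounded (hasSum_pow R ‖w‖ j) (h.term w)

theorem E_rec {A : PowerSeries ℝ} {R x y : ℝ} {j : ℕ} (h : Dom A (B R ^ j)) (hx : |x| ≤ R)
    (hy : |y| ≤ R) (w : ℂ) :
    E (A * B x) w = E (A * B y) w + ((x - y : ℝ) : ℂ) * E (A * B y * B x) w := by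
  have h1 : Dom (A * B y) (B R ^ (j + 1)) := pow_succ (B R) j ▸ h.mul (dom_B hy)
  have h2 : Dom (A * B y * B x) (B R ^ (j + 1 + 1)) := pow_succ (B R) (j + 1) ▸ h1.mul (dom_B hx)
  have e : A * B x = A * B y + C (x - y) * (A * B y * B x) := by
    linear_combination A * B_sub x y
  rw [E, E, E, ← tsum_mul_left, ← (h1.summable w).tsum_add ((h2.summable w).mul_left _)]
  refine tsum_congr fun r => ?_
  rw [e, map_add, coeff_C_mul]
  push_cast
  ring

variable {κ : Type} (P : Finset κ) (q w : κ → ℂ)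

/-- the divided difference of the exponential sum -/
noncomputable def F (A : PowerSeries ℝ) : ℂ := ∑ k ∈ P, q k * E A (w k)

theorem F_rec {A : PowerSeries ℝ} {R x y : ℝ} {j : ℕ} (h : Dom A (B R ^ j)) (hx : |x| ≤ R)
    (hy : |y| ≤ R) :
    F P q w (A * B x) = F P q w (A * B y) + ((x - y : ℝ) : ℂ) * F P q w (A * B y * B x) := by
  rw [F, F, F, mul_sum, ← sum_add_distrib]
  refine sum_congr rfl fun k _ => ?_
  rw [E_rec h hx hy]
  ring

theorem F_pow (x : ℝ) (j : ℕ) : F P q w (B x ^ (j + 1)) =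
    (∑ k ∈ P, q k * Complex.exp (x * w k) * w k ^ j) / j.factorial := by
  rw [F, sum_div]
  refine sum_congr rfl fun k _ => ?_
  rw [E, (hasSum_powC x (w k) j).tsum_eq]
  ring

/-- the nodes -/
noncomputable def nd (t i : ℕ) : ℝ := 2 * (i / t : ℕ) + 1

theorem nd_mem {S t i : ℕ} (h : i < S * t) : 0 ≤ nd t i ∧ nd t i ≤ 2 * S := by
  have h1 : i / t + 1 ≤ S := Nat.div_lt_of_lt_mul (by rwa [mul_comm])
  have h2 : ((i / t : ℕ) : ℝ) + 1 ≤ S := by exact_mod_cast h1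
  rw [nd]
  exact ⟨by positivity, by linarith⟩

theorem nd_abs {S t i : ℕ} (h : i < S * t) : |nd t i| ≤ 2 * S := by
  rw [abs_of_nonneg (nd_mem h).1]
  exact (nd_mem h).2

theorem window {S t : ℕ} {η : ℝ} (ht : 1 ≤ t) (hη : 0 ≤ η) (h : ∀ j < S, ∀ r < t,
    ‖∑ k ∈ P, q k * Complex.exp ((2 * j + 1) * w k) * w k ^ r‖ ≤ η * (4 * t) ^ r) (j : ℕ) :
    ∀ a, a + j < S * t →
      ‖F P q w (∏ i ∈ range (j + 1), B (nd t (a + i)))‖ ≤ η * (4 * t) ^ j / j.factorial := by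
  have eq : ∀ j a, a + j < S * t → (a + j) / t = a / t →
      ‖F P q w (∏ i ∈ range (j + 1), B (nd t (a + i)))‖ ≤ η * (4 * t) ^ j / j.factorial := by
    intro j a ha e
    have h1 : ∀ i ∈ range (j + 1), B (nd t (a + i)) = B (nd t a) := fun i hi => by
      have := mem_range.1 hi
      rw [nd, nd, le_antisymm (e ▸ Nat.div_le_div_right (by omega : a + i ≤ a + j))
        (Nat.div_le_div_right (Nat.le_add_right a i))]
    have h2 : j < t := by
      have k1 := Nat.lt_mul_div_succ (a + j) ht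
      have k2 := Nat.mul_div_le a t
      rw [e, mul_add] at k1
      omega
    rw [prod_congr rfl h1, prod_const, card_range, F_pow, norm_div, Complex.norm_natCast]
    refine div_le_div_of_nonneg_right ?_ (Nat.cast_nonneg _)
    rw [show ((nd t a : ℝ) : ℂ) = 2 * (a / t : ℕ) + 1 by rw [nd]; push_cast; rfl]
    exact h (a / t) (Nat.div_lt_of_lt_mul (by rw [mul_comm]; omega)) j h2
  induction j with
  | zero => exact fun a ha => eq 0 a ha rfl
  | succ j ih =>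
    intro a ha
    rcases (Nat.div_le_div_right (c := t) (Nat.le_add_right a (j + 1))).eq_or_lt with e | e
    · exact eq _ a ha e.symm
    obtain ⟨d, hd⟩ := Nat.exists_eq_add_of_lt e
    have h1 : j + 1 ≤ 2 * (d + 1) * t := by
      have k1 := Nat.lt_mul_div_succ (a + (j + 1)) ht
      have k2 := Nat.mul_div_le a t
      rw [hd] at k1
      nlinarith
    have h2 : (j : ℝ) + 1 ≤ 2 * (d + 1) * t := by exact_mod_cast h1
    have h3 : nd t (a + (j + 1)) - nd t a = 2 * (d + 1) := by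
      rw [nd, nd, hd]
      push_cast
      ring
    have h4 := F_rec P q w (dom_prod (x := fun i => nd t (a + (i + 1))) (R := 2 * S) j
      fun i hi => nd_abs (by omega)) (nd_abs ha) (nd_abs (by omega : a < S * t))
    have h5 := ih a (by omega)
    have h6 := ih (a + 1) (by omega)
    rw [prod_range_succ'] at h5
    rw [prod_range_succ] at h6
    rw [prod_range_succ, prod_range_succ']
    simp only [add_assoc, add_comm 1, add_zero] at h5 h6 ⊢
    rw [h3] at h4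
    have h7 : 2 * (d + 1) * ‖F P q w ((∏ i ∈ range j, B (nd t (a + (i + 1)))) * B (nd t a) *
        B (nd t (a + (j + 1))))‖ ≤ 2 * (η * (4 * t) ^ j / j.factorial) := by
      rw [← Real.norm_of_nonneg (show (0 : ℝ) ≤ 2 * (d + 1) by positivity), ← Complex.norm_real,
        ← norm_mul, ← sub_eq_iff_eq_add'.2 h4]
      exact (norm_sub_le _ _).trans (by linarith)
    rw [Nat.factorial_succ, pow_succ]
    push_cast
    rw [mul_comm ((j : ℝ) + 1), ← div_div, le_div_iff₀ (by positivity)]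
    have h8 := mul_le_mul_of_nonneg_right h7 (Nat.cast_nonneg (α := ℝ) t)
    have h9 : 0 ≤ η * (4 * t) ^ j / j.factorial * t := by positivity
    calc _ ≤ _ := mul_le_mul_of_nonneg_left h2 (norm_nonneg _)
      _ ≤ 4 * (η * (4 * t) ^ j / j.factorial * t) := by linarith
      _ = _ := by ring

theorem newton {S t : ℕ} {z : ℝ} (h0 : 0 ≤ z) (h1 : z ≤ 2 * S) (n : ℕ) (hn : n ≤ S * t) :
    ‖F P q w (B z)‖ ≤ ∑ j ∈ range n, (2 * S) ^ j * ‖F P q w (∏ i ∈ range (j + 1), B (nd t i))‖ +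
      (2 * S) ^ n * ‖F P q w ((∏ i ∈ range n, B (nd t i)) * B z)‖ := by
  induction n with
  | zero => simp
  | succ n ih =>
    refine (ih (by omega)).trans ?_
    have h2 := nd_mem (show n < S * t by omega)
    rw [sum_range_succ, add_assoc, pow_succ, mul_assoc, ← mul_add, prod_range_succ,
      F_rec P q w (dom_prod (R := 2 * S) n fun i hi => nd_abs (by omega))
        ((abs_of_nonneg h0).trans_le h1) (nd_abs (show n < S * t by omega))]
    refine add_le_add le_rfl (mul_le_mul_of_nonneg_left ((norm_add_le _ _).trans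
      (add_le_add le_rfl ?_)) (by positivity))
    rw [norm_mul, Complex.norm_real]
    exact mul_le_mul_of_nonneg_right (abs_le.2 ⟨by linarith, by linarith⟩) (norm_nonneg _)

theorem rem {y : ℝ} (hy : 0 ≤ y) (n : ℕ) :
    y ^ n * Real.exp y / n.factorial ≤ Real.exp (4 * y - n) := by
  have h1 := Real.pow_div_factorial_le_exp (Real.exp 1 * y) (by positivity) n
  have h2 : Real.exp 1 * y ≤ 3 * y :=
    mul_le_mul_of_nonneg_right (Real.exp_one_lt_d9.le.trans (by norm_num)) hy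
  rw [mul_pow, ← Real.exp_nat_mul, mul_one] at h1
  rw [Real.exp_sub, le_div_iff₀ (Real.exp_pos _)]
  calc _ = Real.exp n * y ^ n / n.factorial * Real.exp y := by ring
    _ ≤ Real.exp (3 * y) * Real.exp y := by
        gcongr
        exact h1.trans (Real.exp_le_exp.2 h2)
    _ = _ := by rw [← Real.exp_add]; congr 1; ring

end Interp

open Finset Polynomial

theorem stInterp : StInterp := by
  intro κ P q w S t ω η z ht hω hη hw h0 h1 h
  have h2 := Interp.newton P q w h0 h1 (S * t) le_rfl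
  have h3 := Interp.F_pow P q w z 0
  simp only [zero_add, pow_one, pow_zero, mul_one, Nat.factorial_zero, Nat.cast_one, div_one] at h3
  rw [h3] at h2
  refine h2.trans (add_le_add ?_ ?_)
  · refine le_trans (sum_le_sum fun j hj => ?_) (le_trans (le_of_eq (mul_sum _ _ _).symm)
      (mul_le_mul_of_nonneg_left (Real.sum_le_exp_of_nonneg (by positivity) (S * t)) hη))
    have h4 := Interp.window P q w ht hη h j 0 (by rw [zero_add]; exact mem_range.1 hj)
    simp only [zero_add] at h4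
    refine (mul_le_mul_of_nonneg_left h4 (by positivity)).trans (le_of_eq ?_)
    rw [show (8 : ℝ) * (S * t) = 2 * S * (4 * t) by ring, mul_pow (2 * (S : ℝ))]
    ring
  · have h4 : Interp.Dom ((∏ i ∈ range (S * t), Interp.B (Interp.nd t i)) * Interp.B z)
        (Interp.B (2 * S) ^ (S * t + 1)) := pow_succ (Interp.B (2 * S)) (S * t) ▸
      (Interp.dom_prod _ fun i hi => Interp.nd_abs hi).mul
        (Interp.dom_B ((abs_of_nonneg h0).trans_le h1))
    rw [Interp.F, sum_mul]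
    refine (mul_le_mul_of_nonneg_left (norm_sum_le _ _) (by positivity)).trans ?_
    rw [mul_sum]
    refine sum_le_sum fun k hk => ?_
    rw [norm_mul, mul_left_comm]
    refine mul_le_mul_of_nonneg_left ?_ (norm_nonneg _)
    have h5 := Interp.rem (y := 2 * S * ω) (by positivity) (S * t)
    have h6 := hw k hk
    calc _ ≤ (2 * S) ^ (S * t) * (ω ^ (S * t) * Real.exp (2 * S * ω) / (S * t).factorial) :=
          mul_le_mul_of_nonneg_left ((h4.le (w k)).trans (by gcongr)) (by positivity)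
      _ = (2 * S * ω) ^ (S * t) * Real.exp (2 * S * ω) / (S * t).factorial := by
          rw [mul_pow (2 * (S : ℝ))]
          ring
      _ ≤ _ := h5.trans (le_of_eq (by push_cast; congr 1; ring))

end Pool.Agent.Lib.MP_4ffbf9_nt.MA
end

-- part Pool.Agent.Lib.MP_4ffbf9_nt.MA.Liou
section

/-! The inequality of Liouville. -/

set_option autoImplicit false

namespace Pool.Agent.Lib.MP_4ffbf9_nt.MA

open Finset Polynomial

theorem liou_prod {K : Type} [Field K] [NumberField K] {η : K} (hi : IsIntegral ℤ η)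
    (h0 : η ≠ 0) : 1 ≤ ∏ σ : K →+* ℂ, ‖σ η‖ := by
  obtain ⟨n, hn⟩ := IsIntegrallyClosed.isIntegral_iff.1 (Algebra.isIntegral_norm ℚ hi)
  have h1 : n ≠ 0 := by
    rintro rfl
    exact h0 (by simpa using hn.symm)
  have h2 := Algebra.norm_eq_prod_embeddings ℚ ℂ η
  rw [← hn, ← Fintype.prod_equiv (RingHom.equivRatAlgHom K ℂ) (fun σ => σ η) (fun σ => σ η)
    fun _ => by simp [RingHom.equivRatAlgHom_apply]] at h2
  rw [← norm_prod, ← h2]
  simp only [eq_intCast, map_intCast, Complex.norm_intCast]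
  exact_mod_cast Int.one_le_abs h1

theorem stLiou : StLiou := by
  classical
  intro F d h
  have := h.numberField
  have hi : ∀ η : F, IsIntegral ℤ (η : ℂ) → IsIntegral ℤ η := fun η k =>
    (isIntegral_algHom_iff (F.val.restrictScalars ℤ) Subtype.val_injective).1 k
  refine ⟨?_, fun η k hk => ?_⟩
  · rintro _ H ⟨η, rfl, k, hk⟩ hH h0
    refine (liou_prod (hi η k) fun e => h0 (by simp [e])).trans ?_
    rw [← mul_prod_erase _ _ (mem_univ (α := F →+* ℂ) F.subtype)]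
    refine mul_le_mul_of_nonneg_left ((prod_le_prod (fun _ _ => norm_nonneg _)
      fun σ _ => hk σ).trans ?_) (norm_nonneg _)
    rw [prod_const]
    refine pow_le_pow_right₀ hH (card_erase_le.trans ?_)
    rw [card_univ, NumberField.Embeddings.card]
    exact h.deg
  · by_contra h0
    have := liou_prod (hi η k) h0
    rw [← mul_prod_erase _ _ (mem_univ (α := F →+* ℂ) F.subtype)] at this
    exact this.not_gt (mul_lt_one_of_nonneg_of_lt_one_left (norm_nonneg _) (hk _)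
      (prod_le_one (fun _ _ => norm_nonneg _) fun σ _ => (hk σ).le))

end Pool.Agent.Lib.MP_4ffbf9_nt.MA
end

-- part Pool.Agent.Lib.MP_4ffbf9_nt.MA.Siegel
section

/-! The lemma of Siegel. -/

set_option autoImplicit false

namespace Pool.Agent.Lib.MP_4ffbf9_nt.MA

open Finset Polynomial

namespace Siegel

/-- small values of real linear forms at a nonzero integral point -/
theorem pigeon {ι κ : Type} [Fintype ι] [Fintype κ] (a : ι → κ → ℝ) {Θ : ℝ} (h1 : 1 ≤ Θ)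
    (ha : ∀ i k, |a i k| ≤ Θ) (hn : Fintype.card κ ≠ 0)
    (hc : 2 * Fintype.card ι ≤ Fintype.card κ) : ∃ p : κ → ℤ, p ≠ 0 ∧
      (∀ k, |(p k : ℝ)| ≤ 6 * Fintype.card κ * Θ) ∧ ∀ i, |∑ k, (p k : ℝ) * a i k| < 1 / 2 := by
  classical
  obtain ⟨n, hn'⟩ : ∃ n : ℝ, n = Fintype.card κ := ⟨_, rfl⟩
  have n1 : 1 ≤ n := hn' ▸ Nat.one_le_cast.2 (Nat.pos_of_ne_zero hn)
  have n2 : 1 ≤ n * Θ := one_le_mul_of_one_le_of_one_le n1 h1
  obtain ⟨X, hX, hX'⟩ : ∃ X : ℕ, 4 * (n * Θ) ≤ X ∧ X < 4 * (n * Θ) + 1 :=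
    ⟨_, Nat.le_ceil _, Nat.ceil_lt_add_one (by positivity)⟩
  obtain ⟨M, hM, hM'⟩ : ∃ M : ℕ, 2 * (n * (X * Θ)) ≤ M ∧ M < 2 * (n * (X * Θ)) + 1 :=
    ⟨_, Nat.le_ceil _, Nat.ceil_lt_add_one (by positivity)⟩
  have h2 : 2 * M + 1 < (X + 1) ^ 2 := by
    have : (2 * M + 1 : ℝ) < (X + 1) ^ 2 := by
      nlinarith [mul_le_mul_of_nonneg_left hX X.cast_nonneg]
    exact_mod_cast this
  have h3 : (Fintype.piFinset fun _ : ι => Icc (-M : ℤ) M).card <
      (Fintype.piFinset fun _ : κ => Icc (0 : ℤ) X).card := by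
    have e1 : (Icc (-M : ℤ) M).card = 2 * M + 1 := by
      rw [Int.card_Icc]
      omega
    have e2 : (Icc (0 : ℤ) X).card = X + 1 := by
      rw [Int.card_Icc]
      omega
    rw [Fintype.card_piFinset, Fintype.card_piFinset, prod_const, prod_const, e1, e2, card_univ,
      card_univ]
    refine lt_of_pow_lt_pow_left₀ 2 (Nat.zero_le _) ?_
    rw [← pow_mul, mul_comm _ 2, ← pow_mul, mul_comm _ 2, pow_mul (X + 1)]
    exact (Nat.pow_le_pow_right (Nat.succ_pos _) hc).trans_lt (Nat.pow_lt_pow_left h2 hn)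
  have h4 : ∀ p ∈ Fintype.piFinset fun _ : κ => Icc (0 : ℤ) X, ∀ k,
      0 ≤ (p k : ℝ) ∧ (p k : ℝ) ≤ X := fun p hp k => by
    exact_mod_cast mem_Icc.1 (Fintype.mem_piFinset.1 hp k)
  obtain ⟨p, hp, q, hq, hpq, h5⟩ := exists_ne_map_eq_of_card_lt_of_maps_to h3
    (f := fun p i => ⌊2 * ∑ k, (p k : ℝ) * a i k⌋) fun p hp => by
      refine mem_coe.2 (Fintype.mem_piFinset.2 fun i => mem_Icc.2 ?_)
      have h6 : |∑ k, (p k : ℝ) * a i k| ≤ n * (X * Θ) := by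
        refine (abs_sum_le_sum_abs _ _).trans ((sum_le_card_nsmul _ _ (X * Θ) fun k _ => ?_).trans ?_)
        · rw [abs_mul, abs_of_nonneg (h4 p hp k).1]
          exact mul_le_mul (h4 p hp k).2 (ha i k) (abs_nonneg _) X.cast_nonneg
        · rw [nsmul_eq_mul, card_univ, hn']
      rw [abs_le] at h6
      constructor
      · rw [Int.le_floor]
        push_cast
        linarith [h6.1]
      · rw [Int.floor_le_iff]
        push_cast
        linarith [h6.2]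
  refine ⟨p - q, sub_ne_zero.2 hpq, fun k => ?_, fun i => ?_⟩
  · rw [Pi.sub_apply, Int.cast_sub, ← hn', abs_le]
    constructor <;> linarith [h4 p hp k, h4 q hq k]
  · have h6 := Int.abs_sub_lt_one_of_floor_eq_floor (congrFun h5 i)
    simp only [Pi.sub_apply, Int.cast_sub, sub_mul, sum_sub_distrib]
    rw [← mul_sub, abs_mul, abs_two] at h6
    linarith

end Siegel

theorem stSiegel (hL : StLiou) : StSiegel := by
  classical
  intro F d E κ _ P θ Θ hF h1 hθ hP hc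
  have := hF.numberField
  choose! η e1 e2 e3 using hθ
  obtain ⟨p, p0, p1, p2⟩ := Siegel.pigeon (ι := E × (F →+* ℂ) × Bool) (κ := P)
    (fun i k => if i.2.2 then (i.2.1 (η i.1 k)).re else (i.2.1 (η i.1 k)).im) h1
    (fun i k => by
      split_ifs
      · exact (Complex.abs_re_le_norm _).trans (e3 _ _ k.2 _)
      · exact (Complex.abs_im_le_norm _).trans (e3 _ _ k.2 _))
    (by simpa using hP.ne_empty) (by
      rw [Fintype.card_prod, Fintype.card_prod, NumberField.Embeddings.card, Fintype.card_bool,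
        Fintype.card_coe]
      nlinarith [Nat.mul_le_mul_left (Fintype.card E) hF.deg])
  rw [Fintype.card_coe] at p1
  refine ⟨fun k => if h : k ∈ P then p ⟨k, h⟩ else 0, ?_, fun k hk => ?_, fun j => ?_⟩
  · obtain ⟨k, hk⟩ := Function.ne_iff.1 p0
    exact ⟨k, k.2, fun h => hk ((dif_pos k.2).symm.trans h)⟩
  · simpa only [dif_pos hk] using p1 ⟨k, hk⟩
  have h2 : ((∑ k : P, (p k : F) * η j k : F) : ℂ) = ∑ k : P, (p k : ℂ) * θ j k := by
    push_cast
    exact sum_congr rfl fun k _ => by rw [e1 j k k.2]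
  have h3 := (hL F d hF).2 (∑ k : P, (p k : F) * η j k) (h2 ▸ IsIntegral.sum _ fun k _ =>
    (isIntegral_algebraMap (R := ℤ) (x := p k)).mul (e2 j k k.2)) fun σ => by
      have h4 := p2 (j, σ, true)
      have h5 := p2 (j, σ, false)
      refine (Complex.norm_le_abs_re_add_abs_im _).trans_lt ?_
      simp only [map_sum, map_mul, map_intCast, Complex.re_sum, Complex.im_sum, Complex.mul_re,
        Complex.mul_im, Complex.intCast_re, Complex.intCast_im, zero_mul, sub_zero, add_zero]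
      simp only [if_true, Bool.false_eq_true, if_false] at h4 h5
      linarith
  rw [← sum_coe_sort P]
  simp only [dif_pos (Subtype.property _), ← h2, h3]
  rfl

end Pool.Agent.Lib.MP_4ffbf9_nt.MA
end

-- part Pool.Agent.Lib.MP_4ffbf9_nt.MA.KL
section

/-! Sums of square roots. -/

set_option autoImplicit false

namespace Pool.Agent.Lib.MP_4ffbf9_nt.MA

open Finset Polynomial

namespace KL

variable {F : Type} [Field F]

theorem integral_of_sq {A : Type} [CommRing A] [Algebra F A] {t : A} {r : F}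
    (h : t ^ 2 = algebraMap F A r) : IsIntegral F t :=
  ⟨X ^ 2 - C r, monic_X_pow_sub_C r two_ne_zero, by simp [h]⟩

theorem trace_irr {K : Type} [Field K] [Algebra F K] [FiniteDimensional F K] (s : K) (r : F)
    (h : s ^ 2 = algebraMap F K r) (hs : s ∉ (algebraMap F K).range) :
    Algebra.trace F K s = 0 := by
  have hi : IsIntegral F s := integral_of_sq h
  have h3 : X ^ 2 - C r = minpoly F s :=
    eq_of_monic_of_dvd_of_natDegree_le (minpoly.monic hi) (monic_X_pow_sub_C r two_ne_zero)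
      (minpoly.dvd F s (by simp [h]))
      (by rw [natDegree_X_pow_sub_C]; exact (minpoly.two_le_natDegree_iff hi).2 hs)
  rw [trace_eq_finrank_mul_minpoly_nextCoeff, ← h3]
  simp [nextCoeff, coeff_X_pow]

variable [Algebra F ℂ]

theorem finrank_le (T : Finset ℂ) (h : ∀ t ∈ T, ∃ r : F, t ^ 2 = algebraMap F ℂ r) :
    Module.finrank F (IntermediateField.adjoin F (T : Set ℂ)) ≤ 2 ^ T.card := by
  classical
  induction T using Finset.induction_on with
  | empty =>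
    rw [coe_empty, IntermediateField.adjoin_empty, IntermediateField.finrank_bot]
    simp
  | insert t T ht ih =>
    rw [coe_insert, Set.insert_eq, IntermediateField.adjoin_union, card_insert_of_notMem ht,
      pow_succ']
    obtain ⟨r, hr⟩ := h t (mem_insert_self _ _)
    refine (IntermediateField.finrank_sup_le _ _).trans
      (Nat.mul_le_mul ?_ (ih fun s hs => h s (mem_insert_of_mem hs)))
    rw [IntermediateField.adjoin.finrank (integral_of_sq hr)]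
    exact (natDegree_le_of_dvd (minpoly.dvd F t (by simp [hr]))
      (monic_X_pow_sub_C r two_ne_zero).ne_zero).trans_eq natDegree_X_pow_sub_C

theorem field {κ : Type} (P : Finset κ) (n : ℕ) (cl : κ → Fin n) (y : κ → ℂ)
    (h2 : ∀ k ∈ P, ∃ r : F, y k ^ 2 = algebraMap F ℂ r)
    (h3 : ∀ k ∈ P, ∀ l ∈ P, cl k = cl l → ∃ r : F, y k = algebraMap F ℂ r * y l) :
    ∃ K : IntermediateField F ℂ, FiniteDimensional F K ∧ Module.finrank F K ≤ 2 ^ n ∧
      ∀ k ∈ P, y k ∈ K := by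
  classical
  let rep : Fin n → ℂ := fun c => if h : ∃ l ∈ P, cl l = c then y h.choose else 0
  have hT : ∀ t ∈ univ.image rep, ∃ r : F, t ^ 2 = algebraMap F ℂ r := by
    intro t ht
    obtain ⟨c, -, rfl⟩ := mem_image.1 ht
    by_cases h : ∃ l ∈ P, cl l = c
    · simpa only [rep, dif_pos h] using h2 _ h.choose_spec.1
    · exact ⟨0, by simp only [rep, dif_neg h]; simp⟩
  refine ⟨IntermediateField.adjoin F (univ.image rep : Finset ℂ),
    IntermediateField.finiteDimensional_adjoin fun t ht => integral_of_sq (hT t ht).choose_spec,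
    (finrank_le _ hT).trans (Nat.pow_le_pow_right two_pos (card_image_le.trans (by simp))),
    fun k hk => ?_⟩
  have h : ∃ l ∈ P, cl l = cl k := ⟨k, hk, rfl⟩
  obtain ⟨r, hr⟩ := h3 k hk _ h.choose_spec.1 h.choose_spec.2.symm
  rw [hr]
  refine mul_mem (IntermediateField.algebraMap_mem _ r)
    (IntermediateField.subset_adjoin _ _ (mem_coe.2 (mem_image.2 ⟨cl k, mem_univ _, ?_⟩)))
  simp only [rep, dif_pos h]

end KL

theorem stKL (hL : StLiou) : StKL := by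
  classical
  intro F d κ P n cl q y Y H hF h1 hY0 h2 h3 hH hsum hsmall l hl P' hP'
  have := hF.fin
  obtain ⟨K, hfin, hrank, hK⟩ := KL.field (F := F) P n cl y
    (fun k hk => (h2 k hk).imp fun r hr => hr.1.symm) fun k hk l hl h =>
      ⟨⟨_, h3 k hk l hl h⟩, (div_mul_cancel₀ _ (h1 l hl)).symm⟩
  have : Module.Free F K := Module.Free.of_divisionRing F K
  have hK' : Fld (K.restrictScalars ℚ) (d * 2 ^ n) :=
    ⟨show FiniteDimensional ℚ K from Module.Finite.trans F K, show Module.finrank ℚ K ≤ _ by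
      rw [← Module.finrank_mul_finrank ℚ F K]
      exact Nat.mul_le_mul hF.deg hrank⟩
  have hy : ∀ k ∈ P, Sm (K.restrictScalars ℚ) (y k) Y := fun k hk => by
    obtain ⟨η, e, hi, hσ⟩ := h2 k hk
    refine ⟨⟨y k, hK k hk⟩, rfl, IsIntegral.of_pow two_pos hi, fun τ => ?_⟩
    refine (pow_le_pow_iff_left₀ (norm_nonneg _) hY0 two_ne_zero).1 ?_
    rw [← norm_pow, ← map_pow]
    exact (congrArg (‖τ ·‖) (Subtype.ext e.symm)).trans_le (hσ (τ.comp (algebraMap F K)))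
  have hθ : Sm (K.restrictScalars ℚ) (∑ k ∈ P, (q k : ℂ) * y k) (∑ k ∈ P, |(q k : ℝ)| * Y) := by
    refine Finset.induction_on' P (by simpa using Sm.int _ 0) fun {k s} hk _ hs ih => ?_
    rw [sum_insert hs, sum_insert hs, ← Complex.norm_intCast]
    exact ((Sm.int _ _).mul (hy k hk)).add ih
  have hz : ∑ k ∈ P, (q k : ℂ) * y k = 0 := by_contra fun h =>
    ((hL _ _ hK').1 _ H (hθ.mono (by rwa [← sum_mul])) hH h).not_gt hsmall
  let s : κ → K := fun k => if h : k ∈ P then ⟨y k / y l, div_mem (hK k h) (hK l hl)⟩ else 0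
  have hs : ∀ k ∈ P, (s k : ℂ) = y k / y l := fun k hk => by simp only [s, dif_pos hk]
  have htr : ∀ k ∈ P, (Algebra.trace F K (s k) : ℂ) =
      if k ∈ P' then Module.finrank F K * (y k / y l) else 0 := fun k hk => by
    split_ifs with h
    · rw [show s k = algebraMap F K ⟨_, ((hP' k).1 h).2⟩ from Subtype.ext (hs k hk),
        Algebra.trace_algebraMap, nsmul_eq_mul]
      simp
    · obtain ⟨a, ha, -⟩ := h2 k hk
      obtain ⟨b, hb, -⟩ := h2 l hl
      rw [KL.trace_irr (s k) (a / b) (Subtype.ext ?_) fun ⟨r, hr⟩ => h ((hP' k).2 ⟨hk, ?_⟩)]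
      · rfl
      · change (s k : ℂ) ^ 2 = a / b
        rw [hs k hk, ha, hb, div_pow]
      · rw [← hs k hk, ← hr]
        exact r.2
  have e0 : ∑ k ∈ P, q k • s k = 0 := Subtype.ext (by
    push_cast
    rw [← zero_div (y l), ← hz, sum_div]
    exact sum_congr rfl fun k hk => by rw [hs k hk, zsmul_eq_mul, mul_div_assoc])
  have e1 := congrArg (fun t => (Algebra.trace F K t : ℂ)) e0
  simp only [map_sum, map_zsmul, map_zero] at e1
  push_cast at e1
  rw [sum_congr rfl fun k hk => by rw [htr k hk, smul_ite, smul_zero], sum_ite_mem,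
    inter_eq_right.2 fun k hk => ((hP' k).1 hk).1] at e1
  refine mul_left_cancel₀ (div_ne_zero (Nat.cast_ne_zero.2 (Module.finrank_pos (R := F) (M := K)).ne')
    (h1 l hl)) ?_
  rw [mul_zero, ← e1, mul_sum]
  exact sum_congr rfl fun k _ => by rw [zsmul_eq_mul]; ring

end Pool.Agent.Lib.MP_4ffbf9_nt.MA
end

-- part Pool.Agent.Lib.MP_4ffbf9_nt.MA.Den
section

/-! Denominators and conjugates. -/

set_option autoImplicit false

namespace Pool.Agent.Lib.MP_4ffbf9_nt.MA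

open Finset Polynomial

namespace Dn

variable {F : IntermediateField ℚ ℂ} {ι : Type} [Fintype ι] {dn : ι → ℕ} {ℓ : ι → ℂ} {a : ι → ℝ}

theorem mult (ℓ : ι → ℂ) (x : ι → ℚ) : ∃ (k : ℕ) (n : ι → ℤ), 0 < k ∧
    (∀ i, (n i : ℝ) = k * x i) ∧
      ∏ i, Complex.exp (ℓ i) ^ n i = Complex.exp (lin ℓ x) ^ k := by
  choose c hc using fun i => dvd_prod_of_mem (fun i => (x i).den) (mem_univ i)
  have e : ∀ i, ((c i * (x i).num : ℤ) : ℚ) = (∏ i, (x i).den : ℕ) * x i := fun i => by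
    rw [hc i]
    push_cast
    rw [mul_right_comm, Rat.den_mul_eq_num, mul_comm]
  refine ⟨∏ i, (x i).den, fun i => c i * (x i).num, prod_pos fun i _ => (x i).den_pos,
    fun i => by exact_mod_cast e i, ?_⟩
  rw [← exp_lin_int, ← Complex.exp_nat_mul, ← Rat.cast_natCast, ← lin_smul]
  exact congrArg (fun y => Complex.exp (lin ℓ y)) (funext e)

omit [Fintype ι] in
theorem int (h : Num0 F dn ℓ a) (i : ι) {n : ℤ} {E : ℕ} (hE : |n| ≤ E) :
    IsIntegral ℤ ((dn i : ℂ) ^ E * Complex.exp (ℓ i) ^ n) := by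
  have h0 : IsIntegral ℤ (dn i : ℂ) := by
    simpa using isIntegral_algebraMap (R := ℤ) (A := ℂ) (x := dn i)
  obtain ⟨m, rfl | rfl⟩ := n.eq_nat_or_neg
  · obtain ⟨j, rfl⟩ := Nat.exists_eq_add_of_le (show m ≤ E by simpa using hE)
    rw [zpow_natCast, pow_add, mul_right_comm, ← mul_pow]
    exact ((h.int1 i).pow m).mul (h0.pow j)
  · obtain ⟨j, rfl⟩ := Nat.exists_eq_add_of_le (show m ≤ E by simpa using hE)
    rw [zpow_neg, zpow_natCast, ← inv_pow, ← Complex.exp_neg, pow_add, mul_right_comm, ← mul_pow]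
    exact ((h.int2 i).pow m).mul (h0.pow j)

theorem conj (h : Num0 F dn ℓ a) {x : ι → ℚ} {r : ℝ} (hr : ∑ i, |(x i : ℝ)| * a i ≤ r)
    (σ : F →+* ℂ) (η : F) (e : (η : ℂ) = Complex.exp (lin ℓ x)) : ‖σ η‖ ≤ Real.exp r := by
  obtain ⟨k, n, k0, hn, e1⟩ := mult ℓ x
  have e2 : η ^ k = ∏ i, (⟨_, h.mem i⟩ : F) ^ n i := F.subtype.injective (by
    rw [map_pow, map_prod]
    simp only [map_zpow₀]
    exact (congrArg (· ^ k) e).trans e1.symm)
  refine le_of_pow_le_pow_left₀ k0.ne' (Real.exp_pos _).le ?_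
  rw [← norm_pow, ← map_pow, e2, map_prod, norm_prod, ← Real.exp_nat_mul]
  refine (prod_le_prod (g := fun i => Real.exp (k * (|(x i : ℝ)| * a i)))
    (fun _ _ => norm_nonneg _) fun i _ => ?_).trans ?_
  · have p : 0 < ‖σ ⟨_, h.mem i⟩‖ := norm_pos_iff.2 ((map_ne_zero σ).2 fun e =>
      Complex.exp_ne_zero _ (congrArg Subtype.val e))
    rw [map_zpow₀, norm_zpow, ← Real.exp_log p, ← Real.rpow_intCast, ← Real.exp_mul]
    refine Real.exp_le_exp.2 ((le_abs_self _).trans ?_)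
    rw [abs_mul, hn, abs_mul, Nat.abs_cast, mul_comm, mul_assoc]
    gcongr
    exact h.conj i σ _ rfl
  · rw [← Real.exp_sum, ← mul_sum]
    gcongr

end Dn

theorem stDen : StDen := by
  refine fun F ι _ dn ℓ a x E r h hx hE hr => ⟨⟨(∏ i, (dn i : F) ^ E i) * ⟨_, hx⟩, by simp, ?_,
    fun σ => ?_⟩, Dn.conj h hr⟩
  · obtain ⟨k, n, k0, hn, e⟩ := Dn.mult ℓ x
    refine IsIntegral.of_pow k0 ?_
    rw [mul_pow, ← e, ← prod_pow, ← prod_mul_distrib]
    refine IsIntegral.prod _ fun i _ => ?_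
    rw [← pow_mul]
    refine Dn.int h i ?_
    have : |(n i : ℝ)| ≤ E i * k := by
      rw [hn, abs_mul, Nat.abs_cast, mul_comm]
      gcongr
      exact hE i
    exact_mod_cast this
  · rw [map_mul, norm_mul]
    exact mul_le_mul (by simp) (Dn.conj h hr σ _ rfl) (norm_nonneg _) (by positivity)

end Pool.Agent.Lib.MP_4ffbf9_nt.MA
end

-- part Pool.Agent.Lib.MP_4ffbf9_nt.MA.Gap
section

/-! The gap. -/

set_option autoImplicit false

namespace Pool.Agent.Lib.MP_4ffbf9_nt.MA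

open Finset Polynomial

namespace Gap

open NumberField IsDedekindDomain

/-- a finite set holding all algebraic integers of degree at most `d` with small conjugates -/
theorem exists_finset (d : ℕ) : ∃ T : Finset ℂ, ∀ F : IntermediateField ℚ ℂ, Fld F d →
    ∀ η : F, IsIntegral ℤ η → (∀ σ : F →+* ℂ, ‖σ η‖ ≤ 3) → (η : ℂ) ∈ T := by
  classical
  let C := Nat.ceil (max (3 : ℝ) 1 ^ d * d.choose (d / 2))
  have hT := bUnion_roots_finite (algebraMap ℤ ℂ) d (Set.finite_Icc (-C : ℤ) C)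
  refine ⟨hT.toFinset, fun F hF η hη hσ => ?_⟩
  have := hF.numberField
  rw [Set.Finite.mem_toFinset]
  simp_rw [Set.mem_iUnion]
  have hmap := minpoly.isIntegrallyClosed_eq_field_fractions' ℚ hη
  have hx := Algebra.IsSeparable.isIntegral ℚ η
  have hdeg : (minpoly ℚ η).natDegree ≤ d := (minpoly.natDegree_le η).trans hF.deg
  refine ⟨minpoly ℤ η, ⟨?_, fun i => ?_⟩, mem_rootSet.2 ⟨minpoly.ne_zero hη, ?_⟩⟩
  · rw [← (minpoly.monic hη).natDegree_map (algebraMap ℤ ℚ), ← hmap]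
    exact hdeg
  · rw [Set.mem_Icc, ← abs_le, ← @Int.cast_le ℝ]
    have h1 : ‖(minpoly ℚ η).coeff i‖ ≤ max (3 : ℝ) 1 ^ d * d.choose (d / 2) := by
      rw [← norm_algebraMap' ℂ, ← coeff_map (algebraMap ℚ ℂ)]
      refine coeff_bdd_of_roots_le _ (minpoly.monic hx) (IsAlgClosed.splits _) hdeg
        (fun z hz => ?_) i
      rw [← Multiset.mem_toFinset] at hz
      obtain ⟨φ, rfl⟩ := (Embeddings.range_eval_eq_rootSet_minpoly F ℂ η).symm.subset hz
      exact hσ φ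
    refine (Eq.trans_le ?_ h1).trans (Nat.le_ceil _)
    rw [hmap, coeff_map, eq_intCast, Int.norm_cast_rat, Int.norm_eq_abs, Int.cast_abs]
  · have := congrArg F.subtype (minpoly.aeval ℤ η)
    rw [map_zero] at this
    rw [← this]
    exact (aeval_algHom_apply F.subtype.toIntAlgHom η _)

/-- a power with a small denominator forces integrality -/
theorem integral_of_pow {K : Type} [Field K] [NumberField K] {d n M : ℕ}
    (hd : Module.finrank ℚ K ≤ d) (hM : 0 < M) (hlt : M ^ d < 2 ^ n) {η : K}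
    (h : IsIntegral ℤ ((M : K) * η ^ n)) : IsIntegral ℤ η := by
  have key : ∀ v : HeightOneSpectrum (RingOfIntegers K), v.valuation K η ≤ 1 := fun v => by
    by_contra hv
    rw [not_le] at hv
    have h0 : v.valuation K η ≠ 0 := (zero_lt_one.trans hv).ne'
    have h1 : WithZero.exp (1 : ℤ) ≤ v.valuation K η := by
      rw [← WithZero.exp_log h0, ← WithZero.exp_zero, WithZero.exp_lt_exp] at hv
      rw [← WithZero.exp_log h0, WithZero.exp_le_exp]
      omega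
    have h2 : v.valuation K ((M : K) * η ^ n) ≤ 1 := v.valuation_le_one (K := K) ⟨_, h⟩
    have h3 : v.valuation K (M : K) = v.intValuation (M : RingOfIntegers K) := by
      rw [← v.valuation_of_algebraMap (K := K)]; simp
    rw [map_mul, map_pow, h3] at h2
    have h4 : v.intValuation (M : RingOfIntegers K) ≤ WithZero.exp (-(n : ℤ)) := by
      have h5 : WithZero.exp (n : ℤ) ≤ v.valuation K η ^ n := by
        have := pow_le_pow_left₀ (zero_le (a := WithZero.exp (1 : ℤ))) h1 n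
        rwa [← WithZero.exp_nsmul, nsmul_one] at this
      have h6 : v.intValuation (M : RingOfIntegers K) * WithZero.exp (n : ℤ) ≤ 1 :=
        (mul_le_mul_right h5 _).trans h2
      rw [WithZero.exp_neg, ← one_mul (_⁻¹), le_mul_inv_iff₀ WithZero.exp_pos]
      exact h6
    rw [v.intValuation_le_pow_iff_mem, ← Ideal.span_singleton_le_iff_mem] at h4
    have h7 := Ideal.absNorm_dvd_absNorm_of_le h4
    rw [map_pow, Ideal.absNorm_span_natCast, RingOfIntegers.rank] at h7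
    have h8 : 2 ≤ Ideal.absNorm v.asIdeal := HeightOneSpectrum.one_lt_absNorm v
    have h9 := Nat.le_of_dvd (by positivity) h7
    have h10 := Nat.pow_le_pow_left h8 n
    have h11 := Nat.pow_le_pow_right hM hd
    omega
  obtain ⟨z, rfl⟩ := HeightOneSpectrum.mem_integers_of_valuation_le_one K η key
  exact z.2

/-- a point of the lattice with a small weighted size gives an algebraic integer -/
theorem integral (hD : StDen) {F : IntermediateField ℚ ℂ} {ι : Type} [Fintype ι] {d : ℕ}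
    {dn : ι → ℕ} {ℓ : ι → ℂ} {a : ι → ℝ} {x : ι → ℚ} (hF : Fld F d) (h : Num0 F dn ℓ a)
    (hx : InG F ℓ x) (hρ : d * ∑ i, |(x i : ℝ)| * a i < Real.log 2) :
    IsIntegral ℤ (⟨_, hx⟩ : F) := by
  have := hF.numberField
  set ρ := ∑ i, |(x i : ℝ)| * a i with hρ0
  set n := ∏ i, (x i).den with hn
  have hn0 : 0 < n := prod_pos fun i _ => (x i).den_pos
  have hz : ∀ i, ∃ E : ℕ, |((((n : ℤ) : ℚ) • x) i : ℝ)| = E := fun i => by
    obtain ⟨c, hc⟩ : (x i).den ∣ n := dvd_prod_of_mem _ (mem_univ i)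
    refine ⟨c * (x i).num.natAbs, ?_⟩
    have h1 : (((n : ℤ) : ℚ) • x) i = c * (x i).num := by
      rw [Pi.smul_apply, smul_eq_mul, hc, ← Rat.mul_den_eq_num]; push_cast; ring
    rw [h1]
    push_cast
    rw [abs_mul, Nat.abs_cast, Nat.cast_natAbs, Int.cast_abs]
  choose E hE using hz
  have hs : ∑ i, |((((n : ℤ) : ℚ) • x) i : ℝ)| * a i = n * ρ := by
    rw [hρ0, mul_sum]
    refine sum_congr rfl fun i _ => ?_
    rw [Pi.smul_apply, smul_eq_mul]
    push_cast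
    rw [abs_mul, Nat.abs_cast, mul_assoc]
  obtain ⟨-, -, h1, -⟩ := (hD F ι dn ℓ a _ E _ h (hx.zsmul n) (fun i => (hE i).le) hs.le).1
  have hM : ((∏ i, dn i ^ E i : ℕ) : ℝ) ≤ Real.exp (n * ρ) := by
    rw [← hs, Real.exp_sum, Nat.cast_prod]
    refine prod_le_prod (fun i _ => Nat.cast_nonneg _) fun i _ => ?_
    rw [hE, Real.exp_nat_mul, Nat.cast_pow]
    exact pow_le_pow_left₀ (Nat.cast_nonneg _)
      ((Real.log_le_iff_le_exp (Nat.cast_pos.2 (h.hd i))).1 (h.ha i)) _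
  refine integral_of_pow (n := n) (M := ∏ i, dn i ^ E i) hF.deg
    (prod_pos fun i _ => pow_pos (h.hd i) _) ?_ ?_
  · rw [← @Nat.cast_lt ℝ, Nat.cast_pow, Nat.cast_pow, Nat.cast_ofNat]
    refine (pow_le_pow_left₀ (Nat.cast_nonneg _) hM d).trans_lt ?_
    rw [← Real.exp_nat_mul, ← Real.exp_log two_pos, ← Real.exp_nat_mul, Real.exp_lt_exp,
      mul_left_comm]
    exact mul_lt_mul_of_pos_left hρ (Nat.cast_pos.2 hn0)
  · rw [← isIntegral_algebraMap_iff (B := ℂ) (algebraMap F ℂ).injective]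
    rw [lin_smul, Rat.cast_intCast, Int.cast_natCast, Complex.exp_nat_mul] at h1
    simpa using h1

end Gap

theorem stGap (hD : StDen) : StGap := by
  intro d
  obtain ⟨T, hT⟩ := Gap.exists_finset d
  have hl := Real.log_pos one_lt_two
  refine ⟨min (Real.log 2 / (d + 1)) (1 / (T.card + 1)), by positivity, ?_⟩
  intro F ι _ dn ℓ a x hF h hx h0
  by_contra hlt
  rw [not_le, lt_min_iff, lt_div_iff₀ (by positivity), lt_div_iff₀ (by positivity)] at hlt
  obtain ⟨h1, h2⟩ := hlt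
  have hρ : 0 ≤ ∑ i, |(x i : ℝ)| * a i :=
    sum_nonneg fun i _ => mul_nonneg (abs_nonneg _) (h.pos i).le
  have hint := Gap.integral hD hF h hx (by nlinarith)
  have hconj := (hD F ι dn ℓ a x (fun i => ⌈|(x i : ℝ)|⌉₊) _ h hx (fun i => Nat.le_ceil _)
    le_rfl).2
  have hnorm : ‖lin ℓ x‖ ≤ ∑ i, |(x i : ℝ)| * a i := by
    refine (norm_sum_le _ _).trans (sum_le_sum fun i _ => ?_)
    rw [norm_mul, Complex.norm_ratCast]
    exact mul_le_mul_of_nonneg_left (h.norm_le i) (abs_nonneg _)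
  set ρ := ∑ i, |(x i : ℝ)| * a i
  have hk : ∀ k ∈ range (T.card + 1), (k : ℝ) * ρ < 1 := fun k hk => by
    have : (k : ℝ) ≤ T.card + 1 := by exact_mod_cast (mem_range.1 hk).le
    nlinarith
  have hmem : ∀ k ∈ range (T.card + 1), Complex.exp (k * lin ℓ x) ∈ T := fun k hk' => by
    rw [Complex.exp_nat_mul]
    refine hT F hF (⟨_, hx⟩ ^ k) (hint.pow k) fun σ => ?_
    rw [map_pow, norm_pow]
    refine (pow_le_pow_left₀ (norm_nonneg _) (hconj σ _ rfl) k).trans ?_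
    rw [← Real.exp_nat_mul]
    exact (Real.exp_le_exp.2 (hk k hk').le).trans Real.exp_one_lt_three.le
  obtain ⟨j, hj, k, hk', hne, he⟩ := exists_ne_map_eq_of_card_lt_of_maps_to
    (by rw [card_range]; exact Nat.lt_succ_self _) hmem
  obtain ⟨s, hs⟩ := Complex.exp_eq_exp_iff_exists_int.1 he
  have h3 : ((j : ℂ) - k) * lin ℓ x = s * (2 * Real.pi * Complex.I) := by linear_combination hs
  have hs0 : s ≠ 0 := by
    rintro rfl
    rw [Int.cast_zero, zero_mul, mul_eq_zero, sub_eq_zero, Nat.cast_inj] at h3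
    exact h3.elim hne h0
  have h4 : ‖((j : ℂ) - k) * lin ℓ x‖ ≤ 2 := by
    rw [norm_mul]
    refine (mul_le_mul (norm_sub_le _ _) hnorm (norm_nonneg _) (by positivity)).trans ?_
    rw [Complex.norm_natCast, Complex.norm_natCast, add_mul]
    linarith [hk j hj, hk k hk']
  have h5 : (1 : ℝ) ≤ |(s : ℝ)| := by exact_mod_cast Int.one_le_abs hs0
  rw [h3, norm_mul, Complex.norm_intCast, norm_mul, norm_mul, Complex.norm_I, Complex.norm_real,
    Real.norm_of_nonneg Real.pi_pos.le, Complex.norm_ofNat] at h4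
  nlinarith [Real.pi_gt_three]

end Pool.Agent.Lib.MP_4ffbf9_nt.MA
end

-- part Pool.Agent.Lib.MP_4ffbf9_nt.MA.Cls
section

/-! Classes modulo the doubles. -/

set_option autoImplicit false

namespace Pool.Agent.Lib.MP_4ffbf9_nt.MA

open Finset Polynomial

theorem stCls : StCls := by
  intro F ι _ m N ℓ hm hN hD
  let G : Submodule ℤ (ι → ℚ) :=
    { carrier := {x | InG F ℓ x}
      add_mem' := InG.add
      zero_mem' := InG.zero F ℓ
      smul_mem' := fun n x hx => by simpa [Int.cast_smul_eq_zsmul] using InG.zsmul hx n }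
  let φ : (ι → ℤ) →ₗ[ℤ] ι → ℚ := (LinearMap.toSpanSingleton ℤ ℚ (N : ℚ)⁻¹).compLeft ι
  have h0 : (N : ℚ) ≠ 0 := Nat.cast_ne_zero.2 (by omega)
  have h1 : G ≤ LinearMap.range φ := fun x hx => by
    choose z hz using hD x hx
    exact ⟨z, funext fun i => by simp [φ, ← hz, mul_comm (N : ℚ), h0]⟩
  have : Module.Finite ℤ G := .of_injective _ (Submodule.inclusion_injective h1)
  let b := Module.finBasis ℤ G
  have h2 : Module.finrank ℤ G ≤ m := by
    have h := ((LinearIndependent.iff_fractionRing ℤ ℚ).1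
      (b.linearIndependent.map' G.subtype G.ker_subtype)).fintype_card_le_finrank
    rw [Fintype.card_fin, Module.finrank_fintype_fun_eq_card] at h
    exact h.trans hm
  obtain ⟨e⟩ : Nonempty ((Fin (Module.finrank ℤ G) → ZMod 2) ↪ Fin (2 ^ m)) :=
    Function.Embedding.nonempty_of_card_le (by simpa using Nat.pow_le_pow_right two_pos h2)
  classical
  refine ⟨fun x => e fun i => if h : x ∈ G then b.repr ⟨x, h⟩ i else 0, fun x x' hx hx' h => ?_⟩
  have h3 : ∀ i, ∃ k : ℤ, b.repr ⟨x, hx⟩ i - b.repr ⟨x', hx'⟩ i = 2 * k := fun i => by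
    have h4 := congrFun (e.injective h) i
    rw [dif_pos (show x ∈ G from hx), dif_pos (show x' ∈ G from hx')] at h4
    exact (ZMod.intCast_eq_intCast_iff_dvd_sub _ _ 2).1 h4.symm
  choose k hk using h3
  have h5 : (⟨x, hx⟩ : G) - ⟨x', hx'⟩ = (2 : ℤ) • b.equivFun.symm k := b.equivFun.injective (by
    rw [map_sub, map_zsmul, LinearEquiv.apply_symm_apply]
    exact funext hk)
  convert (show InG F ℓ _ from (b.equivFun.symm k).2) with i
  have h6 := congrFun (congrArg Subtype.val h5) i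
  simp only [Submodule.coe_sub, Submodule.coe_smul, Pi.sub_apply, Pi.smul_apply] at h6
  rw [h6, zsmul_eq_mul, Int.cast_ofNat, mul_div_cancel_left₀ _ two_ne_zero]

end Pool.Agent.Lib.MP_4ffbf9_nt.MA
end

-- part Pool.Agent.Lib.MP_4ffbf9_nt.MA.Van
section

/-! Vanishing against polynomials. -/

set_option autoImplicit false

namespace Pool.Agent.Lib.MP_4ffbf9_nt.MA

open Finset Polynomial

theorem Van.span (D : ℕ) (f : ℂ[X]) (h : f.natDegree ≤ D) :
    ∃ a : ℕ → ℂ, ∀ z, f.eval z = ∑ d ∈ range (D + 1), a d * bin z d := by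
  induction D generalizing f with
  | zero =>
    refine ⟨fun _ => f.coeff 0, fun z => ?_⟩
    conv_lhs => rw [eq_C_of_natDegree_le_zero h]
    simp [bin_zero]
  | succ D ih =>
    have c0 : (binP (D + 1)).coeff (D + 1) ≠ 0 := coeff_ne_zero_of_eq_degree (degree_binP _)
    obtain ⟨a, ha⟩ := ih (f - C (f.coeff (D + 1) / (binP (D + 1)).coeff (D + 1)) * binP (D + 1))
      (natDegree_le_iff_coeff_eq_zero.2 fun n hn => by
        rw [coeff_sub, coeff_C_mul]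
        rcases (Nat.succ_le_of_lt hn).eq_or_lt with rfl | k
        · rw [div_mul_cancel₀ _ c0, sub_self]
        · rw [coeff_eq_zero_of_natDegree_lt (h.trans_lt k),
            coeff_eq_zero_of_natDegree_lt ((natDegree_binP _).trans_lt k), mul_zero, sub_zero])
    refine ⟨Function.update a (D + 1) (f.coeff (D + 1) / (binP (D + 1)).coeff (D + 1)), fun z => ?_⟩
    rw [sum_range_succ, Function.update_self, sum_congr rfl fun d hd => by
      rw [Function.update_of_ne (mem_range.1 hd).ne], ← ha, eval_sub, eval_mul, eval_C, eval_binP,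
      sub_add_cancel]

theorem stVan : StVan := by
  classical
  refine fun ι κ _ P c y D => ⟨fun h f hf => ?_, fun h r s o f hf => ?_⟩
  · choose a ha using fun i => Van.span (D i) (f i) (hf i)
    simp only [ha, prod_univ_sum, mul_sum, prod_mul_distrib]
    rw [sum_comm]
    refine sum_eq_zero fun d hd => ?_
    simp only [mul_left_comm (c _), ← mul_sum]
    rw [h d fun i => Nat.le_of_lt_succ (mem_range.1 (Fintype.mem_piFinset.1 hd i)), mul_zero]
  · have := h (fun i => (f i).comp (C s * X + C (o i))) fun i => natDegree_comp_le.trans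
      ((Nat.mul_le_mul_left _ natDegree_linear_le).trans (by simpa using hf i))
    simp only [eval_comp, eval_add, eval_mul, eval_C, eval_X] at this
    simp only [mul_assoc, ← mul_sum, this, mul_zero]

end Pool.Agent.Lib.MP_4ffbf9_nt.MA
end
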