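import Mathlib
import Pool.Agent.Lib.MP_4ffbf9_nt.MA.Van

-- part Pool.Agent.Lib.MP_4ffbf9_nt.MB.Defs
section

/-!
Linear forms in logarithms of rational numbers, some of which are very close to `1`:
definitions, small facts and the statements of the parts of the proof.
-/

set_option autoImplicit false

namespace Pool.Agent.Lib.MP_4ffbf9_nt.MB

open Finset Polynomial

/-- the binomial coefficient as a function of a real number -/
noncomputable def bin (z : ℝ) (d : ℕ) : ℝ := (∏ j ∈ range d, (z - j)) / d.factorial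

/-- the binomial polynomial -/
noncomputable def binP (d : ℕ) : ℝ[X] :=
  C ((d.factorial : ℝ)⁻¹) * ∏ j ∈ range d, (X - C (j : ℝ))

theorem eval_binP (z : ℝ) (d : ℕ) : (binP d).eval z = bin z d := by
  simp [binP, bin, eval_prod, div_eq_inv_mul]

theorem degree_binP (d : ℕ) : (binP d).degree = d := by
  rw [binP, degree_C_mul (inv_ne_zero (by positivity)), degree_prod]
  simp only [degree_X_sub_C, sum_const, card_range, nsmul_one]

theorem natDegree_binP (d : ℕ) : (binP d).natDegree = d :=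
  natDegree_eq_of_degree_eq_some (degree_binP d)

theorem bin_zero (z : ℝ) : bin z 0 = 1 := by simp [bin]

theorem bin_int (z : ℤ) (τ : ℕ) : ∃ n : ℤ, bin z τ = n := by
  obtain ⟨n, h⟩ := Nat.factorial_coe_dvd_prod τ (-z)
  refine ⟨(-1) ^ τ * n, ?_⟩
  have h1 : ∏ j ∈ range τ, ((z : ℝ) - j) = (-1) ^ τ * ∏ j ∈ range τ, (-(z : ℝ) + j) := by
    rw [← card_range τ, ← prod_const, card_range, ← prod_mul_distrib]
    exact prod_congr rfl fun _ _ => by ring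
  have h2 : ∏ j ∈ range τ, (-(z : ℝ) + j) = τ.factorial * n := by exact_mod_cast h
  rw [bin, h1, h2]
  push_cast
  field_simp

theorem bin_size (z β : ℝ) (τ T : ℕ) (hτ : τ ≤ T) (hβ : 0 ≤ β)
    (h : |z| + T ≤ Real.exp β * T) : |bin z τ| ≤ Real.exp ((β + 1) * T) := by
  have h1 : |∏ j ∈ range τ, (z - j)| ≤ (Real.exp β * T) ^ τ := by
    rw [abs_prod, ← card_range τ, ← prod_const, card_range]
    refine prod_le_prod (fun _ _ => abs_nonneg _) fun j hj => ((abs_sub _ _).trans ?_).trans h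
    rw [Nat.abs_cast]
    exact add_le_add le_rfl (Nat.cast_le.2 ((mem_range.1 hj).le.trans hτ))
  rw [bin, abs_div, Nat.abs_cast, add_one_mul, Real.exp_add]
  refine (div_le_div_of_nonneg_right h1 (Nat.cast_nonneg _)).trans ?_
  rw [mul_pow, mul_div_assoc, ← Real.exp_nat_mul, mul_comm (τ : ℝ)]
  exact mul_le_mul (Real.exp_le_exp.2 (mul_le_mul_of_nonneg_left (Nat.cast_le.2 hτ) hβ))
    (Real.pow_div_factorial_le_exp _ (Nat.cast_nonneg _) _) (by positivity) (by positivity)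

section
variable {ι κ : Type} [Fintype ι]

/-- the linear form in the logarithms -/
noncomputable def lin (ℓ : ι → ℝ) (x : ι → ℚ) : ℝ := ∑ i, (x i : ℝ) * ℓ i

/-- the saturated lattice: rational exponent vectors with a rational value -/
def InG (ℓ : ι → ℝ) (x : ι → ℚ) : Prop := ∃ q : ℚ, Real.exp (lin ℓ x) = q

/-- `ℓ i` is the logarithm of `u i / v i` and `a i` bounds its height -/
structure Num (u v : ι → ℕ) (ℓ a : ι → ℝ) : Prop where
  hu : ∀ i, 0 < u i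
  hv : ∀ i, 0 < v i
  hl : ∀ i, ℓ i = Real.log ((u i : ℝ) / v i)
  ha : ∀ i, Real.log ((u i : ℝ) * v i) ≤ a i
  one : ∀ i, 1 ≤ a i

/-- linear independence over the rationals -/
def Ind (ℓ : ι → ℝ) : Prop := ∀ x : ι → ℚ, lin ℓ x = 0 → x = 0

/-- `N` is a common denominator for the saturated lattice -/
def Den (N : ℕ) (ℓ : ι → ℝ) : Prop := ∀ x, InG ℓ x → ∀ i, ∃ z : ℤ, (N : ℚ) * x i = z

/-- vanishing against all products of polynomials of bounded degrees -/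
def Van (P : Finset κ) (c : κ → ℝ) (y : κ → ι → ℝ) (D : ι → ℕ) : Prop :=
  ∀ f : ι → ℝ[X], (∀ i, (f i).natDegree ≤ D i) → ∑ k ∈ P, c k * ∏ i, (f i).eval (y k i) = 0

/-- the coordinates after the elimination of the index `e` -/
noncomputable def yy (N : ℕ) (β : ι → ℚ) (e : ι) (x : ι → ℚ) (i : ι) : ℝ :=
  (N : ℝ) ^ 2 * ((β e : ℝ) * x i - (β i : ℝ) * x e)

/-- lattice points in a box of weighted size `x` -/
structure Pts (ℓ a : ι → ℝ) (x : ℝ) (P : Finset κ) (lam : κ → ι → ℚ) : Prop where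
  mem : ∀ k ∈ P, InG ℓ (lam k)
  inj : ∀ k ∈ P, ∀ k' ∈ P, lam k = lam k' → k = k'
  box : ∀ k ∈ P, ∀ i, |(lam k i : ℝ)| * a i ≤ x
  diam : ∀ k ∈ P, ∀ k' ∈ P, ∀ i, |(lam k i : ℝ) - lam k' i| * a i ≤ x

/-- the fixed data of the construction -/
structure Ctx (m N : ℕ) (u v : ι → ℕ) (ℓ a : ι → ℝ) (β : ι → ℚ) (e : ι) : Prop where
  card : Fintype.card ι ≤ m
  num : Num u v ℓ a
  one : 1 ≤ N
  den : Den N ℓ
  mem : InG ℓ β
  ne : β e ≠ 0

/-- vanishing at the odd integers below `2 * S` -/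
def VanS (ℓ : ι → ℝ) (N : ℕ) (β : ι → ℚ) (e : ι) (P : Finset κ) (lam : κ → ι → ℚ) (p : κ → ℤ)
    (S : ℕ) (D : ι → ℕ) : Prop :=
  ∀ j < S, Van P (fun k => (p k : ℝ) * Real.exp ((2 * j + 1) * lin ℓ (lam k)))
    (fun k => yy N β e (lam k)) D

/-- the constant of the extrapolation -/
def cc (m : ℕ) : ℕ := 2 ^ 2 ^ m * (10 * m + 6) + m ^ 2 + 16 * m + 7

/-- the degrees at the level `x` when `n` steps remain for the small logarithms -/
noncomputable def Dg [DecidableEq ι] (c x : ℝ) (n : ℕ) (τ : ι → ℕ) (Nn : Finset ι) (e i : ι) : ℕ :=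
  if i = e then 0 else if i ∈ Nn then min (n * τ i) ⌊4 * c * x⌋₊ else ⌊4 * c * x⌋₊

theorem lin_zero (ℓ : ι → ℝ) : lin ℓ 0 = 0 := by simp [lin]

theorem lin_add (ℓ : ι → ℝ) (x y : ι → ℚ) : lin ℓ (x + y) = lin ℓ x + lin ℓ y := by
  simp [lin, add_mul, sum_add_distrib]

theorem lin_sub (ℓ : ι → ℝ) (x y : ι → ℚ) : lin ℓ (x - y) = lin ℓ x - lin ℓ y := by
  simp [lin, sub_mul, sum_sub_distrib]

theorem lin_neg (ℓ : ι → ℝ) (x : ι → ℚ) : lin ℓ (-x) = -lin ℓ x := by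
  simp [lin]

theorem lin_smul (ℓ : ι → ℝ) (r : ℚ) (x : ι → ℚ) : lin ℓ (r • x) = r * lin ℓ x := by
  simp [lin, mul_sum, mul_assoc]

theorem lin_half (ℓ : ι → ℝ) (x y : ι → ℚ) :
    lin ℓ (fun i => (x i - y i) / 2) = (lin ℓ x - lin ℓ y) / 2 := by
  rw [← lin_sub, lin, lin, sum_div]
  exact sum_congr rfl fun i _ => by simp only [Pi.sub_apply]; push_cast; ring

theorem InG.zero (ℓ : ι → ℝ) : InG ℓ 0 := ⟨1, by simp [lin_zero]⟩

theorem InG.add {ℓ : ι → ℝ} {x y : ι → ℚ} (hx : InG ℓ x) (hy : InG ℓ y) : InG ℓ (x + y) := by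
  obtain ⟨q, hq⟩ := hx
  obtain ⟨r, hr⟩ := hy
  exact ⟨q * r, by rw [lin_add, Real.exp_add, hq, hr, Rat.cast_mul]⟩

theorem InG.neg {ℓ : ι → ℝ} {x : ι → ℚ} (hx : InG ℓ x) : InG ℓ (-x) := by
  obtain ⟨q, hq⟩ := hx
  exact ⟨q⁻¹, by rw [lin_neg, Real.exp_neg, hq, Rat.cast_inv]⟩

theorem InG.sub {ℓ : ι → ℝ} {x y : ι → ℚ} (hx : InG ℓ x) (hy : InG ℓ y) : InG ℓ (x - y) := by
  rw [sub_eq_add_neg]; exact hx.add hy.neg

theorem InG.zsmul {ℓ : ι → ℝ} {x : ι → ℚ} (hx : InG ℓ x) (n : ℤ) : InG ℓ ((n : ℚ) • x) := by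
  obtain ⟨q, hq⟩ := hx
  refine ⟨q ^ n, ?_⟩
  rw [lin_smul, Rat.cast_zpow, ← hq, Rat.cast_intCast, ← Real.rpow_intCast, ← Real.exp_mul,
    mul_comm]

theorem Num.exp_lin_int {u v : ι → ℕ} {ℓ a : ι → ℝ} (h : Num u v ℓ a) (n : ι → ℤ) :
    Real.exp (lin ℓ fun i => (n i : ℚ)) = ∏ i, ((u i : ℝ) / v i) ^ n i := by
  rw [lin, Real.exp_sum]
  refine prod_congr rfl fun i _ => ?_
  have h0 : (0 : ℝ) < (u i : ℝ) / v i :=
    div_pos (Nat.cast_pos.2 (h.hu i)) (Nat.cast_pos.2 (h.hv i))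
  rw [h.hl, Rat.cast_intCast, ← Real.log_zpow, Real.exp_log (zpow_pos h0 _)]

theorem Num.inG_int {u v : ι → ℕ} {ℓ a : ι → ℝ} (h : Num u v ℓ a) (n : ι → ℤ) :
    InG ℓ fun i => (n i : ℚ) :=
  ⟨∏ i, ((u i : ℚ) / v i) ^ n i, by rw [h.exp_lin_int]; push_cast; rfl⟩

omit [Fintype ι] in
theorem Num.pos {u v : ι → ℕ} {ℓ a : ι → ℝ} (h : Num u v ℓ a) (i : ι) : 0 < a i :=
  one_pos.trans_le (h.one i)

omit [Fintype ι] in
theorem Num.abs_le {u v : ι → ℕ} {ℓ a : ι → ℝ} (h : Num u v ℓ a) (i : ι) : |ℓ i| ≤ a i := by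
  have hu : (1 : ℝ) ≤ u i := Nat.one_le_cast.2 (h.hu i)
  have hv : (1 : ℝ) ≤ v i := Nat.one_le_cast.2 (h.hv i)
  have h1 := h.ha i
  rw [Real.log_mul (by linarith) (by linarith)] at h1
  rw [h.hl, Real.log_div (by linarith) (by linarith), _root_.abs_le]
  constructor <;> linarith [Real.log_nonneg hu, Real.log_nonneg hv]

/-- the size of the linear form at a point of the box -/
theorem Num.abs_lin_le {u v : ι → ℕ} {ℓ a : ι → ℝ} (h : Num u v ℓ a) {m : ℕ}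
    (hm : Fintype.card ι ≤ m) {x : ι → ℚ} {r : ℝ} (hr : 0 ≤ r)
    (hx : ∀ i, |(x i : ℝ)| * a i ≤ r) : |lin ℓ x| ≤ m * r := by
  refine (abs_sum_le_sum_abs _ _).trans ((sum_le_card_nsmul _ _ r fun i _ => ?_).trans ?_)
  · rw [abs_mul]
    exact (mul_le_mul_of_nonneg_left (h.abs_le i) (abs_nonneg _)).trans (hx i)
  · rw [nsmul_eq_mul, card_univ]
    exact mul_le_mul_of_nonneg_right (Nat.cast_le.2 hm) hr

/-- the size of the common denominator -/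
theorem Num.prod_le {u v : ι → ℕ} {ℓ a : ι → ℝ} (h : Num u v ℓ a) {m : ℕ}
    (hm : Fintype.card ι ≤ m) {g : ℝ} (hg : 0 ≤ g) (ha : ∀ i, a i ≤ g) :
    ∏ i, ((u i : ℝ) * v i) ^ ⌈2 * g / a i⌉₊ ≤ Real.exp (3 * m * g) := by
  have h1 : ∀ i, ((u i : ℝ) * v i) ^ ⌈2 * g / a i⌉₊ ≤ Real.exp (3 * g) := fun i => by
    have h0 : (0 : ℝ) < (u i : ℝ) * v i :=
      mul_pos (Nat.cast_pos.2 (h.hu i)) (Nat.cast_pos.2 (h.hv i))
    have hp := h.pos i
    rw [← Real.exp_log h0, ← Real.exp_nat_mul]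
    refine Real.exp_le_exp.2 ((mul_le_mul_of_nonneg_left (h.ha i) (Nat.cast_nonneg _)).trans ?_)
    have h2 := (Nat.ceil_lt_add_one (show 0 ≤ 2 * g / a i by positivity)).le
    refine (mul_le_mul_of_nonneg_right h2 hp.le).trans ?_
    rw [add_mul, div_mul_cancel₀ _ hp.ne']
    linarith [ha i]
  refine (prod_le_prod (fun i _ => by positivity) fun i _ => h1 i).trans ?_
  rw [prod_const, ← Real.exp_nat_mul, card_univ]
  refine Real.exp_le_exp.2 ?_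
  have : (Fintype.card ι : ℝ) ≤ m := Nat.cast_le.2 hm
  nlinarith

theorem Ctx.yy_int {m N : ℕ} {u v : ι → ℕ} {ℓ a : ι → ℝ} {β : ι → ℚ} {e : ι}
    (h : Ctx m N u v ℓ a β e) {x : ι → ℚ} (hx : InG ℓ x) (i : ι) : ∃ z : ℤ, yy N β e x i = z := by
  obtain ⟨z1, h1⟩ := h.den β h.mem e
  obtain ⟨z2, h2⟩ := h.den β h.mem i
  obtain ⟨z3, h3⟩ := h.den x hx i
  obtain ⟨z4, h4⟩ := h.den x hx e
  refine ⟨z1 * z3 - z2 * z4, ?_⟩
  have : (N : ℚ) ^ 2 * (β e * x i - β i * x e) = z1 * z3 - z2 * z4 := by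
    rw [← h1, ← h2, ← h3, ← h4]; ring
  rw [yy]
  exact_mod_cast this

theorem Ctx.m_pos {m N : ℕ} {u v : ι → ℕ} {ℓ a : ι → ℝ} {β : ι → ℚ} {e : ι}
    (h : Ctx m N u v ℓ a β e) : 1 ≤ m :=
  le_trans (Fintype.card_pos_iff.2 ⟨e⟩) h.card

theorem Pts.mono {ℓ a : ι → ℝ} {x : ℝ} {P P' : Finset κ} {lam : κ → ι → ℚ}
    (h : Pts ℓ a x P lam) (hP : P' ⊆ P) : Pts ℓ a x P' lam :=
  ⟨fun k hk => h.mem k (hP hk), fun k hk k' hk' => h.inj k (hP hk) k' (hP hk'),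
    fun k hk => h.box k (hP hk), fun k hk k' hk' => h.diam k (hP hk) k' (hP hk')⟩

end

/-! ### Statements -/

/-- extrapolation from small derivatives at the odd integers -/
def StInterp : Prop :=
  ∀ (κ : Type) (P : Finset κ) (q w : κ → ℝ) (S t : ℕ) (ω η z : ℝ), 1 ≤ t → 0 ≤ ω → 0 ≤ η →
    (∀ k ∈ P, |w k| ≤ ω) → 0 ≤ z → z ≤ 2 * S →
    (∀ j < S, ∀ r < t,
      |∑ k ∈ P, q k * Real.exp ((2 * j + 1) * w k) * w k ^ r| ≤ η * (4 * t) ^ r) →
    |∑ k ∈ P, q k * Real.exp (z * w k)| ≤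
      η * Real.exp (8 * (S * t)) + (∑ k ∈ P, |q k|) * Real.exp (8 * (S * ω) - S * t)

/-- the inequality of Liouville for sums of square roots, and the splitting into classes -/
def StKL : Prop :=
  ∀ (κ : Type) (P : Finset κ) (n : ℕ) (cl : κ → Fin n) (q : κ → ℤ) (y : κ → ℝ) (H : ℝ),
    (∀ k ∈ P, 0 < y k) → (∀ k ∈ P, ∃ z : ℤ, y k ^ 2 = z) →
    (∀ k ∈ P, ∀ l ∈ P, cl k = cl l → ∃ r : ℚ, y k = r * y l) → 1 ≤ H →
    ∑ k ∈ P, |(q k : ℝ)| * y k ≤ H → |∑ k ∈ P, (q k : ℝ) * y k| * H ^ 2 ^ n < 1 →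
    ∀ l ∈ P, ∀ P' : Finset κ, (∀ k, k ∈ P' ↔ k ∈ P ∧ ∃ r : ℚ, y k = r * y l) →
      ∑ k ∈ P', (q k : ℝ) * y k = 0

/-- denominators, and the gap around the origin of the lattice -/
def StDen : Prop :=
  ∀ (ι : Type) [Fintype ι] (u v : ι → ℕ) (ℓ a : ι → ℝ), Num u v ℓ a →
    (∀ (x : ι → ℚ) (E : ι → ℕ), InG ℓ x → (∀ i, |(x i : ℝ)| ≤ E i) →
      ∃ z : ℤ, (∏ i, ((u i : ℝ) * v i) ^ E i) * Real.exp (lin ℓ x) = z) ∧
    (Ind ℓ → ∀ x : ι → ℚ, InG ℓ x → x ≠ 0 → Real.log 2 ≤ ∑ i, |(x i : ℝ)| * a i)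

/-- the index of the integral points in the lattice, and many points in a box -/
def StLat : Prop :=
  ∀ (ι : Type) [Fintype ι] (m : ℕ) (u v : ι → ℕ) (ℓ a : ι → ℝ), Fintype.card ι ≤ m →
    Num u v ℓ a → Ind ℓ → ∃ N : ℕ, 1 ≤ N ∧ (N : ℝ) ≤ ∏ i, (3 * m * a i) ∧ Den N ℓ ∧
      ∀ H : ℝ, 0 < H → ∃ P : Finset (ι → ℚ), Pts ℓ a H P id ∧
        (N : ℝ) * ∏ i, (H / (2 * a i)) ≤ P.card

/-- the classes modulo the doubles -/
def StCls : Prop :=
  ∀ (ι : Type) [Fintype ι] (m N : ℕ) (ℓ : ι → ℝ), Fintype.card ι ≤ m → 1 ≤ N → Den N ℓ →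
    ∃ cl : (ι → ℚ) → Fin (2 ^ m), ∀ x x' : ι → ℚ, InG ℓ x → InG ℓ x' → cl x = cl x' →
      InG ℓ fun i => (x i - x' i) / 2

/-- binomial polynomials suffice; affine changes of the variables -/
def StVan : Prop :=
  ∀ (ι κ : Type) [Fintype ι] (P : Finset κ) (c : κ → ℝ) (y : κ → ι → ℝ) (D : ι → ℕ),
    ((∀ d : ι → ℕ, (∀ i, d i ≤ D i) → ∑ k ∈ P, c k * ∏ i, bin (y k i) (d i) = 0) →
      Van P c y D) ∧
    (Van P c y D → ∀ (r s : ℝ) (o : ι → ℝ),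
      Van P (fun k => r * c k) (fun k i => s * y k i + o i) D)

/-- derivatives are small: few derivatives are spent in the directions of the small logarithms -/
def StExp : Prop :=
  ∀ (ι κ : Type) [Fintype ι] (P : Finset κ) (c w δ : κ → ℝ) (y : κ → ι → ℝ) (γ : ι → ℝ)
    (F Nn : Finset ι) (D D' τ : ι → ℕ) (t r : ℕ) (ω η : ℝ) (f : ι → ℝ[X]),
    Van P c y D → Disjoint F Nn →
    (∀ k ∈ P, w k = ∑ i ∈ F, γ i * y k i + ∑ i ∈ Nn, γ i * y k i + δ k) →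
    (∀ i, D' i ≤ D i) → (∀ i ∈ F, D' i + t ≤ D i) → (∀ i ∈ Nn, D' i + min (τ i) t ≤ D i) →
    0 ≤ ω → 0 ≤ η → (∀ k ∈ P, |∑ i ∈ F, γ i * y k i| ≤ ω) →
    (∀ k ∈ P, ∀ i ∈ Nn, |γ i * y k i| ≤ 1 ∧ |γ i * y k i| ^ (τ i + 1) ≤ η) →
    (∀ k ∈ P, |δ k| ≤ 1 ∧ |δ k| ≤ η) → r ≤ t → (∀ i, (f i).natDegree ≤ D' i) →
    |∑ k ∈ P, c k * (∏ i, (f i).eval (y k i)) * w k ^ r| ≤
      (Nn.card + 1) * η * (∑ k ∈ P, |c k * ∏ i, (f i).eval (y k i)|) * (ω + Nn.card + 1) ^ r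

/-- one step of the descent -/
def StStep : Prop :=
  ∀ (ι κ : Type) [Fintype ι] (m N : ℕ) (u v : ι → ℕ) (ℓ a : ι → ℝ) (β : ι → ℚ) (e : ι)
    (Nn : Finset ι) (P : Finset κ) (lam : κ → ι → ℚ) (p : κ → ℤ) (S t : ℕ) (D D' τ : ι → ℕ)
    (x g c : ℝ), Ctx m N u v ℓ a β e → e ∉ Nn → Pts ℓ a x P lam → VanS ℓ N β e P lam p S D →
    1 ≤ g → (∀ i, a i ≤ g) → 0 ≤ x → S * x ≤ g → (cc m : ℝ) ≤ c → c * g ≤ S * t →
    S * t ≤ (c + 2 * m) * g → m * x + 2 * m ≤ 4 * t →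
    ∑ k ∈ P, |(p k : ℝ)| ≤ Real.exp ((5 * m + 5) * g) →
    (∀ k ∈ P, ∀ d : ι → ℕ, (∀ i, d i ≤ D' i) →
      |∏ i, bin (yy N β e (lam k) i) (d i)| ≤ Real.exp g) →
    (∀ i, D' i ≤ D i) → (∀ i, i ∉ Nn → i ≠ e → D' i + t ≤ D i) →
    (∀ i ∈ Nn, D' i + min (τ i) t ≤ D i) →
    (∀ k ∈ P, ∀ i ∈ Nn, |ℓ i * ((lam k i : ℝ) - β i * lam k e / β e)| ≤ 1 ∧
      |ℓ i * ((lam k i : ℝ) - β i * lam k e / β e)| ^ (τ i + 1) ≤ Real.exp (-(10 * c * g))) →
    (∀ k ∈ P, |(lam k e : ℝ) * lin ℓ β / β e| ≤ Real.exp (-(10 * c * g))) →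
    ∀ k₀ ∈ P, ∀ P' : Finset κ,
      (∀ k, k ∈ P' ↔ k ∈ P ∧ InG ℓ fun i => (lam k i - lam k₀ i) / 2) →
      VanS ℓ N β e P' (fun k i => (lam k i - lam k₀ i) / 2) p (2 * S) D'

/-- the auxiliary function, by the lemma of Siegel -/
def StStart : Prop :=
  ∀ (ι κ : Type) [Fintype ι] (m N : ℕ) (u v : ι → ℕ) (ℓ a : ι → ℝ) (β : ι → ℚ) (e : ι)
    (P₀ : Finset κ) (lam : κ → ι → ℚ) (S : ℕ) (D : ι → ℕ) (x g : ℝ), Ctx m N u v ℓ a β e →
    Pts ℓ a x P₀ lam → 1 ≤ S → 1 ≤ g → (∀ i, a i ≤ g) → 0 ≤ x → S * x ≤ g →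
    2 * (S * ∏ i, (D i + 1)) ≤ P₀.card →
    ((2 * (S * ∏ i, (D i + 1)) : ℕ) : ℝ) ≤ Real.exp (2 * g) →
    (∀ k ∈ P₀, ∀ d : ι → ℕ, (∀ i, d i ≤ D i) →
      |∏ i, bin (yy N β e (lam k) i) (d i)| ≤ Real.exp g) →
    ∃ (P : Finset κ) (p : κ → ℤ), P ⊆ P₀ ∧ P.Nonempty ∧ (∀ k ∈ P, p k ≠ 0) ∧
      ∑ k ∈ P, |(p k : ℝ)| ≤ Real.exp ((5 * m + 5) * g) ∧ VanS ℓ N β e P lam p S D

/-- the descent -/
def StDesc : Prop :=
  ∀ (ι : Type) [Fintype ι] [DecidableEq ι] (m N : ℕ) (u v : ι → ℕ) (ℓ a : ι → ℝ) (β : ι → ℚ)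
    (e : ι) (Nn : Finset ι) (S J : ℕ) (τ : ι → ℕ) (H c B : ℝ) (P₀ : Finset (ι → ℚ)),
    Ctx m N u v ℓ a β e → Ind ℓ → e ∉ Nn → (cc m : ℝ) ≤ c → 1 ≤ H → 3 ≤ B →
    (∀ i, a i ≤ S * H) → 4 * m * c * (Real.log ((N : ℝ) ^ 2 * B) + 2) ≤ S →
    (∀ i, i ≠ e → |(β e : ℝ)| / a i + |(β i : ℝ)| / a e ≤ B) →
    (∀ i ∈ Nn, N * H < 2 ^ J * a i ∧ N * H < 2 ^ J * a e) →
    (∀ i ∈ Nn, |ℓ i| * (H * (1 + B * N)) ≤ 1 ∧
      (|ℓ i| * (H * (1 + B * N))) ^ (τ i + 1) ≤ Real.exp (-(10 * c * (S * H)))) →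
    N * H * |lin ℓ β| ≤ Real.exp (-(10 * c * (S * H))) →
    Pts ℓ a H P₀ id → 2 * (S * ∏ i, (Dg c H J τ Nn e i + 1)) ≤ P₀.card → False

/-- the bound for independent logarithms -/
def StCore : Prop :=
  ∀ (m : ℕ) (K : ℝ), 1 ≤ K → ∃ c : ℝ, 1 ≤ c ∧ ∀ (ι : Type) [Fintype ι] [DecidableEq ι]
    (u v : ι → ℕ) (ℓ a : ι → ℝ) (β : ι → ℚ) (e : ι) (Nn : Finset ι) (B W Ω : ℝ),
    Fintype.card ι ≤ m → Num u v ℓ a → Ind ℓ → InG ℓ β → β e ≠ 0 → e ∉ Nn → 3 ≤ B →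
    c * Real.log B ^ (2 * Nn.card + 2) ≤ W → W ≤ B → ∏ i ∈ Nnᶜ, a i ≤ Ω → (∀ i, a i ≤ Ω) →
    (∀ i ∈ Nn, Ω ≤ B * a i ∧ Ω ≤ B * a e ∧
      |ℓ i| * (3 * m * B * Ω) ^ (m + 2) ≤ Real.exp (-(a i / K))) →
    (∀ i, i ≠ e → |(β e : ℝ)| / a i + |(β i : ℝ)| / a e ≤ B) →
    Real.exp (-(c * W * Ω)) ≤ |lin ℓ β|

/-- the same on the support `σ` of the coefficients -/
def StCoreS : Prop :=
  ∀ (m : ℕ) (K : ℝ), 1 ≤ K → ∃ c : ℝ, 1 ≤ c ∧ ∀ (ι : Type) [Fintype ι] [DecidableEq ι]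
    (u v : ι → ℕ) (ℓ a : ι → ℝ) (β : ι → ℚ) (e : ι) (σ Nn : Finset ι) (B W Ω : ℝ),
    Fintype.card ι ≤ m → Num u v ℓ a → (∀ i, i ∈ σ ↔ β i ≠ 0) →
    (∀ x : ι → ℚ, (∀ i, β i = 0 → x i = 0) → lin ℓ x = 0 → x = 0) → InG ℓ β → e ∈ σ →
    e ∉ Nn → Nn ⊆ σ → 3 ≤ B →
    c * Real.log B ^ (2 * Nn.card + 2) ≤ W → W ≤ B → ∏ i ∈ σ \ Nn, a i ≤ Ω →
    (∀ i ∈ σ, a i ≤ Ω) →
    (∀ i ∈ Nn, Ω ≤ B * a i ∧ Ω ≤ B * a e ∧
      |ℓ i| * (3 * m * B * Ω) ^ (m + 2) ≤ Real.exp (-(a i / K))) →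
    (∀ i ∈ σ, i ≠ e → |(β e : ℝ)| / a i + |(β i : ℝ)| / a e ≤ B) →
    Real.exp (-(c * W * Ω)) ≤ |lin ℓ β|

/-- reduction to independent logarithms -/
def StRed : Prop :=
  ∀ (ι : Type) [Fintype ι] (ℓ a : ι → ℝ) (b : ι → ℚ) (M : ℝ), (∀ i, 0 < a i) →
    (∀ i, |(b i : ℝ)| * a i ≤ M) → ∃ β : ι → ℚ, lin ℓ β = lin ℓ b ∧
      (∀ i, |(β i : ℝ)| * a i ≤ 2 ^ Fintype.card ι * M) ∧
      ∀ x : ι → ℚ, (∀ i, β i = 0 → x i = 0) → lin ℓ x = 0 → x = 0

/-- the constants of the reduction -/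
def StConst : Prop :=
  ∀ (m : ℕ) (K c : ℝ), 1 ≤ K → 1 ≤ c → ∃ c' C₀ : ℝ, 1 ≤ c' ∧ 2 ^ (m + 1) ≤ C₀ ∧
    (∀ B : ℝ, C₀ ≤ B → c * Real.log B ^ (2 * m + 2) ≤ B ∧ (c' * Real.log B) ^ (3 * m) ≤ B) ∧
    ∀ B a : ℝ, 3 ≤ B → c' * Real.log B ≤ a →
      B * (3 * m * B * (B * a)) ^ (m + 2) ≤ Real.exp (a / (2 * K))

/-- the lower bound: a logarithm with index in `Nn` costs two powers of `log B`, not its height -/
def StMain : Prop :=
  ∀ (m : ℕ) (K : ℝ), 1 ≤ K → ∃ c : ℝ, 0 < c ∧ ∀ (ι : Type) [Fintype ι] [DecidableEq ι]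
    (u v : ι → ℕ) (ℓ a : ι → ℝ) (b : ι → ℤ) (o : ι) (Nn : Finset ι) (B : ℝ),
    Fintype.card ι ≤ m → Num u v ℓ a → o ∉ Nn → 3 ≤ B → (∀ i, |(b i : ℝ)| ≤ B) →
    ∏ i ∈ (insert o Nn)ᶜ, a i ≤ B →
    (∀ i ∈ Nn, a i ≤ a o ∧ a o ≤ B * a i ∧ |ℓ i| ≤ B * Real.exp (-(a i / K))) →
    ∑ i, (b i : ℝ) * ℓ i ≠ 0 →
    Real.exp (-(c * (∏ i ∈ Nnᶜ, a i) * Real.log B ^ (2 * Nn.card + 2))) ≤
      |∑ i, (b i : ℝ) * ℓ i|

/-- the gap between two products of arbitrary degrees -/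
def StShort : Prop :=
  ∀ (R : ℕ) (M θ : ℝ), θ < 1 → ∃ c : ℝ, 0 < c ∧ ∀ (A D x z X' Z n m : ℕ) (v r w s : Fin R → ℕ),
    0 < A → 0 < D → 0 < x → 0 < z → (∀ i, x ≤ v i ∧ (v i : ℝ) ≤ x + M * (x : ℝ) ^ θ) →
    (∀ i, z ≤ w i ∧ (w i : ℝ) ≤ z + M * (z : ℝ) ^ θ) → X' = ∏ i, v i ^ r i →
    Z = ∏ i, w i ^ s i → n = ∑ i, r i → m = ∑ i, s i → A * X' ≠ D * Z →
    (D : ℝ) * Z * Real.exp (-(c * (1 + Real.log ((A : ℝ) * D)) * Real.log (2 * x) *
      Real.log (2 * z) * Real.log ((n : ℝ) + m + Real.log ((A : ℝ) * D) + 3) ^ (4 * R + 2))) ≤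
      |(A : ℝ) * X' - D * Z|

end Pool.Agent.Lib.MP_4ffbf9_nt.MB
end

-- part Pool.Agent.Lib.MP_4ffbf9_nt.MB.Defs2
section

/-!
The sharper form: an individual parameter `K i` for every small logarithm, and no lower bound for
the heights of the numbers close to `1`.
-/

set_option autoImplicit false

namespace Pool.Agent.Lib.MP_4ffbf9_nt.MB

open Finset Polynomial

/-- the degrees, with a reserve `2 * R i` for the small logarithms -/
noncomputable def Dh {ι : Type} [DecidableEq ι] (c x : ℝ) (n : ℕ) (R τ : ι → ℕ) (Nn : Finset ι)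
    (e i : ι) : ℕ :=
  if i = e then 0 else if i ∈ Nn then 2 * R i + min (n * τ i) ⌊4 * c * x⌋₊ else ⌊4 * c * x⌋₊

/-- one step of the descent, the small terms being measured against the level `x` -/
def StStep2 : Prop :=
  ∀ (ι κ : Type) [Fintype ι] (m N : ℕ) (u v : ι → ℕ) (ℓ a : ι → ℝ) (β : ι → ℚ) (e : ι)
    (Nn : Finset ι) (P : Finset κ) (lam : κ → ι → ℚ) (p : κ → ℤ) (S t : ℕ) (D D' τ : ι → ℕ)
    (x g c : ℝ), Ctx m N u v ℓ a β e → e ∉ Nn → Pts ℓ a x P lam → VanS ℓ N β e P lam p S D →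
    1 ≤ g → (∀ i, a i ≤ g) → 0 < x → S * x ≤ g → (cc m : ℝ) ≤ c → c * g ≤ S * t →
    S * t ≤ (c + 2 * m) * g → 3 * m * x ≤ 4 * t →
    ∑ k ∈ P, |(p k : ℝ)| ≤ Real.exp ((5 * m + 5) * g) →
    (∀ k ∈ P, ∀ d : ι → ℕ, (∀ i, d i ≤ D' i) →
      |∏ i, bin (yy N β e (lam k) i) (d i)| ≤ Real.exp g) →
    (∀ i, D' i ≤ D i) → (∀ i, i ∉ Nn → i ≠ e → D' i + t ≤ D i) →
    (∀ i ∈ Nn, D' i + min (τ i) t ≤ D i) →
    (∀ k ∈ P, ∀ i ∈ Nn, |ℓ i * ((lam k i : ℝ) - β i * lam k e / β e) / x| ≤ 1 ∧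
      |ℓ i * ((lam k i : ℝ) - β i * lam k e / β e) / x| ^ (τ i + 1) ≤
        Real.exp (-(10 * c * g))) →
    (∀ k ∈ P, |(lam k e : ℝ) * lin ℓ β / β e / x| ≤ Real.exp (-(10 * c * g))) →
    ∀ k₀ ∈ P, ∀ P' : Finset κ,
      (∀ k, k ∈ P' ↔ k ∈ P ∧ InG ℓ fun i => (lam k i - lam k₀ i) / 2) →
      VanS ℓ N β e P' (fun k i => (lam k i - lam k₀ i) / 2) p (2 * S) D'

/-- separation of the values of the coordinates of the small logarithms -/
def StSep : Prop :=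
  ∀ (ι κ : Type) [Fintype ι] (m N : ℕ) (u v : ι → ℕ) (ℓ a : ι → ℝ) (β : ι → ℚ) (e : ι)
    (Nn : Finset ι) (P : Finset κ) (lam : κ → ι → ℚ) (p : κ → ℤ) (S : ℕ) (D R : ι → ℕ) (x : ℝ),
    Ctx m N u v ℓ a β e → Pts ℓ a x P lam → VanS ℓ N β e P lam p S D → P.Nonempty →
    (∀ k ∈ P, lam k e = 0) → (∀ i ∈ Nn, N * x < (R i + 1) * a i ∧ 2 * R i ≤ D i) →
    ∃ (P' : Finset κ) (lam' : κ → ι → ℚ), P' ⊆ P ∧ P'.Nonempty ∧ Pts ℓ a x P' lam' ∧
      VanS ℓ N β e P' lam' p S D ∧ ∀ k ∈ P', lam' k e = 0 ∧ ∀ i ∈ Nn, lam' k i = 0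

/-- the descent -/
def StDesc2 : Prop :=
  ∀ (ι : Type) [Fintype ι] [DecidableEq ι] (m N : ℕ) (u v : ι → ℕ) (ℓ a : ι → ℝ) (β : ι → ℚ)
    (e : ι) (Nn : Finset ι) (S J : ℕ) (τ : ι → ℕ) (H c B : ℝ) (P₀ : Finset (ι → ℚ)),
    Ctx m N u v ℓ a β e → Ind ℓ → e ∉ Nn → (cc m : ℝ) ≤ c → 1 ≤ H → 3 ≤ B →
    (∀ i, a i ≤ S * H) → 8 * m * c * (Real.log ((N : ℝ) ^ 2 * B) + 2) ≤ S →
    (∀ i, i ≠ e → |(β e : ℝ)| / a i + |(β i : ℝ)| / a e ≤ B) →
    N ≤ 2 ^ J → (Nn.Nonempty → N * H < 2 ^ J * a e) →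
    (∀ i ∈ Nn, |ℓ i| * (1 + B * N) ≤ 1 ∧
      (|ℓ i| * (1 + B * N)) ^ (τ i + 1) ≤ Real.exp (-(10 * c * (S * H)))) →
    N * |lin ℓ β| ≤ Real.exp (-(10 * c * (S * H))) →
    Pts ℓ a H P₀ id →
    2 * (S * ∏ i, (Dh c H J (fun i => ⌊H / a i⌋₊) τ Nn e i + 1)) ≤ P₀.card → False

/-- the bound for independent logarithms -/
def StCore2 : Prop :=
  ∀ m : ℕ, ∃ c : ℝ, 1 ≤ c ∧ ∀ (ι : Type) [Fintype ι] [DecidableEq ι]
    (u v : ι → ℕ) (ℓ a K : ι → ℝ) (β : ι → ℚ) (e : ι) (Nn : Finset ι) (B W Ω : ℝ),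
    Fintype.card ι ≤ m → Num u v ℓ a → Ind ℓ → InG ℓ β → β e ≠ 0 → e ∉ Nn → 3 ≤ B →
    c * Real.log B ^ (2 * Nn.card + 2) ≤ W → W ≤ B →
    (∏ i ∈ Nnᶜ, a i) * ∏ i ∈ Nn, K i ≤ Ω → (∀ i, a i ≤ Ω) → (Nn.Nonempty → Ω ≤ B * a e) →
    (∀ i ∈ Nn, 1 ≤ K i ∧ |ℓ i| ≤ B * Real.exp (-(a i / K i))) →
    (∀ i, i ≠ e → |(β e : ℝ)| / a i + |(β i : ℝ)| / a e ≤ B) →
    Real.exp (-(c * W * Ω)) ≤ |lin ℓ β|

/-- the same on the support `σ` of the coefficients -/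
def StCoreS2 : Prop :=
  ∀ m : ℕ, ∃ c : ℝ, 1 ≤ c ∧ ∀ (ι : Type) [Fintype ι] [DecidableEq ι]
    (u v : ι → ℕ) (ℓ a K : ι → ℝ) (β : ι → ℚ) (e : ι) (σ Nn : Finset ι) (B W Ω : ℝ),
    Fintype.card ι ≤ m → Num u v ℓ a → (∀ i, i ∈ σ ↔ β i ≠ 0) →
    (∀ x : ι → ℚ, (∀ i, β i = 0 → x i = 0) → lin ℓ x = 0 → x = 0) → InG ℓ β → e ∈ σ →
    e ∉ Nn → Nn ⊆ σ → 3 ≤ B →
    c * Real.log B ^ (2 * Nn.card + 2) ≤ W → W ≤ B →
    (∏ i ∈ σ \ Nn, a i) * ∏ i ∈ Nn, K i ≤ Ω → (∀ i ∈ σ, a i ≤ Ω) →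
    (Nn.Nonempty → Ω ≤ B * a e) →
    (∀ i ∈ Nn, 1 ≤ K i ∧ |ℓ i| ≤ B * Real.exp (-(a i / K i))) →
    (∀ i ∈ σ, i ≠ e → |(β e : ℝ)| / a i + |(β i : ℝ)| / a e ≤ B) →
    Real.exp (-(c * W * Ω)) ≤ |lin ℓ β|

/-- the lower bound: a logarithm with index in `Nn` costs `K i * (log B) ^ 2`, not its height -/
def StMain2 : Prop :=
  ∀ m : ℕ, ∃ c : ℝ, 0 < c ∧ ∀ (ι : Type) [Fintype ι] [DecidableEq ι]
    (u v : ι → ℕ) (ℓ a K : ι → ℝ) (b : ι → ℤ) (o : ι) (Nn : Finset ι) (B : ℝ),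
    Fintype.card ι ≤ m → Num u v ℓ a → o ∉ Nn → 3 ≤ B → (∀ i, |(b i : ℝ)| ≤ B) →
    (∏ i ∈ (insert o Nn)ᶜ, a i) * ∏ i ∈ Nn, K i ≤ B →
    (∀ i ∈ Nn, a i ≤ a o ∧ 1 ≤ K i ∧ |ℓ i| ≤ B * Real.exp (-(a i / K i))) →
    ∑ i, (b i : ℝ) * ℓ i ≠ 0 →
    Real.exp (-(c * ((∏ i ∈ Nnᶜ, a i) * ∏ i ∈ Nn, K i) * Real.log B ^ (2 * Nn.card + 2))) ≤
      |∑ i, (b i : ℝ) * ℓ i|

end Pool.Agent.Lib.MP_4ffbf9_nt.MB
end

-- part Pool.Agent.Lib.MP_4ffbf9_nt.MB.Main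
section

/-! The lower bound. -/

set_option autoImplicit false

namespace Pool.Agent.Lib.MP_4ffbf9_nt.MB

open Finset Polynomial

namespace MainAux

theorem one_le_log {B : ℝ} (hB : 3 ≤ B) : 1 ≤ Real.log B := by
  rw [Real.le_log_iff_exp_le (by linarith)]
  linarith [Real.exp_one_lt_d9]

theorem le_prod {ι : Type} [DecidableEq ι] {s : Finset ι} {a : ι → ℝ} (ha : ∀ i, 1 ≤ a i) {i : ι}
    (hi : i ∈ s) : a i ≤ ∏ j ∈ s, a j := by
  rw [← mul_prod_erase s a hi]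
  exact le_mul_of_one_le_right (by linarith [ha i]) (one_le_prod fun j _ => ha j)

theorem prod_mono {ι : Type} [DecidableEq ι] {s t : Finset ι} {a : ι → ℝ} (ha : ∀ i, 1 ≤ a i)
    (h : s ⊆ t) : ∏ j ∈ s, a j ≤ ∏ j ∈ t, a j :=
  prod_le_prod_of_subset_of_one_le h (fun i _ => by linarith [ha i]) fun i _ _ => ha i

theorem prod_union_le {ι : Type} [DecidableEq ι] (s t : Finset ι) {a : ι → ℝ}
    (ha : ∀ i, 1 ≤ a i) : ∏ j ∈ s ∪ t, a j ≤ (∏ j ∈ s, a j) * ∏ j ∈ t, a j := by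
  rw [← prod_union_inter]
  exact le_mul_of_one_le_right (prod_nonneg fun i _ => by linarith [ha i])
    (one_le_prod fun j _ => ha j)

theorem coef {x y s t M : ℝ} (hs : 1 ≤ s) (ht : 1 ≤ t) (hx : x * s ≤ M) (hy : y * t ≤ M) :
    x / t + y / s ≤ 2 * M / (s * t) := by
  rw [div_add_div _ _ (by linarith) (by linarith), mul_comm t s]
  exact div_le_div_of_nonneg_right (by linarith) (by positivity)

theorem sq_log {A : ℝ} (hA : 1 ≤ A) : (1 + Real.log A) ^ 2 ≤ 4 * A := by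
  have h0 : 0 < √A := Real.sqrt_pos.2 (by linarith)
  have h1 := Real.log_le_sub_one_of_pos h0
  rw [Real.log_sqrt (by linarith)] at h1
  have h2 : (1 + Real.log A) ^ 2 ≤ (2 * √A) ^ 2 :=
    pow_le_pow_left₀ (by linarith [Real.log_nonneg hA]) (by linarith) 2
  rwa [mul_pow, Real.sq_sqrt (by linarith), show (2 : ℝ) ^ 2 = 4 by norm_num] at h2

end MainAux

open MainAux

theorem stMain (hR : StRed) (hC : StCoreS) (hK : StConst) : StMain := by
  intro m K hK1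
  obtain ⟨c, hc, hC⟩ := hC m (2 * K) (by linarith)
  obtain ⟨c', C₀, hc', hC₀, hK2, hK3⟩ := hK m K c hK1 hc
  have hC1 : (1 : ℝ) ≤ C₀ := le_trans (one_le_pow₀ one_le_two) hC₀
  set ρ := Real.log C₀ + 3 with hρ
  have hρ1 : 1 ≤ ρ := by linarith [Real.log_nonneg hC1]
  refine ⟨4 * c ^ 2 * c' ^ m * ρ ^ (2 * m + 2), by positivity, ?_⟩
  intro ι _ _ u v ℓ a b o Nn B hm hN ho hB hb hΩ hn hΛ
  have ha := hN.one
  set Ω₀ := ∏ i ∈ (insert o Nn)ᶜ, a i with hΩ₀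
  have hΩ1 : 1 ≤ Ω₀ := one_le_prod fun j _ => ha j
  have hA := ha o
  have hprod : ∏ i ∈ Nnᶜ, a i = a o * Ω₀ := by
    rw [hΩ₀, compl_insert, mul_prod_erase _ _ (mem_compl.2 ho)]
  have hk : Nn.card ≤ m := (card_le_univ _).trans hm
  have hfar : ∀ i, i ∉ insert o Nn → a i ≤ Ω₀ := fun i hi => le_prod ha (mem_compl.2 hi)
  have hnear : ∀ i ∈ insert o Nn, a i ≤ a o ∧ a o ≤ B * a i := fun i hi => by
    rcases mem_insert.1 hi with rfl | hi
    · exact ⟨le_rfl, le_mul_of_one_le_left (by linarith) (by linarith)⟩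
    · exact ⟨(hn i hi).1, (hn i hi).2.1⟩
  have hM : ∀ i, |(((b i : ℚ)) : ℝ)| * a i ≤ B * (B * a o) := fun i => by
    rw [Rat.cast_intCast]
    refine mul_le_mul (hb i) ?_ (by linarith [ha i]) (by linarith)
    by_cases hi : i ∈ insert o Nn
    · exact (hnear i hi).1.trans (le_mul_of_one_le_left (by linarith) (by linarith))
    · exact ((hfar i hi).trans hΩ).trans (le_mul_of_one_le_right (by linarith) hA)
  obtain ⟨β, hβ, hβM, hI⟩ := hR ι ℓ a (fun i => (b i : ℚ)) _ hN.pos hM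
  have hlin : lin ℓ β = ∑ i, (b i : ℝ) * ℓ i := by rw [hβ, lin]; simp only [Rat.cast_intCast]
  have hG : InG ℓ β := by
    obtain ⟨q, hq⟩ := hN.inG_int b
    exact ⟨q, by rw [hβ, hq]⟩
  set σ := univ.filter fun i => β i ≠ 0 with hσ
  have hσm : ∀ i, i ∈ σ ↔ β i ≠ 0 := fun i => by simp [hσ]
  have hβM' : ∀ i, |(β i : ℝ)| * a i ≤ 2 ^ m * (B * (B * a o)) := fun i =>
    (hβM i).trans (mul_le_mul_of_nonneg_right (pow_le_pow_right₀ one_le_two hm) (by positivity))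
  have hco : ∀ e i, |(β e : ℝ)| / a i + |(β i : ℝ)| / a e ≤ C₀ * B ^ 2 * (a o / a e) := fun e i => by
    have h0 := hN.pos e
    refine (coef (ha e) (ha i) (hβM' e) (hβM' i)).trans ?_
    refine (div_le_div_of_nonneg_left (by positivity) h0
      (le_mul_of_one_le_right h0.le (ha i))).trans ?_
    rw [show 2 * (2 ^ m * (B * (B * a o))) / a e = 2 ^ (m + 1) * B ^ 2 * (a o / a e) by ring]
    gcongr
  set B' := C₀ * B ^ 3 with hB'
  have hB3 : 1 ≤ B ^ 3 := one_le_pow₀ (by linarith)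
  have hBB : B ≤ B' := (le_self_pow₀ (by linarith) three_ne_zero).trans
    (le_mul_of_one_le_left (by positivity) hC1)
  have hCB : C₀ ≤ B' := le_mul_of_one_le_right (by linarith) hB3
  have hL := one_le_log hB
  have hL' := one_le_log (hB.trans hBB)
  have hLL : Real.log B' ≤ ρ * Real.log B := by
    rw [hB', Real.log_mul (by linarith) (by linarith), Real.log_pow, hρ]
    push_cast
    nlinarith [Real.log_nonneg hC1]
  have hfin : ∀ j ≤ 2 * Nn.card + 2, Real.log B' ^ j ≤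
      ρ ^ (2 * m + 2) * Real.log B ^ (2 * Nn.card + 2) := fun j hj => by
    refine (pow_le_pow_right₀ hL' hj).trans ((pow_le_pow_left₀ (by linarith) hLL _).trans ?_)
    rw [mul_pow]
    exact mul_le_mul_of_nonneg_right (pow_le_pow_right₀ hρ1 (by omega)) (by positivity)
  rw [hprod, ← hlin]
  by_cases hcase : ∃ e ∈ σ, e ∈ insert o Nn
  · obtain ⟨e, heσ, he, heo⟩ : ∃ e ∈ σ, e ∈ insert o Nn ∧ (o ∈ σ → o = e) := by
      by_cases hoσ : o ∈ σ
      · exact ⟨o, hoσ, mem_insert_self _ _, fun _ => rfl⟩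
      · obtain ⟨e, h1, h2⟩ := hcase
        exact ⟨e, h1, h2, fun h => absurd h hoσ⟩
    set T := (σ ∩ Nn).erase e with hT
    set Nn' := T.filter fun i => c' * Real.log B' ≤ a i with hNn'
    set Mv := T.filter fun i => ¬ c' * Real.log B' ≤ a i with hMv
    have hTN : T ⊆ Nn := (erase_subset _ _).trans inter_subset_right
    have hcard : Nn'.card + Mv.card ≤ Nn.card :=
      (card_filter_add_card_filter_not _).trans_le (card_le_card hTN)
    have hy : 1 ≤ c' * Real.log B' := one_le_mul_of_one_le_of_one_le hc' hL'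
    set y := (c' * Real.log B') ^ Mv.card with hyd
    have hy1 : 1 ≤ y := one_le_pow₀ hy
    have hy2 : y ≤ C₀ * B := by
      refine (pow_le_pow_right₀ hy (show Mv.card ≤ m by omega)).trans ?_
      refine le_of_pow_le_pow_left₀ three_ne_zero (by positivity) ?_
      rw [← pow_mul, mul_comm m 3, mul_pow C₀]
      exact (hK2 B' hCB).2.trans (mul_le_mul_of_nonneg_right
        (le_self_pow₀ hC1 three_ne_zero) (by positivity))
    have hΩB : ∀ i ∈ insert o Nn, a o * Ω₀ * y ≤ B' * a i := fun i hi => by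
      have h0 := hN.pos i
      calc a o * Ω₀ * y ≤ B * a i * B * (C₀ * B) := by gcongr; exact (hnear i hi).2
        _ = B' * a i := by rw [hB']; ring
    refine le_trans (Real.exp_le_exp.2 (neg_le_neg ?_)) (hC ι u v ℓ a β e σ Nn' B'
      (c * Real.log B' ^ (2 * Nn'.card + 2)) (a o * Ω₀ * y) hm hN hσm hI hG heσ
      (fun h => notMem_erase _ _ (mem_filter.1 h).1)
      ((filter_subset _ _).trans ((erase_subset _ _).trans inter_subset_left)) (hB.trans hBB)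
      le_rfl ?_ ?_ ?_ ?_ ?_)
    · have h1 := hfin (2 * Nn'.card + 2 + Mv.card) (by omega)
      have h2 : c' ^ Mv.card ≤ c' ^ m := pow_le_pow_right₀ hc' (by omega)
      calc c * (c * Real.log B' ^ (2 * Nn'.card + 2)) * (a o * Ω₀ * y)
          = 1 * c ^ 2 * c' ^ Mv.card * (a o * Ω₀) *
            Real.log B' ^ (2 * Nn'.card + 2 + Mv.card) := by rw [hyd]; ring
        _ ≤ 4 * c ^ 2 * c' ^ m * (a o * Ω₀) *
            (ρ ^ (2 * m + 2) * Real.log B ^ (2 * Nn.card + 2)) := by gcongr; norm_num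
        _ = _ := by ring
    · exact le_trans (mul_le_mul_of_nonneg_left (pow_le_pow_right₀ hL' (by omega)) (by linarith))
        (hK2 B' hCB).1
    · have h1 : σ \ Nn' ⊆ ({e} ∪ (insert o Nn)ᶜ) ∪ Mv := fun i hi => by
        obtain ⟨h2, h3⟩ := mem_sdiff.1 hi
        by_cases hie : i = e
        · exact mem_union_left _ (mem_union_left _ (mem_singleton.2 hie))
        by_cases hi2 : i ∈ insert o Nn
        · have h4 : i ∈ T := mem_erase.2 ⟨hie, mem_inter.2 ⟨h2,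
            (mem_insert.1 hi2).resolve_left fun h => hie (h.trans (heo (h ▸ h2)))⟩⟩
          exact mem_union_right _ (mem_filter.2 ⟨h4, fun h => h3 (mem_filter.2 ⟨h4, h⟩)⟩)
        · exact mem_union_left _ (mem_union_right _ (mem_compl.2 hi2))
      refine (prod_mono ha h1).trans ((prod_union_le _ _ ha).trans (mul_le_mul
        ((prod_union_le _ _ ha).trans ?_) ?_ (prod_nonneg fun i _ => (hN.pos i).le)
        (by positivity)))
      · rw [prod_singleton]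
        exact mul_le_mul_of_nonneg_right (hnear e he).1 (by linarith)
      · rw [hyd, ← prod_const]
        exact prod_le_prod (fun i _ => (hN.pos i).le) fun i hi => (not_le.1 (mem_filter.1 hi).2).le
    · intro i _
      refine le_trans ?_ (le_mul_of_one_le_right (by positivity) hy1)
      by_cases hi : i ∈ insert o Nn
      · exact (hnear i hi).1.trans (le_mul_of_one_le_right (by linarith) hΩ1)
      · exact (hfar i hi).trans (le_mul_of_one_le_left (by linarith) hA)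
    · intro i hi
      obtain ⟨h1, h2⟩ := mem_filter.1 hi
      have h3 := hΩB i (mem_insert_of_mem (hTN h1))
      refine ⟨h3, hΩB e he, ?_⟩
      have h4 := hK3 B' (a i) (hB.trans hBB) h2
      have h5 := (hn i (hTN h1)).2.2
      have h0 := hN.pos i
      have hB0 : 0 ≤ B' := by linarith
      calc |ℓ i| * (3 * m * B' * (a o * Ω₀ * y)) ^ (m + 2)
          ≤ B' * Real.exp (-(a i / K)) * (3 * m * B' * (B' * a i)) ^ (m + 2) := by
            gcongr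
            exact h5.trans (mul_le_mul_of_nonneg_right hBB (Real.exp_pos _).le)
        _ = Real.exp (-(a i / K)) * (B' * (3 * m * B' * (B' * a i)) ^ (m + 2)) := by ring
        _ ≤ Real.exp (-(a i / K)) * Real.exp (a i / (2 * K)) := by gcongr
        _ = Real.exp (-(a i / (2 * K))) := by
            rw [← Real.exp_add]; congr 1; field_simp; ring
    · intro i _ _
      refine (hco e i).trans ?_
      rw [hB', pow_succ B 2, ← mul_assoc]
      exact mul_le_mul_of_nonneg_left ((div_le_iff₀ (hN.pos e)).2 (hnear e he).2) (by positivity)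
  · obtain ⟨e, heσ⟩ : σ.Nonempty := by
      by_contra h
      refine hΛ (hlin.symm.trans ?_)
      rw [show β = 0 from funext fun i => by_contra fun h' => h ⟨i, (hσm i).2 h'⟩, lin_zero]
    have hsub : ∀ i ∈ σ, i ∉ insert o Nn := fun i hi h => hcase ⟨i, hi, h⟩
    have hBA : B' ≤ B' * a o := le_mul_of_one_le_right (by linarith) hA
    have hL'' := one_le_log ((hB.trans hBB).trans hBA)
    refine le_trans (Real.exp_le_exp.2 (neg_le_neg ?_)) (hC ι u v ℓ a β e σ ∅ (B' * a o)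
      (c * Real.log (B' * a o) ^ 2) Ω₀ hm hN hσm hI hG heσ (notMem_empty _) (empty_subset _)
      ((hB.trans hBB).trans hBA) (by simp) ?_ ?_ (fun i hi => hfar i (hsub i hi))
      (fun i hi => absurd hi (notMem_empty _)) ?_)
    · have h1 := hfin 2 (by omega)
      have h2 : 1 ≤ c' ^ m := one_le_pow₀ hc'
      have h3 : Real.log (B' * a o) ≤ Real.log B' * (1 + Real.log (a o)) := by
        rw [Real.log_mul (by linarith) (by linarith)]
        nlinarith [Real.log_nonneg hA]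
      have h4 := sq_log hA
      calc c * (c * Real.log (B' * a o) ^ 2) * Ω₀
          ≤ c * (c * (Real.log B' * (1 + Real.log (a o))) ^ 2) * Ω₀ := by gcongr
        _ = c ^ 2 * 1 * Ω₀ * (1 + Real.log (a o)) ^ 2 * Real.log B' ^ 2 := by ring
        _ ≤ c ^ 2 * c' ^ m * Ω₀ * (4 * a o) *
            (ρ ^ (2 * m + 2) * Real.log B ^ (2 * Nn.card + 2)) := by gcongr
        _ = _ := by ring
    · exact le_trans (mul_le_mul_of_nonneg_left (pow_le_pow_right₀ hL'' (by omega)) (by linarith))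
        (hK2 _ (hCB.trans hBA)).1
    · rw [sdiff_empty]
      exact prod_mono ha fun i hi => mem_compl.2 (hsub i hi)
    · intro i _ _
      refine (hco e i).trans (mul_le_mul ?_ (div_le_self (by linarith) (ha e))
        (div_nonneg (by linarith) (hN.pos e).le) (by linarith))
      exact mul_le_mul_of_nonneg_left (pow_le_pow_right₀ (by linarith) (by norm_num)) (by linarith)

end Pool.Agent.Lib.MP_4ffbf9_nt.MB
end

-- part Pool.Agent.Lib.MP_4ffbf9_nt.MB.Main2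
section

/-! The lower bound, sharper form. -/

set_option autoImplicit false

namespace Pool.Agent.Lib.MP_4ffbf9_nt.MB

open Finset Polynomial MainAux

theorem MainAux.pow_log {ρ : ℝ} (h : 1 ≤ ρ) (n : ℕ) :
    (1 + Real.log ρ) ^ n ≤ 3 * n.factorial * ρ := by
  have h1 := Real.pow_div_factorial_le_exp (1 + Real.log ρ) (by linarith [Real.log_nonneg h]) n
  rw [div_le_iff₀ (by positivity), Real.exp_add, Real.exp_log (by linarith)] at h1
  refine h1.trans ?_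
  have h2 : Real.exp 1 ≤ 3 := by linarith [Real.exp_one_lt_d9]
  calc Real.exp 1 * ρ * n.factorial ≤ 3 * ρ * n.factorial := by gcongr
    _ = _ := by ring

theorem stMain2 (hR : StRed) (hC : StCoreS2) (hK : StConst) : StMain2 := by
  intro m
  obtain ⟨c, hc, hC⟩ := hC m
  obtain ⟨c', C₀, -, hC₀, hK2, -⟩ := hK m 1 c le_rfl hc
  have hC1 : (1 : ℝ) ≤ C₀ := le_trans (one_le_pow₀ one_le_two) hC₀
  set ρ := Real.log C₀ + 2 with hρ
  have hρ1 : 1 ≤ ρ := by linarith [Real.log_nonneg hC1]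
  refine ⟨c ^ 2 * ρ ^ (2 * m + 2) * (3 * (2 * m + 2).factorial), by positivity, ?_⟩
  intro ι _ _ u v ℓ a K b o Nn B hm hN ho hB hb hΩ hn hΛ
  have ha := hN.one
  set Ω₀ := ∏ i ∈ (insert o Nn)ᶜ, a i with hΩ₀
  set Kp := ∏ i ∈ Nn, K i with hKp
  have hΩ1 : 1 ≤ Ω₀ := one_le_prod fun j _ => ha j
  have hK1 : 1 ≤ Kp := one_le_prod fun j hj => (hn j hj).2.1
  have hA := ha o
  have hprod : ∏ i ∈ Nnᶜ, a i = a o * Ω₀ := by
    rw [hΩ₀, compl_insert, mul_prod_erase _ _ (mem_compl.2 ho)]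
  have hk : Nn.card ≤ m := (card_le_univ _).trans hm
  have hfar : ∀ i, i ∉ insert o Nn → a i ≤ Ω₀ := fun i hi => le_prod ha (mem_compl.2 hi)
  have hnear : ∀ i ∈ insert o Nn, a i ≤ a o := fun i hi => by
    rcases mem_insert.1 hi with rfl | hi
    · exact le_rfl
    · exact (hn i hi).1
  have hΩB : Ω₀ ≤ B := (le_mul_of_one_le_right (by linarith) hK1).trans hΩ
  have hM : ∀ i, |(((b i : ℚ)) : ℝ)| * a i ≤ B * (B * a o) := fun i => by
    rw [Rat.cast_intCast]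
    refine mul_le_mul (hb i) ?_ (by linarith [ha i]) (by linarith)
    by_cases hi : i ∈ insert o Nn
    · exact (hnear i hi).trans (le_mul_of_one_le_left (by linarith) (by linarith))
    · exact ((hfar i hi).trans hΩB).trans (le_mul_of_one_le_right (by linarith) hA)
  obtain ⟨β, hβ, hβM, hI⟩ := hR ι ℓ a (fun i => (b i : ℚ)) _ hN.pos hM
  have hlin : lin ℓ β = ∑ i, (b i : ℝ) * ℓ i := by rw [hβ, lin]; simp only [Rat.cast_intCast]
  have hG : InG ℓ β := by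
    obtain ⟨q, hq⟩ := hN.inG_int b
    exact ⟨q, by rw [hβ, hq]⟩
  set σ := univ.filter fun i => β i ≠ 0 with hσ
  have hσm : ∀ i, i ∈ σ ↔ β i ≠ 0 := fun i => by simp [hσ]
  have hβM' : ∀ i, |(β i : ℝ)| * a i ≤ 2 ^ m * (B * (B * a o)) := fun i =>
    (hβM i).trans (mul_le_mul_of_nonneg_right (pow_le_pow_right₀ one_le_two hm) (by positivity))
  have hco : ∀ e i, |(β e : ℝ)| / a i + |(β i : ℝ)| / a e ≤ C₀ * B ^ 2 * (a o / a e) := fun e i => by
    have h0 := hN.pos e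
    refine (coef (ha e) (ha i) (hβM' e) (hβM' i)).trans ?_
    refine (div_le_div_of_nonneg_left (by positivity) h0
      (le_mul_of_one_le_right h0.le (ha i))).trans ?_
    rw [show 2 * (2 ^ m * (B * (B * a o))) / a e = 2 ^ (m + 1) * B ^ 2 * (a o / a e) by ring]
    gcongr
  obtain ⟨e, A', heσ, hA1, hA2, hA3, hA4, hA5⟩ : ∃ (e : ι) (A' : ℝ), e ∈ σ ∧ 1 ≤ A' ∧ A' ≤ a o ∧
      A' ≤ a e ∧ ∏ i ∈ σ \ (σ ∩ Nn).erase e, a i ≤ A' * Ω₀ ∧
      ∀ i ∈ σ, i ∈ insert o Nn → a i ≤ A' := by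
    by_cases hcase : (σ ∩ insert o Nn).Nonempty
    · obtain ⟨e, he, hmax, heo⟩ : ∃ e ∈ σ ∩ insert o Nn, (∀ i ∈ σ ∩ insert o Nn, a i ≤ a e) ∧
          (o ∈ σ → o = e) := by
        by_cases hoσ : o ∈ σ
        · exact ⟨o, mem_inter.2 ⟨hoσ, mem_insert_self _ _⟩, fun i hi => hnear i (mem_inter.1 hi).2,
            fun _ => rfl⟩
        · obtain ⟨e, h1, h2⟩ := exists_max_image _ a hcase
          exact ⟨e, h1, h2, fun h => absurd h hoσ⟩
      refine ⟨e, a e, (mem_inter.1 he).1, ha e, hnear e (mem_inter.1 he).2, le_rfl, ?_,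
        fun i h1 h2 => hmax i (mem_inter.2 ⟨h1, h2⟩)⟩
      have h1 : σ \ (σ ∩ Nn).erase e ⊆ {e} ∪ (insert o Nn)ᶜ := fun i hi => by
        obtain ⟨h2, h3⟩ := mem_sdiff.1 hi
        by_cases hie : i = e
        · exact mem_union_left _ (mem_singleton.2 hie)
        refine mem_union_right _ (mem_compl.2 fun hi2 => h3 (mem_erase.2 ⟨hie, mem_inter.2 ⟨h2,
          (mem_insert.1 hi2).resolve_left fun h => hie (h.trans (heo (h ▸ h2)))⟩⟩))
      refine (prod_mono ha h1).trans ((prod_union_le _ _ ha).trans_eq ?_)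
      rw [prod_singleton]
    · obtain ⟨e, heσ⟩ : σ.Nonempty := by
        by_contra h
        refine hΛ (hlin.symm.trans ?_)
        rw [show β = 0 from funext fun i => by_contra fun h' => h ⟨i, (hσm i).2 h'⟩, lin_zero]
      have hsub : ∀ i ∈ σ, i ∉ insert o Nn := fun i hi h => hcase ⟨i, mem_inter.2 ⟨hi, h⟩⟩
      refine ⟨e, 1, heσ, le_rfl, hA, ha e, ?_, fun i h1 h2 => absurd h2 (hsub i h1)⟩
      rw [one_mul]
      exact prod_mono ha fun i hi => mem_compl.2 (hsub i (mem_sdiff.1 hi).1)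
  set T := (σ ∩ Nn).erase e with hT
  have hTN : T ⊆ Nn := (erase_subset _ _).trans inter_subset_right
  have hcard : T.card ≤ Nn.card := card_le_card hTN
  set r := a o / A' with hr
  have hr1 : 1 ≤ r := (one_le_div (by linarith)).2 hA2
  set B' := C₀ * B ^ 2 with hB'
  have hB2 : 1 ≤ B ^ 2 := one_le_pow₀ (by linarith)
  have hBB : B ≤ B' := (le_self_pow₀ (by linarith) two_ne_zero).trans
    (le_mul_of_one_le_left (by positivity) hC1)
  have hCB : C₀ ≤ B' := le_mul_of_one_le_right (by linarith) hB2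
  have hBr : B' ≤ B' * r := le_mul_of_one_le_right (by linarith) hr1
  have hL := one_le_log hB
  have hL' := one_le_log (hB.trans hBB)
  have hL'' := one_le_log ((hB.trans hBB).trans hBr)
  have hLL : Real.log B' ≤ ρ * Real.log B := by
    rw [hB', Real.log_mul (by linarith) (by linarith), Real.log_pow, hρ]
    push_cast
    nlinarith [Real.log_nonneg hC1]
  have hlr := Real.log_nonneg hr1
  have h3 : Real.log (B' * r) ≤ ρ * Real.log B * (1 + Real.log r) := by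
    rw [Real.log_mul (by linarith) (by linarith)]
    nlinarith
  rw [hprod, ← hlin]
  refine le_trans (Real.exp_le_exp.2 (neg_le_neg ?_)) (hC ι u v ℓ a K β e σ T (B' * r)
    (c * Real.log (B' * r) ^ (2 * T.card + 2)) (A' * Ω₀ * Kp) hm hN hσm hI hG heσ
    (notMem_erase _ _) ((erase_subset _ _).trans inter_subset_left)
    ((hB.trans hBB).trans hBr) le_rfl ?_ ?_ ?_ (fun _ => ?_) (fun i hi => ?_) fun i _ _ => ?_)
  · have h1 : Real.log (B' * r) ^ (2 * T.card + 2) ≤ ρ ^ (2 * m + 2) *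
        Real.log B ^ (2 * Nn.card + 2) * (3 * (2 * m + 2).factorial * r) := by
      refine (pow_le_pow_right₀ hL'' (show _ ≤ 2 * Nn.card + 2 by omega)).trans
        ((pow_le_pow_left₀ (by linarith) h3 _).trans ?_)
      rw [mul_pow, mul_pow]
      refine mul_le_mul (mul_le_mul_of_nonneg_right (pow_le_pow_right₀ hρ1 (by omega))
        (by positivity)) ((pow_le_pow_right₀ (by linarith) (by omega)).trans
          (pow_log hr1 (2 * m + 2))) (by positivity) (by positivity)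
    have h2 : r * A' = a o := div_mul_cancel₀ _ (by linarith)
    calc c * (c * Real.log (B' * r) ^ (2 * T.card + 2)) * (A' * Ω₀ * Kp)
        ≤ c * (c * (ρ ^ (2 * m + 2) * Real.log B ^ (2 * Nn.card + 2) *
          (3 * (2 * m + 2).factorial * r))) * (A' * Ω₀ * Kp) := by gcongr
      _ = _ := by rw [← h2]; ring
  · exact le_trans (mul_le_mul_of_nonneg_left (pow_le_pow_right₀ hL'' (by omega)) (by linarith))
      (hK2 _ (hCB.trans hBr)).1
  · refine mul_le_mul hA4 (prod_le_prod_of_subset_of_one_le hTN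
      (fun i hi => by linarith [(hn i (hTN hi)).2.1]) fun i hi _ => (hn i hi).2.1)
      (prod_nonneg fun i hi => by linarith [(hn i (hTN hi)).2.1]) (by positivity)
  · intro i hiσ
    refine le_trans ?_ (le_mul_of_one_le_right (by positivity) hK1)
    by_cases hi : i ∈ insert o Nn
    · exact (hA5 i hiσ hi).trans (le_mul_of_one_le_right (by linarith) hΩ1)
    · exact (hfar i hi).trans (le_mul_of_one_le_left (by linarith) hA1)
  · rw [mul_assoc, mul_comm]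
    exact mul_le_mul ((hΩ.trans hBB).trans hBr) hA3 (by linarith) (by linarith)
  · exact ⟨(hn i (hTN hi)).2.1, (hn i (hTN hi)).2.2.trans
      (mul_le_mul_of_nonneg_right (hBB.trans hBr) (Real.exp_pos _).le)⟩
  · exact (hco e i).trans (mul_le_mul_of_nonneg_left
      (div_le_div_of_nonneg_left (by linarith) (by linarith) hA3) (by linarith))

end Pool.Agent.Lib.MP_4ffbf9_nt.MB
end

-- part Pool.Agent.Lib.MP_4ffbf9_nt.MB.Const
section

/-! Constants. -/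

set_option autoImplicit false

namespace Pool.Agent.Lib.MP_4ffbf9_nt.MB

open Finset Polynomial

namespace Const

theorem big (c : ℝ) (n : ℕ) : ∃ C : ℝ, ∀ B, C ≤ B → c * Real.log B ^ n ≤ B := by
  obtain ⟨C, hC⟩ := Filter.eventually_atTop.1
    (((Real.isLittleO_pow_log_id_atTop (n := n)).const_mul_left c).bound one_pos)
  refine ⟨max C 0, fun B hB => ?_⟩
  have := hC B ((le_max_left _ _).trans hB)
  rw [one_mul, id, Real.norm_eq_abs, Real.norm_eq_abs,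
    abs_of_nonneg ((le_max_right _ _).trans hB)] at this
  exact (le_abs_self _).trans this

theorem le_exp (x : ℝ) : x ≤ Real.exp x := by linarith [Real.add_one_le_exp x]

theorem small (m : ℕ) {K ρ B a : ℝ} (hK : 1 ≤ K) (hρ : ρ = 4 * K * (m + 2)) (hB : 3 ≤ B)
    (h : 4 * K * (2 * m + 5 + (m + 2) * (3 * m + ρ)) * Real.log B ≤ a) :
    B * (3 * m * B * (B * a)) ^ (m + 2) ≤ Real.exp (a / (2 * K)) := by
  have hL : 1 ≤ Real.log B := by
    rw [Real.le_log_iff_exp_le (by linarith)]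
    linarith [Real.exp_one_lt_d9]
  have e : B = Real.exp (Real.log B) := (Real.exp_log (by linarith)).symm
  generalize Real.log B = L at h hL e
  have m0 : (0 : ℝ) ≤ m := Nat.cast_nonneg m
  have r0 : 0 < ρ := by rw [hρ]; positivity
  have a0 : 0 ≤ a := le_trans (by positivity) h
  have h1 : 3 * (m : ℝ) ≤ Real.exp (3 * m * L) :=
    (le_exp _).trans (Real.exp_le_exp.2 (le_mul_of_one_le_right (by positivity) hL))
  have h2 : a ≤ Real.exp (ρ * L + a / ρ) := by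
    rw [Real.exp_add]
    calc a = ρ * (a / ρ) := (mul_div_cancel₀ _ r0.ne').symm
      _ ≤ _ := mul_le_mul ((le_exp _).trans (Real.exp_le_exp.2 (le_mul_of_one_le_right r0.le hL)))
        (le_exp _) (by positivity) (by positivity)
  calc _ ≤ Real.exp L * (Real.exp (3 * m * L) * Real.exp L *
        (Real.exp L * Real.exp (ρ * L + a / ρ))) ^ (m + 2) := by
        rw [e]
        gcongr
    _ = Real.exp ((2 * m + 5 + (m + 2) * (3 * m + ρ)) * L + a / (4 * K)) := by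
        rw [← Real.exp_add, ← Real.exp_add, ← Real.exp_add, ← Real.exp_nat_mul, ← Real.exp_add]
        congr 1
        have : (m + 2) * (a / ρ) = a / (4 * K) := by
          rw [hρ]
          field_simp
        push_cast
        linear_combination this
    _ ≤ _ := by
        refine Real.exp_le_exp.2 ?_
        have h3 : (2 * m + 5 + (m + 2) * (3 * m + ρ)) * L ≤ a / (4 * K) := by
          rw [le_div_iff₀ (by positivity)]
          linarith
        have h4 : a / (2 * K) = a / (4 * K) + a / (4 * K) := by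
          field_simp
          ring
        linarith

end Const

theorem stConst : StConst := by
  intro m K c hK _
  obtain ⟨ρ, hρ⟩ : ∃ ρ : ℝ, ρ = 4 * K * (m + 2) := ⟨_, rfl⟩
  obtain ⟨c', hc⟩ : ∃ c' : ℝ, c' = 4 * K * (2 * m + 5 + (m + 2) * (3 * m + ρ)) := ⟨_, rfl⟩
  obtain ⟨C1, h1⟩ := Const.big c (2 * m + 2)
  obtain ⟨C2, h2⟩ := Const.big (c' ^ (3 * m)) (3 * m)
  refine ⟨c', max (2 ^ (m + 1)) (max C1 C2), ?_, le_max_left _ _, fun B hB => ⟨h1 B ?_, ?_⟩,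
    fun B a hB h => Const.small m hK hρ hB (hc ▸ h)⟩
  · have m0 : (0 : ℝ) ≤ m := Nat.cast_nonneg m
    have r0 : 0 ≤ (m + 2) * (3 * m + ρ) := by rw [hρ]; positivity
    rw [hc]
    exact one_le_mul_of_one_le_of_one_le (by linarith) (by linarith)
  · exact ((le_max_left _ _).trans (le_max_right _ _)).trans hB
  · rw [mul_pow]
    exact h2 B (((le_max_right _ _).trans (le_max_right _ _)).trans hB)

end Pool.Agent.Lib.MP_4ffbf9_nt.MB
end

-- part Pool.Agent.Lib.MP_4ffbf9_nt.MA.Main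
section

/-! The lower bound. -/

set_option autoImplicit false

namespace Pool.Agent.Lib.MP_4ffbf9_nt.MA

open Finset Polynomial MB.MainAux

theorem main0 (hR : StRed) (hC : StCoreS) (d m : ℕ) : ∃ c : ℝ, 0 < c ∧
    ∀ (F : IntermediateField ℚ ℂ) (ι : Type) [Fintype ι] [DecidableEq ι] (dn : ι → ℕ) (ℓ : ι → ℂ)
    (a K : ι → ℝ) (b : ι → ℤ) (o : ι) (Nn : Finset ι) (B : ℝ), Fld F d →
    Fintype.card ι ≤ m → Num F dn ℓ a → o ∉ Nn → 3 ≤ B → (∀ i, |(b i : ℝ)| ≤ B) →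
    (∏ i ∈ (insert o Nn)ᶜ, a i) * ∏ i ∈ Nn, K i ≤ B →
    (∀ i ∈ Nn, a i ≤ a o ∧ 1 ≤ K i ∧ ‖ℓ i‖ ≤ B * Real.exp (-(a i / K i))) →
    ∑ i, (b i : ℂ) * ℓ i ≠ 0 →
    Real.exp (-(c * ((∏ i ∈ Nnᶜ, a i) * ∏ i ∈ Nn, K i) * Real.log B ^ (2 * Nn.card + 2))) ≤
      ‖∑ i, (b i : ℂ) * ℓ i‖ := by
  obtain ⟨c, hc, hC⟩ := hC d m
  obtain ⟨c', C₀, -, hC₀, hK2, -⟩ := MB.stConst m 1 c le_rfl hc
  have hC1 : (1 : ℝ) ≤ C₀ := le_trans (one_le_pow₀ one_le_two) hC₀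
  set ρ := Real.log C₀ + 2 with hρ
  have hρ1 : 1 ≤ ρ := by linarith [Real.log_nonneg hC1]
  refine ⟨c ^ 2 * ρ ^ (2 * m + 2) * (3 * (2 * m + 2).factorial), by positivity, ?_⟩
  intro F ι _ _ dn ℓ a K b o Nn B hF hm hN ho hB hb hΩ hn hΛ
  have ha := hN.one
  set Ω₀ := ∏ i ∈ (insert o Nn)ᶜ, a i with hΩ₀
  set Kp := ∏ i ∈ Nn, K i with hKp
  have hΩ1 : 1 ≤ Ω₀ := one_le_prod fun j _ => ha j
  have hK1 : 1 ≤ Kp := one_le_prod fun j hj => (hn j hj).2.1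
  have hA := ha o
  have hprod : ∏ i ∈ Nnᶜ, a i = a o * Ω₀ := by
    rw [hΩ₀, compl_insert, mul_prod_erase _ _ (mem_compl.2 ho)]
  have hk : Nn.card ≤ m := (card_le_univ _).trans hm
  have hfar : ∀ i, i ∉ insert o Nn → a i ≤ Ω₀ := fun i hi => le_prod ha (mem_compl.2 hi)
  have hnear : ∀ i ∈ insert o Nn, a i ≤ a o := fun i hi => by
    rcases mem_insert.1 hi with rfl | hi
    · exact le_rfl
    · exact (hn i hi).1
  have hΩB : Ω₀ ≤ B := (le_mul_of_one_le_right (by linarith) hK1).trans hΩ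
  have hM : ∀ i, |(((b i : ℚ)) : ℝ)| * a i ≤ B * (B * a o) := fun i => by
    rw [Rat.cast_intCast]
    refine mul_le_mul (hb i) ?_ (by linarith [ha i]) (by linarith)
    by_cases hi : i ∈ insert o Nn
    · exact (hnear i hi).trans (le_mul_of_one_le_left (by linarith) (by linarith))
    · exact ((hfar i hi).trans hΩB).trans (le_mul_of_one_le_right (by linarith) hA)
  obtain ⟨β, hβ, hβM, hI⟩ := hR ι ℓ a (fun i => (b i : ℚ)) _ hN.pos hM
  have hlin : lin ℓ β = ∑ i, (b i : ℂ) * ℓ i := by rw [hβ, lin]; simp only [Rat.cast_intCast]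
  have hG : InG F ℓ β := by
    rw [InG, hβ]
    exact hN.inG_int b
  set σ := univ.filter fun i => β i ≠ 0 with hσ
  have hσm : ∀ i, i ∈ σ ↔ β i ≠ 0 := fun i => by simp [hσ]
  have hβM' : ∀ i, |(β i : ℝ)| * a i ≤ 2 ^ m * (B * (B * a o)) := fun i =>
    (hβM i).trans (mul_le_mul_of_nonneg_right (pow_le_pow_right₀ one_le_two hm) (by positivity))
  have hco : ∀ e i, |(β e : ℝ)| / a i + |(β i : ℝ)| / a e ≤ C₀ * B ^ 2 * (a o / a e) := fun e i => by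
    have h0 := hN.pos e
    refine (coef (ha e) (ha i) (hβM' e) (hβM' i)).trans ?_
    refine (div_le_div_of_nonneg_left (by positivity) h0
      (le_mul_of_one_le_right h0.le (ha i))).trans ?_
    rw [show 2 * (2 ^ m * (B * (B * a o))) / a e = 2 ^ (m + 1) * B ^ 2 * (a o / a e) by ring]
    gcongr
  obtain ⟨e, A', heσ, hA1, hA2, hA3, hA4, hA5⟩ : ∃ (e : ι) (A' : ℝ), e ∈ σ ∧ 1 ≤ A' ∧ A' ≤ a o ∧
      A' ≤ a e ∧ ∏ i ∈ σ \ (σ ∩ Nn).erase e, a i ≤ A' * Ω₀ ∧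
      ∀ i ∈ σ, i ∈ insert o Nn → a i ≤ A' := by
    by_cases hcase : (σ ∩ insert o Nn).Nonempty
    · obtain ⟨e, he, hmax, heo⟩ : ∃ e ∈ σ ∩ insert o Nn, (∀ i ∈ σ ∩ insert o Nn, a i ≤ a e) ∧
          (o ∈ σ → o = e) := by
        by_cases hoσ : o ∈ σ
        · exact ⟨o, mem_inter.2 ⟨hoσ, mem_insert_self _ _⟩, fun i hi => hnear i (mem_inter.1 hi).2,
            fun _ => rfl⟩
        · obtain ⟨e, h1, h2⟩ := exists_max_image _ a hcase
          exact ⟨e, h1, h2, fun h => absurd h hoσ⟩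
      refine ⟨e, a e, (mem_inter.1 he).1, ha e, hnear e (mem_inter.1 he).2, le_rfl, ?_,
        fun i h1 h2 => hmax i (mem_inter.2 ⟨h1, h2⟩)⟩
      have h1 : σ \ (σ ∩ Nn).erase e ⊆ {e} ∪ (insert o Nn)ᶜ := fun i hi => by
        obtain ⟨h2, h3⟩ := mem_sdiff.1 hi
        by_cases hie : i = e
        · exact mem_union_left _ (mem_singleton.2 hie)
        refine mem_union_right _ (mem_compl.2 fun hi2 => h3 (mem_erase.2 ⟨hie, mem_inter.2 ⟨h2,
          (mem_insert.1 hi2).resolve_left fun h => hie (h.trans (heo (h ▸ h2)))⟩⟩))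
      refine (prod_mono ha h1).trans ((prod_union_le _ _ ha).trans_eq ?_)
      rw [prod_singleton]
    · obtain ⟨e, heσ⟩ : σ.Nonempty := by
        by_contra h
        refine hΛ (hlin.symm.trans ?_)
        rw [show β = 0 from funext fun i => by_contra fun h' => h ⟨i, (hσm i).2 h'⟩, lin_zero]
      have hsub : ∀ i ∈ σ, i ∉ insert o Nn := fun i hi h => hcase ⟨i, mem_inter.2 ⟨hi, h⟩⟩
      refine ⟨e, 1, heσ, le_rfl, hA, ha e, ?_, fun i h1 h2 => absurd h2 (hsub i h1)⟩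
      rw [one_mul]
      exact prod_mono ha fun i hi => mem_compl.2 (hsub i (mem_sdiff.1 hi).1)
  set T := (σ ∩ Nn).erase e with hT
  have hTN : T ⊆ Nn := (erase_subset _ _).trans inter_subset_right
  have hcard : T.card ≤ Nn.card := card_le_card hTN
  set r := a o / A' with hr
  have hr1 : 1 ≤ r := (one_le_div (by linarith)).2 hA2
  set B' := C₀ * B ^ 2 with hB'
  have hB2 : 1 ≤ B ^ 2 := one_le_pow₀ (by linarith)
  have hBB : B ≤ B' := (le_self_pow₀ (by linarith) two_ne_zero).trans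
    (le_mul_of_one_le_left (by positivity) hC1)
  have hCB : C₀ ≤ B' := le_mul_of_one_le_right (by linarith) hB2
  have hBr : B' ≤ B' * r := le_mul_of_one_le_right (by linarith) hr1
  have hL := one_le_log hB
  have hL' := one_le_log (hB.trans hBB)
  have hL'' := one_le_log ((hB.trans hBB).trans hBr)
  have hLL : Real.log B' ≤ ρ * Real.log B := by
    rw [hB', Real.log_mul (by linarith) (by linarith), Real.log_pow, hρ]
    push_cast
    nlinarith [Real.log_nonneg hC1]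
  have hlr := Real.log_nonneg hr1
  have h3 : Real.log (B' * r) ≤ ρ * Real.log B * (1 + Real.log r) := by
    rw [Real.log_mul (by linarith) (by linarith)]
    nlinarith
  rw [hprod, ← hlin]
  refine le_trans (Real.exp_le_exp.2 (neg_le_neg ?_)) (hC F ι dn ℓ a K β e σ T (B' * r)
    (c * Real.log (B' * r) ^ (2 * T.card + 2)) (A' * Ω₀ * Kp) hF hm hN hσm hI hG heσ
    (notMem_erase _ _) ((erase_subset _ _).trans inter_subset_left)
    ((hB.trans hBB).trans hBr) le_rfl ?_ ?_ ?_ (fun _ => ?_) (fun i hi => ?_) fun i _ _ => ?_)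
  · have h1 : Real.log (B' * r) ^ (2 * T.card + 2) ≤ ρ ^ (2 * m + 2) *
        Real.log B ^ (2 * Nn.card + 2) * (3 * (2 * m + 2).factorial * r) := by
      refine (pow_le_pow_right₀ hL'' (show _ ≤ 2 * Nn.card + 2 by omega)).trans
        ((pow_le_pow_left₀ (by linarith) h3 _).trans ?_)
      rw [mul_pow, mul_pow]
      refine mul_le_mul (mul_le_mul_of_nonneg_right (pow_le_pow_right₀ hρ1 (by omega))
        (by positivity)) ((pow_le_pow_right₀ (by linarith) (by omega)).trans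
          (pow_log hr1 (2 * m + 2))) (by positivity) (by positivity)
    have h2 : r * A' = a o := div_mul_cancel₀ _ (by linarith)
    calc c * (c * Real.log (B' * r) ^ (2 * T.card + 2)) * (A' * Ω₀ * Kp)
        ≤ c * (c * (ρ ^ (2 * m + 2) * Real.log B ^ (2 * Nn.card + 2) *
          (3 * (2 * m + 2).factorial * r))) * (A' * Ω₀ * Kp) := by gcongr
      _ = _ := by rw [← h2]; ring
  · exact le_trans (mul_le_mul_of_nonneg_left (pow_le_pow_right₀ hL'' (by omega)) (by linarith))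
      (hK2 _ (hCB.trans hBr)).1
  · refine mul_le_mul hA4 (prod_le_prod_of_subset_of_one_le hTN
      (fun i hi => by linarith [(hn i (hTN hi)).2.1]) fun i hi _ => (hn i hi).2.1)
      (prod_nonneg fun i hi => by linarith [(hn i (hTN hi)).2.1]) (by positivity)
  · intro i hiσ
    refine le_trans ?_ (le_mul_of_one_le_right (by positivity) hK1)
    by_cases hi : i ∈ insert o Nn
    · exact (hA5 i hiσ hi).trans (le_mul_of_one_le_right (by linarith) hΩ1)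
    · exact (hfar i hi).trans (le_mul_of_one_le_left (by linarith) hA1)
  · rw [mul_assoc, mul_comm]
    exact mul_le_mul ((hΩ.trans hBB).trans hBr) hA3 (by linarith) (by linarith)
  · exact ⟨(hn i (hTN hi)).2.1, (hn i (hTN hi)).2.2.trans
      (mul_le_mul_of_nonneg_right (hBB.trans hBr) (Real.exp_pos _).le)⟩
  · exact (hco e i).trans (mul_le_mul_of_nonneg_left
      (div_le_div_of_nonneg_left (by linarith) (by linarith) hA3) (by linarith))

end Pool.Agent.Lib.MP_4ffbf9_nt.MA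
end
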