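import Pool.Agent.Lib.MP_4ffbf9_nt.MA.Van

-- part Pool.Agent.Lib.MP_4ffbf9_nt.MA.Num
section

/-! From polynomials to denominators. -/

set_option autoImplicit false

namespace Pool.Agent.Lib.MP_4ffbf9_nt.MA

open Finset Polynomial
open scoped IntermediateField

namespace Num

theorem root {P : ℤ[X]} (h0 : P ≠ 0) {A : ℝ} (hA : ∀ j, |(P.coeff j : ℝ)| ≤ A) {z : ℂ}
    (hz : aeval z P = 0) : ‖z‖ ≤ A + 1 := by
  lift A to NNReal using (abs_nonneg _).trans (hA 0)
  have hi : Function.Injective (algebraMap ℤ ℂ) := Int.cast_injective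
  have h1 := IsRoot.norm_lt_cauchyBound ((Polynomial.map_ne_zero_iff hi).2 h0)
    ((eval_map_algebraMap P z).trans hz)
  have h2 : (range (P.map (algebraMap ℤ ℂ)).natDegree).sup
      (‖(P.map (algebraMap ℤ ℂ)).coeff ·‖₊) ≤ A := Finset.sup_le fun j _ => by
    rw [← NNReal.coe_le_coe, coe_nnnorm, coeff_map]
    exact (Complex.norm_intCast _).trans_le (hA j)
  have h3 : 1 ≤ ‖(P.map (algebraMap ℤ ℂ)).leadingCoeff‖₊ := by
    rw [← NNReal.coe_le_coe, coe_nnnorm, leadingCoeff_map_of_injective hi]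
    refine le_trans ?_ (Complex.norm_intCast _).ge
    rw [NNReal.coe_one]
    exact_mod_cast Int.one_le_abs (leadingCoeff_ne_zero.2 h0)
  exact_mod_cast h1.le.trans (add_le_add ((div_le_self zero_le h3).trans h2) le_rfl)

theorem rev {P : ℤ[X]} {z : ℂ} (h0 : z ≠ 0) (hz : aeval z P = 0) : aeval z⁻¹ P.reverse = 0 := by
  let := invertibleOfNonzero h0
  rw [← invOf_eq_inv]
  exact (eval₂_reverse_eq_zero_iff _ z P).2 hz

theorem int {P : ℤ[X]} {z : ℂ} (hz : aeval z P = 0) {n : ℤ} (hn : P.leadingCoeff ∣ n) :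
    IsIntegral ℤ ((n.natAbs : ℂ) * z) := by
  obtain ⟨w, hw⟩ := Int.dvd_natAbs.2 hn
  rw [← Int.cast_natCast, hw, mul_comm _ w, ← zsmul_eq_mul, mul_smul]
  exact (isIntegral_leadingCoeff_smul P z hz).zsmul w

theorem log_le {P : ℤ[X]} (h0 : P ≠ 0) {a : ℝ} (h1 : 1 ≤ a)
    (hA : ∀ j, |(P.coeff j : ℝ)| ≤ Real.exp a) {z : ℂ} (h : z ≠ 0) (hz : aeval z P = 0) :
    Real.log ‖z‖ ≤ 2 * a := by
  rw [Real.log_le_iff_le_exp (norm_pos_iff.2 h), two_mul, Real.exp_add]
  have := Real.add_one_le_exp a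
  nlinarith [root h0 hA hz]

theorem fld {ι : Type} (D : ℕ) (α : ι → ℂ)
    (h : ∀ i, ∃ P : ℤ[X], P ≠ 0 ∧ P.natDegree ≤ D ∧ aeval (α i) P = 0) (s : Finset ι) :
    ∃ F, Fld F ((D + 1) ^ s.card) ∧ ∀ i ∈ s, α i ∈ F := by
  classical
  induction s using Finset.induction_on with
  | empty => exact ⟨⊥, ⟨inferInstance, by simp⟩, by simp⟩
  | insert i s hi ih =>
    obtain ⟨F, ⟨h1, h2⟩, h3⟩ := ih
    obtain ⟨P, p0, p1, p2⟩ := h i
    have hi' : Function.Injective (algebraMap ℤ ℚ) := Int.cast_injective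
    have q0 := (Polynomial.map_ne_zero_iff hi').2 p0
    have q2 := (aeval_map_algebraMap ℚ (α i) P).trans p2
    have h4 : IsIntegral ℚ (α i) := IsAlgebraic.isIntegral ⟨_, q0, q2⟩
    have := IntermediateField.adjoin.finiteDimensional h4
    refine ⟨F ⊔ ℚ⟮α i⟯, ⟨inferInstance, (IntermediateField.finrank_sup_le _ _).trans ?_⟩,
      fun j hj => ?_⟩
    · rw [card_insert_of_notMem hi, pow_succ, IntermediateField.adjoin.finrank h4]
      exact Nat.mul_le_mul h2 ((natDegree_le_natDegree (minpoly.degree_le_of_ne_zero ℚ _ q0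
        q2)).trans (natDegree_map_le.trans (p1.trans D.le_succ)))
    · rcases mem_insert.1 hj with rfl | hj
      · exact (le_sup_right : _ ≤ F ⊔ _) (IntermediateField.mem_adjoin_simple_self ℚ _)
      · exact (le_sup_left : F ≤ _) (h3 j hj)

end Num

theorem stNum (hG : StGap) : StNum := by
  intro m D
  obtain ⟨δ, h0, hδ⟩ := hG ((D + 1) ^ m)
  have c1 := le_max_left 1 (Real.log 2 / δ)
  refine ⟨(D + 1) ^ m, max 1 (Real.log 2 / δ) * 2, by linarith, fun ι _ ℓ a hm h => ?_⟩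
  choose h1 h2 P p0 p1 p2 p3 using h
  obtain ⟨F, hF, h3⟩ := Num.fld D (fun i => Complex.exp (ℓ i)) (fun i => ⟨_, p0 i, p1 i, p3 i⟩) univ
  replace hF : Fld F ((D + 1) ^ m) := ⟨hF.fin, hF.deg.trans (Nat.pow_le_pow_right D.succ_pos hm)⟩
  have d0 (i : ι) : 0 < ((P i).leadingCoeff * (P i).trailingCoeff).natAbs :=
    Int.natAbs_pos.2 (mul_ne_zero (leadingCoeff_ne_zero.2 (p0 i))
      (trailingCoeff_eq_zero.not.2 (p0 i)))
  have key (r : ℝ) (hr : 2 ≤ r) : Num0 F (fun i => ((P i).leadingCoeff *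
      (P i).trailingCoeff).natAbs) ℓ fun i => r * a i := by
    have e (i : ι) : 2 * a i ≤ r * a i := mul_le_mul_of_nonneg_right hr (by linarith [h1 i])
    refine ⟨d0, fun i => h3 i (mem_univ i), fun i => Num.int (p3 i) (dvd_mul_right _ _),
      fun i => ?_, fun i => le_trans ?_ (e i), fun i σ η hη => le_trans ?_ (e i),
      fun i => by linarith [e i, h1 i, h2 i], fun i => by linarith [e i, h1 i]⟩
    · rw [Complex.exp_neg]
      exact Num.int (Num.rev (Complex.exp_ne_zero _) (p3 i))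
        (by rw [reverse_leadingCoeff]; exact dvd_mul_left _ _)
    · rw [Real.log_le_iff_le_exp (Nat.cast_pos.2 (d0 i)), two_mul, Real.exp_add,
        Nat.cast_natAbs, Int.cast_abs, Int.cast_mul, abs_mul]
      exact mul_le_mul (p2 i _) (p2 i _) (abs_nonneg _) (Real.exp_pos _).le
    · have h3 : aeval (η : ℂ) (P i) = 0 := hη ▸ p3 i
      have h4 : aeval η (P i) = 0 := Subtype.ext
        ((aeval_algHom_apply (algebraMap F ℂ).toIntAlgHom η (P i)).symm.trans h3)
      have h5 : aeval (σ η) (P i) = 0 :=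
        (aeval_algHom_apply σ.toIntAlgHom η (P i)).trans (by rw [h4, map_zero])
      have h6 : σ η ≠ 0 := (map_ne_zero σ).2 fun h => Complex.exp_ne_zero _ (hη.symm.trans
        (congrArg Subtype.val h))
      have h7 := Num.log_le (reverse_eq_zero.not.2 (p0 i)) (h1 i)
        (fun j => by rw [coeff_reverse]; exact p2 i _) (inv_ne_zero h6) (Num.rev h6 h5)
      rw [norm_inv, Real.log_inv] at h7
      exact abs_le.2 ⟨neg_le.1 h7, Num.log_le (p0 i) (h1 i) (p2 i) h6 h5⟩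
  refine ⟨F, _, hF, key _ (by linarith), fun x hx h4 => ?_⟩
  have h5 := mul_le_mul (le_max_right 1 (Real.log 2 / δ)) (hδ F ι _ ℓ _ x hF (key 2 le_rfl) hx h4)
    h0.le (by linarith)
  rw [div_mul_cancel₀ _ h0.ne', mul_sum] at h5
  exact h5.trans_eq (sum_congr rfl fun i _ => by ring)

end Pool.Agent.Lib.MP_4ffbf9_nt.MA
end

-- part Pool.Agent.Lib.MP_4ffbf9_nt.MA.Lat
section

/-! The saturated lattice. -/

set_option autoImplicit false

namespace Pool.Agent.Lib.MP_4ffbf9_nt.MA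

open Finset Polynomial

namespace Lat

variable {ι : Type} [Fintype ι] {F : IntermediateField ℚ ℂ} {dn : ι → ℕ} {ℓ : ι → ℂ} {a : ι → ℝ}

theorem cell {x y r : ℚ} (hr : 0 < r) (h : ⌊x / r⌋ = ⌊y / r⌋) : |(x : ℝ) - y| ≤ r := by
  have h1 := Int.abs_sub_lt_one_of_floor_eq_floor h
  rw [← sub_div, abs_div, abs_of_pos hr, div_lt_one hr] at h1
  exact_mod_cast h1.le

theorem mem_cell {x r : ℚ} {Q : ℕ} (hr : 0 < r) (h : 0 ≤ x) (k : x < Q * r) :
    ⌊x / r⌋ ∈ Ico (0 : ℤ) Q :=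
  mem_Ico.2 ⟨Int.floor_nonneg.2 (div_nonneg h hr.le), Int.floor_lt.2 ((div_lt_iff₀ hr).2 k)⟩

theorem fin {m : ℕ} (hm : Fintype.card ι ≤ m) (h : Num F dn ℓ a) (hi : Ind ℓ) :
    ∃ T : Finset (ι → ℚ), (∀ x, x ∈ T ↔ InG F ℓ x ∧ ∀ i, 0 ≤ x i ∧ x i < 1) ∧
      (T.card : ℝ) ≤ ∏ i, (3 * m * a i) := by
  classical
  have m1 : ι → (1 : ℝ) ≤ m := fun i => Nat.one_le_cast.2 ((Fintype.card_pos_iff.2 ⟨i⟩).trans_le hm)
  have p0 : ∀ i, 0 < 2 * m * a i := fun i => by
    have := h.toNum0.pos i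
    have := m1 i
    positivity
  obtain ⟨Q, q0, q1, q2⟩ : ∃ Q : ι → ℕ, (∀ i, 0 < Q i) ∧ (∀ i, 2 * m * a i ≤ Q i) ∧
      ∀ i, (Q i : ℝ) ≤ 3 * m * a i :=
    ⟨fun i => ⌈2 * m * a i⌉₊, fun i => Nat.ceil_pos.2 (p0 i), fun i => Nat.le_ceil _, fun i => by
      linarith [Nat.ceil_lt_add_one (p0 i).le, one_le_mul_of_one_le_of_one_le (m1 i) (h.one i)]⟩
  have r0 : ∀ i, (0 : ℚ) < (Q i : ℚ)⁻¹ := fun i => inv_pos.2 (Nat.cast_pos.2 (q0 i))
  have h1 : Set.MapsTo (fun (x : ι → ℚ) i => ⌊x i / (Q i : ℚ)⁻¹⌋)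
      {x | InG F ℓ x ∧ ∀ i, 0 ≤ x i ∧ x i < 1} (Fintype.piFinset fun i => Ico (0 : ℤ) (Q i)) :=
    fun x hx => Fintype.mem_piFinset.2 fun i => mem_cell (r0 i) (hx.2 i).1 (by
      rw [mul_inv_cancel₀ (Nat.cast_pos.2 (q0 i)).ne']
      exact (hx.2 i).2)
  have h2 : Set.InjOn (fun (x : ι → ℚ) i => ⌊x i / (Q i : ℚ)⁻¹⌋)
      {x | InG F ℓ x ∧ ∀ i, 0 ≤ x i ∧ x i < 1} := fun x hx y hy e => by_contra fun hn => by
    have k1 := h.gap' hi (hx.1.sub hy.1) (sub_ne_zero.2 hn)
    have k2 := sum_le_card_nsmul univ (fun i => |((x - y) i : ℝ)| * a i) (1 / 2 / m) fun i _ => by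
      have k := cell (r0 i) (congrFun e i)
      have := m1 i
      have := h.toNum0.pos i
      rw [Pi.sub_apply, Rat.cast_sub]
      push_cast at k
      calc _ ≤ (2 * m * a i)⁻¹ * a i := by
            gcongr
            exact k.trans (inv_anti₀ (p0 i) (q1 i))
        _ = _ := by field_simp
    have k3 : (Fintype.card ι : ℝ) * (1 / 2 / m) ≤ 1 / 2 := by
      rw [← mul_div_assoc]
      refine div_le_of_le_mul₀ (Nat.cast_nonneg _) (by norm_num) ?_
      linarith [(Nat.cast_le (α := ℝ)).2 hm]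
    rw [nsmul_eq_mul, card_univ] at k2
    linarith [Real.log_two_gt_d9]
  have h3 := Set.Finite.of_injOn h1 h2 (finite_toSet _)
  refine ⟨h3.toFinset, fun x => h3.mem_toFinset, ?_⟩
  rw [← h3.coe_toFinset] at h1 h2
  have h4 := card_le_card_of_injOn _ h1 h2
  rw [Fintype.card_piFinset] at h4
  refine (Nat.cast_le.2 h4).trans ?_
  rw [Nat.cast_prod]
  exact prod_le_prod (fun _ _ => Nat.cast_nonneg _) fun i _ => by simpa using q2 i

theorem eq_of_int {x y : ℚ} (hx : 0 ≤ x ∧ x < 1) (hy : 0 ≤ y ∧ y < 1) {z : ℤ} (h : x - y = z) :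
    x = y := by
  rw [← Int.fract_eq_self.2 hx, ← Int.fract_eq_self.2 hy]
  exact Int.fract_eq_fract.2 ⟨z, h⟩

theorem den (h : Num F dn ℓ a) {T : Finset (ι → ℚ)}
    (hT : ∀ x, x ∈ T ↔ InG F ℓ x ∧ ∀ i, 0 ≤ x i ∧ x i < 1) : Den F T.card ℓ := by
  classical
  intro x hx i
  have h1 : Set.InjOn (fun (y : ι → ℚ) j => Int.fract (y j + x j)) T := fun y hy z hz e =>
    funext fun j => by
      obtain ⟨n, hn⟩ := Int.fract_eq_fract.1 (congrFun e j)
      exact eq_of_int (((hT y).1 hy).2 j) (((hT z).1 hz).2 j) (z := n) (by linear_combination hn)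
  have h2 : T.image (fun (y : ι → ℚ) j => Int.fract (y j + x j)) = T :=
    eq_of_subset_of_card_le (fun z hz => by
      obtain ⟨y, hy, rfl⟩ := mem_image.1 hz
      exact (hT _).2 ⟨(((hT y).1 hy).1.add hx).sub (h.toNum0.inG_int fun j => ⌊y j + x j⌋),
        fun j => ⟨Int.fract_nonneg _, Int.fract_lt_one _⟩⟩) (card_image_of_injOn h1).ge
  have h3 := sum_image (f := fun y : ι → ℚ => y i) h1
  rw [h2] at h3
  simp only [Int.fract, sum_sub_distrib, sum_add_distrib, sum_const, nsmul_eq_mul] at h3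
  exact ⟨∑ y ∈ T, ⌊y i + x i⌋, by push_cast; linarith⟩

theorem box (h : Num F dn ℓ a) {T : Finset (ι → ℚ)} (h0 : T.Nonempty)
    (hT : ∀ x, x ∈ T → InG F ℓ x ∧ ∀ i, 0 ≤ x i ∧ x i < 1) {H : ℝ} (hH : 0 < H) :
    ∃ P : Finset (ι → ℚ), Pts F ℓ a H P id ∧ (T.card : ℝ) * ∏ i, (H / (2 * a i)) ≤ P.card := by
  classical
  have a0 := h.toNum0.pos
  choose r r1 r2 using fun i => exists_rat_btwn (show H / (2 * a i) < H / a i from
    div_lt_div_of_pos_left hH (a0 i) (by linarith [a0 i]))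
  have r3 : ∀ i, (0 : ℝ) < r i := fun i => (div_pos hH (mul_pos two_pos (a0 i))).trans (r1 i)
  have r0 : ∀ i, 0 < r i := fun i => Rat.cast_pos.1 (r3 i)
  have r4 : ∀ i, ((r i).den : ℚ) * r i = (r i).num := fun i => Rat.den_mul_eq_num _
  have h1 : Set.InjOn (fun (p : (ι → ℚ) × (ι → ℤ)) i => p.1 i + p.2 i)
      ↑(T ×ˢ Fintype.piFinset fun i => Ico (0 : ℤ) (r i).num) := fun p hp q hq e => by
    have k : p.1 = q.1 := funext fun i => eq_of_int ((hT _ (mem_product.1 hp).1).2 i)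
      ((hT _ (mem_product.1 hq).1).2 i) (z := q.2 i - p.2 i)
      (by push_cast; linear_combination congrFun e i)
    refine Prod.ext k (funext fun i => ?_)
    simpa [k] using congrFun e i
  obtain ⟨S, hS, s1⟩ : ∃ S : Finset (ι → ℚ), (S.card : ℝ) = T.card * ∏ i, ((r i).num : ℝ) ∧
      ∀ x ∈ S, InG F ℓ x ∧ ∀ i, 0 ≤ x i ∧ x i < (r i).num := by
    refine ⟨image _ _, (congrArg _ (card_image_of_injOn h1)).trans ?_, fun x hx => ?_⟩
    · rw [card_product, Fintype.card_piFinset, Nat.cast_mul, Nat.cast_prod]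
      refine congrArg _ (prod_congr rfl fun i _ => ?_)
      rw [Int.card_Ico, sub_zero, ← Int.cast_natCast, Int.toNat_of_nonneg (Rat.num_pos.2 (r0 i)).le]
    · obtain ⟨p, hp, rfl⟩ := mem_image.1 hx
      obtain ⟨k1, k2⟩ := hT _ (mem_product.1 hp).1
      refine ⟨k1.add (h.toNum0.inG_int p.2), fun i => ?_⟩
      obtain ⟨k3, k4⟩ := mem_Ico.1 (Fintype.mem_piFinset.1 (mem_product.1 hp).2 i)
      have k5 : (0 : ℚ) ≤ p.2 i := by exact_mod_cast k3
      have k6 : (p.2 i : ℚ) + 1 ≤ (r i).num := by exact_mod_cast k4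
      constructor <;> linarith [(k2 i).1, (k2 i).2]
  obtain ⟨c, -, hc⟩ := exists_le_card_fiber_of_nsmul_le_card_of_maps_to (s := S)
    (t := Fintype.piFinset fun i => Ico (0 : ℤ) (r i).den) (f := fun x i => ⌊x i / r i⌋)
    (b := (T.card : ℝ) * ∏ i, (r i : ℝ)) (fun x hx => Fintype.mem_piFinset.2 fun i =>
      mem_cell (r0 i) ((s1 x hx).2 i).1 (r4 i ▸ ((s1 x hx).2 i).2))
    ⟨0, Fintype.mem_piFinset.2 fun i => mem_Ico.2 ⟨le_rfl, Nat.cast_pos.2 (r i).den_pos⟩⟩ (by
      rw [hS, Fintype.card_piFinset, nsmul_eq_mul, Nat.cast_prod, mul_left_comm, ← prod_mul_distrib]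
      refine le_of_eq (congrArg _ (prod_congr rfl fun i _ => ?_))
      rw [Int.card_Ico, sub_zero, Int.toNat_natCast]
      exact_mod_cast r4 i)
  obtain ⟨x₀, hx₀⟩ := card_pos.1 (Nat.cast_pos.1 ((mul_pos (Nat.cast_pos.2 h0.card_pos)
    (prod_pos fun i _ => r3 i)).trans_le hc))
  have key : ∀ x ∈ S.filter (fun x => (fun i => ⌊x i / r i⌋) = c),
      ∀ y ∈ S.filter (fun x => (fun i => ⌊x i / r i⌋) = c), ∀ i, |(x i : ℝ) - y i| * a i ≤ H :=
    fun x hx y hy i => (le_div_iff₀ (a0 i)).1 ((cell (r0 i)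
      (congrFun ((mem_filter.1 hx).2.trans (mem_filter.1 hy).2.symm) i)).trans (r2 i).le)
  refine ⟨(S.filter fun x => (fun i => ⌊x i / r i⌋) = c).image (· - x₀),
    ⟨fun k hk => ?_, fun _ _ _ _ e => e, fun k hk i => ?_, fun k hk k' hk' i => ?_⟩, ?_⟩
  · obtain ⟨x, hx, rfl⟩ := mem_image.1 hk
    exact (s1 x (mem_filter.1 hx).1).1.sub (s1 x₀ (mem_filter.1 hx₀).1).1
  · obtain ⟨x, hx, rfl⟩ := mem_image.1 hk
    simpa using key x hx x₀ hx₀ i
  · obtain ⟨x, hx, rfl⟩ := mem_image.1 hk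
    obtain ⟨y, hy, rfl⟩ := mem_image.1 hk'
    simpa using key x hx y hy i
  · rw [card_image_of_injective _ sub_left_injective]
    refine le_trans (mul_le_mul_of_nonneg_left (prod_le_prod (fun i _ => ?_)
      fun i _ => (r1 i).le) (Nat.cast_nonneg _)) hc
    exact (div_pos hH (mul_pos two_pos (a0 i))).le

end Lat

theorem stLat : StLat := by
  intro F ι _ m dn ℓ a hm h hi
  obtain ⟨T, hT, k⟩ := Lat.fin hm h hi
  have h0 : T.Nonempty := ⟨0, (hT 0).2 ⟨InG.zero F ℓ, fun _ => ⟨le_rfl, one_pos⟩⟩⟩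
  exact ⟨T.card, h0.card_pos, k, Lat.den h hT, fun H hH => Lat.box h h0 (fun x => (hT x).1) hH⟩

end Pool.Agent.Lib.MP_4ffbf9_nt.MA
end

-- part Pool.Agent.Lib.MP_4ffbf9_nt.MA.Exp
section

/-! Small derivatives. -/

set_option autoImplicit false

namespace Pool.Agent.Lib.MP_4ffbf9_nt.MA

open Finset Polynomial

namespace Exp

variable {ι κ : Type} {P : Finset κ} {c q u ε : κ → ℂ} {y : κ → ι → ℂ} {D D' τ : ι → ℕ}
  {γ : ι → ℂ} {F : Finset ι} {t : ℕ} {ω η : ℝ}

theorem binom {r : ℕ} {M W : ℝ}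
    (h : ∀ m ≤ r, ‖∑ k ∈ P, q k * ε k ^ (r - m) * u k ^ m‖ ≤ M * W ^ m) :
    ‖∑ k ∈ P, q k * (u k + ε k) ^ r‖ ≤ M * (W + 1) ^ r := by
  simp only [add_pow, mul_sum]
  rw [sum_comm]
  refine (norm_sum_le _ _).trans (sum_le_sum fun m hm => ?_)
  have e : ∑ k ∈ P, q k * (u k ^ m * ε k ^ (r - m) * r.choose m) =
      (∑ k ∈ P, q k * ε k ^ (r - m) * u k ^ m) * r.choose m := by
    rw [sum_mul]
    exact sum_congr rfl fun _ _ => by ring
  rw [e, norm_mul, Complex.norm_natCast, one_pow, mul_one, ← mul_assoc]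
  exact mul_le_mul_of_nonneg_right (h m (Nat.lt_succ_iff.1 (mem_range.1 hm))) (Nat.cast_nonneg _)

theorem tail {W : ℝ} {n e : ℕ} (m s : ℕ) (hη : 0 ≤ η) (hu : ∀ k ∈ P, ‖u k‖ ≤ W)
    (hε : ∀ k ∈ P, ‖ε k‖ ≤ 1 ∧ ‖ε k‖ ^ n ≤ η) (he : n ≤ e) :
    ‖∑ k ∈ P, q k * ε k ^ e * u k ^ m‖ ≤ (s + 1) * η * (∑ k ∈ P, ‖q k‖) * W ^ m := by
  have h1 : η ≤ (s + 1) * η := le_mul_of_one_le_left hη (le_add_of_nonneg_left s.cast_nonneg)
  rw [mul_sum, sum_mul]
  refine (norm_sum_le _ _).trans (sum_le_sum fun k hk => ?_)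
  rw [norm_mul, norm_mul, norm_pow, norm_pow, mul_comm ‖q k‖]
  have h2 := ((pow_le_pow_of_le_one (norm_nonneg _) (hε k hk).1 he).trans (hε k hk).2).trans h1
  have h3 := hu k hk
  gcongr

variable [Fintype ι]

theorem van_pow (h : Van P c y D) (j : ι) (g : ℂ) (n : ℕ) (h1 : ∀ i, D' i ≤ D i)
    (h2 : D' j + n ≤ D j) : Van P (fun k => c k * (g * y k j) ^ n) y D' := by
  classical
  intro f hf
  rw [← h (fun i => (if i = j then (C g * X) ^ n else 1) * f i) fun i => ?_]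
  · refine sum_congr rfl fun k _ => ?_
    simp only [eval_mul, prod_mul_distrib, apply_ite (eval _), eval_one, prod_ite_eq', mem_univ,
      if_true, eval_pow, eval_C, eval_X, mul_assoc]
  · split_ifs with e
    · have := natDegree_pow_le_of_le n ((natDegree_C_mul_le g X).trans natDegree_X_le)
      have := natDegree_mul_le (p := (C g * X) ^ n) (q := f i)
      have := hf i
      subst e
      omega
    · rw [one_mul]
      exact (hf i).trans (h1 i)

theorem van_sum (h : Van P c y D) (n : ℕ) : ∀ D' : ι → ℕ, (∀ i, D' i ≤ D i) →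
    (∀ i ∈ F, D' i + n ≤ D i) → Van P (fun k => c k * (∑ i ∈ F, γ i * y k i) ^ n) y D' := by
  classical
  induction n with
  | zero => exact fun D' h1 _ f hf => by simpa using h f fun i => (hf i).trans (h1 i)
  | succ n ih =>
    intro D' h1 h2 f hf
    have k := ih (fun i => if i ∈ F then D' i + 1 else D' i)
      (fun i => by
        split_ifs with e
        · have := h2 i e
          omega
        · exact h1 i)
      fun i e => by
        have := h2 i e
        rw [if_pos e]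
        omega
    simp only [pow_succ, ← mul_assoc]
    simp only [mul_sum _ _ (_ * _ ^ n), sum_mul]
    rw [sum_comm]
    refine sum_eq_zero fun j hj => ?_
    simpa only [pow_one] using van_pow k j (γ j) 1 (fun i => by split_ifs <;> omega)
      (by rw [if_pos hj]) f hf

theorem near (hω : 0 ≤ ω) (hη : 0 ≤ η) (hF : ∀ k ∈ P, ‖∑ i ∈ F, γ i * y k i‖ ≤ ω)
    {f : ι → ℂ[X]} (hf : ∀ i, (f i).natDegree ≤ D' i) (R : Finset ι) : Disjoint F R →
    (∀ k ∈ P, ∀ i ∈ R, ‖γ i * y k i‖ ≤ 1 ∧ ‖γ i * y k i‖ ^ (τ i + 1) ≤ η) →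
    ∀ (c : κ → ℂ) (D : ι → ℕ) (r : ℕ), Van P c y D → (∀ i, D' i ≤ D i) →
    (∀ i ∈ F, D' i + t ≤ D i) → (∀ i ∈ R, D' i + min (τ i) t ≤ D i) → r ≤ t →
    ‖∑ k ∈ P, c k * (∏ i, (f i).eval (y k i)) *
      (∑ i ∈ F, γ i * y k i + ∑ i ∈ R, γ i * y k i) ^ r‖ ≤
      R.card * η * (∑ k ∈ P, ‖c k * ∏ i, (f i).eval (y k i)‖) * (ω + R.card) ^ r := by
  classical
  induction R using Finset.induction_on with
  | empty =>
    intro _ _ c D r h h1 h2 _ hr
    have := van_sum (γ := γ) h r D' h1 (fun i hi => (Nat.add_le_add_left hr _).trans (h2 i hi)) f hf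
    simp only [mul_right_comm (c _) (_ ^ r)] at this
    simp [this]
  | insert a R ha ih =>
    intro hd hR c D r h h1 h2 h3 hr
    rw [disjoint_insert_right] at hd
    have hR' := fun k hk i hi => hR k hk i (mem_insert_of_mem hi)
    simp only [sum_insert ha, card_insert_of_notMem ha, Nat.cast_succ, add_comm (γ a * _),
      ← add_assoc]
    refine binom fun m hm => ?_
    rcases le_or_gt (r - m) (τ a) with e | e
    · have k := ih hd.2 hR' _ _ m (van_pow (D' := Function.update D a (D' a)) h a (γ a) (r - m)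
        (fun i => by
          rcases eq_or_ne i a with rfl | e
          · simpa using h1 i
          · rw [Function.update_of_ne e])
        (by
          have := h3 a (mem_insert_self _ _)
          rw [Function.update_self]
          omega))
        (fun i => by
          rcases eq_or_ne i a with rfl | e
          · simp
          · simpa [e] using h1 i)
        (fun i hi => by simpa [ne_of_mem_of_not_mem hi hd.1] using h2 i hi)
        (fun i hi => (h3 i (mem_insert_of_mem hi)).trans_eq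
          (Function.update_of_ne (ne_of_mem_of_not_mem hi ha) _ _).symm) (hm.trans hr)
      simp only [mul_right_comm (c _) (_ ^ (r - m))] at k
      refine k.trans (mul_le_mul_of_nonneg_right (mul_le_mul (mul_le_mul_of_nonneg_right
        (le_add_of_nonneg_right zero_le_one) hη) (sum_le_sum fun k hk => ?_) (by positivity)
        (by positivity)) (by positivity))
      rw [norm_mul, norm_pow]
      exact mul_le_of_le_one_right (norm_nonneg _)
        (pow_le_one₀ (norm_nonneg _) (hR k hk a (mem_insert_self _ _)).1)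
    · refine tail m _ hη (fun k hk => (norm_add_le _ _).trans (add_le_add (hF k hk)
        ((norm_sum_le _ _).trans ?_))) (fun k hk => hR k hk a (mem_insert_self _ _)) e
      simpa using sum_le_card_nsmul R _ 1 fun i hi => (hR' k hk i hi).1

end Exp

theorem stExp : StExp := by
  intro ι κ _ P c w δ y γ F Nn D D' τ t r ω η f h hd hw h1 h2 h3 hω hη hF hN hδ hr hf
  rw [sum_congr rfl fun k hk => by rw [hw k hk]]
  refine Exp.binom fun m hm => ?_
  rcases hm.eq_or_lt with rfl | e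
  · simp only [Nat.sub_self, pow_zero, mul_one]
    refine (Exp.near hω hη hF hf Nn hd hN c D m h h1 h2 h3 hr).trans ?_
    gcongr
    exact le_add_of_nonneg_right zero_le_one
  · refine Exp.tail (n := 1) m _ hη (fun k hk => (norm_add_le _ _).trans
      (add_le_add (hF k hk) ((norm_sum_le _ _).trans ?_)))
      (fun k hk => by simpa using hδ k hk) (by omega)
    simpa using sum_le_card_nsmul Nn _ 1 fun i hi => (hN k hk i hi).1

end Pool.Agent.Lib.MP_4ffbf9_nt.MA
end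

-- part Pool.Agent.Lib.MP_4ffbf9_nt.MA.Step
section

/-! One step of the descent. -/

set_option autoImplicit false

namespace Pool.Agent.Lib.MP_4ffbf9_nt.MA

open Finset Polynomial

namespace Step

variable {ι : Type} [Fintype ι]

theorem half_iff {F : IntermediateField ℚ ℂ} {ℓ : ι → ℂ} {x x' : ι → ℚ} (hx : InG F ℓ x)
    (hx' : InG F ℓ x') (j : ℕ) {A : ℂ} (hA : A ≠ 0) : (InG F ℓ fun i => (x i - x' i) / 2) ↔
      A * Complex.exp ((2 * j + 1) / 2 * lin ℓ x) /
        (A * Complex.exp ((2 * j + 1) / 2 * lin ℓ x')) ∈ F := by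
  rw [InG, lin_half, mul_div_mul_left _ _ hA, ← Complex.exp_sub]
  have h1 := pow_mem (hx.sub hx') j
  rw [← Complex.exp_nat_mul, lin_sub] at h1
  rw [show (2 * j + 1) / 2 * lin ℓ x - (2 * j + 1) / 2 * lin ℓ x' =
    j * (lin ℓ x - lin ℓ x') + (lin ℓ x - lin ℓ x') / 2 by ring, Complex.exp_add]
  exact ⟨mul_mem h1, fun h => by
    simpa only [inv_mul_cancel_left₀ (Complex.exp_ne_zero _)] using mul_mem (inv_mem h1) h⟩

omit [Fintype ι] in
theorem gamma_yy {N : ℕ} (hN : 1 ≤ N) (ℓ : ι → ℂ) {β : ι → ℚ} {e : ι} (he : β e ≠ 0) (r : ℂ)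
    (x : ι → ℚ) (i : ι) : ℓ i / ((N : ℂ) ^ 2 * β e) / r * yy N β e x i =
      ℓ i * ((x i : ℂ) - β i * x e / β e) / r := by
  have h1 : (N : ℂ) ≠ 0 := Nat.cast_ne_zero.2 (by omega)
  have h2 : (β e : ℂ) ≠ 0 := Rat.cast_ne_zero.2 he
  rw [yy, div_mul_eq_mul_div]
  congr 1
  field_simp

theorem lin_split [DecidableEq ι] (ℓ : ι → ℂ) {β : ι → ℚ} {e : ι} (he : β e ≠ 0)
    (Nn : Finset ι) (r : ℂ) (x : ι → ℚ) :
    lin ℓ x / r = ∑ i ∈ Nnᶜ.erase e, ℓ i * ((x i : ℂ) - β i * x e / β e) / r +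
      ∑ i ∈ Nn, ℓ i * ((x i : ℂ) - β i * x e / β e) / r + (x e : ℂ) / β e * lin ℓ β / r := by
  have h2 : (β e : ℂ) ≠ 0 := Rat.cast_ne_zero.2 he
  rw [sum_erase _ (by rw [mul_div_cancel_left₀ _ h2, sub_self, mul_zero, zero_div]),
    sum_compl_add_sum, lin, lin, mul_sum, sum_div, sum_div, ← sum_add_distrib]
  exact sum_congr rfl fun i _ => by ring

theorem final {d m : ℕ} {g c st sx A s : ℝ} (hg : 1 ≤ g) (hc : (cc d m : ℝ) ≤ c)
    (h1 : c * g ≤ st) (h2 : st ≤ (c + 2 * m) * g) (h3 : sx ≤ m * g)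
    (hA : A ≤ Real.exp (3 * m * g)) (hs : s ≤ Real.exp ((5 * m + 8) * g)) (h0 : 0 ≤ s) :
    A * (Real.exp ((8 * m + 8 - 10 * c) * g) * Real.exp (8 * st) + s * Real.exp (8 * sx - st)) *
      Real.exp ((10 * m + 8) * g) ^ (d * 2 ^ 2 ^ m) < 1 := by
  rw [cc] at hc
  push_cast at hc
  have hm : (0 : ℝ) ≤ m := Nat.cast_nonneg m
  rw [← Real.exp_nat_mul]
  push_cast
  have hd : (0 : ℝ) ≤ d * 2 ^ 2 ^ m * (10 * m + 8) := by positivity
  rw [← mul_assoc (d * 2 ^ 2 ^ m : ℝ)]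
  generalize (d : ℝ) * 2 ^ 2 ^ m * (10 * m + 8) = b at hc hd
  have h4 : Real.exp (3 * m * g) * (Real.exp ((8 * m + 8 - 10 * c) * g) * Real.exp (8 * st)) *
      Real.exp (b * g) ≤ Real.exp (-1) := by
    simp only [← Real.exp_add]
    refine Real.exp_le_exp.2 ?_
    have : (27 * m + 8 - 2 * c + b) * g ≤ -1 * g :=
      mul_le_mul_of_nonneg_right (by nlinarith [sq_nonneg (m : ℝ)]) (by linarith)
    linarith
  have h5 : Real.exp (3 * m * g) * (Real.exp ((5 * m + 8) * g) * Real.exp (8 * sx - st)) *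
      Real.exp (b * g) ≤ Real.exp (-1) := by
    simp only [← Real.exp_add]
    refine Real.exp_le_exp.2 ?_
    have : (16 * m + 8 - c + b) * g ≤ -1 * g :=
      mul_le_mul_of_nonneg_right (by nlinarith [sq_nonneg (m : ℝ)]) (by linarith)
    linarith
  have h6 : Real.exp (-1) < 1 / 2 := by
    rw [Real.exp_neg, one_div]
    exact inv_strictAnti₀ two_pos (by linarith [Real.add_one_lt_exp (x := 1) one_ne_zero])
  calc _ ≤ Real.exp (3 * m * g) * (Real.exp ((8 * m + 8 - 10 * c) * g) * Real.exp (8 * st) +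
        Real.exp ((5 * m + 8) * g) * Real.exp (8 * sx - st)) * Real.exp (b * g) := by gcongr
    _ < 1 := by
      rw [mul_add, add_mul]
      linarith

end Step

theorem stStep (hI : StInterp) (hK : StKL) (hD : StDen) (hC : StCls) (hV : StVan)
    (hE : StExp) : StStep := by
  intro F ι κ _ d m N dn ℓ a β e Nn P lam p S t D D' τ x g c hX heN hP hvan hg hag hx0 hS hc hct
    htc h4t hp hbin hDD hDF hDN hnear hdel k₀ hk₀ P' hP' j hj
  classical
  have hN := hX.num.toNum0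
  have hm : (1 : ℝ) ≤ m := Nat.one_le_cast.2 hX.m_pos
  have hx := hx0.le
  have hxn : ‖(x : ℂ)‖ = x := Complex.norm_of_nonneg hx
  have hg0 : 0 ≤ g := by linarith
  have hc0 : 0 ≤ c := (Nat.cast_nonneg _).trans hc
  have hmx : 0 ≤ m * x := by positivity
  have ht : 1 ≤ t := Nat.cast_pos.1 (show (0 : ℝ) < t by nlinarith)
  have hl : ∀ k ∈ P, ‖lin ℓ (lam k)‖ ≤ m * x := fun k hk =>
    hN.norm_lin_le hX.card hx (hP.box k hk)
  have hcard : (Nn.card : ℝ) + 1 ≤ m := by
    have := (card_insert_of_notMem heN).ge.trans ((card_le_univ _).trans hX.card)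
    exact_mod_cast this
  have hz0 : (0 : ℝ) ≤ (2 * j + 1) / 2 := by positivity
  have hj' : (2 * j + 1 : ℝ) ≤ 4 * S := by exact_mod_cast (show 2 * j + 1 ≤ 4 * S by omega)
  have hz1 : ((2 * j + 1) / 2 : ℝ) ≤ 2 * S := by linarith
  suffices H : Van P' (fun k => (p k : ℂ) * Complex.exp ((2 * j + 1) / 2 * lin ℓ (lam k)))
      (fun k => yy N β e (lam k)) D' by
    convert (hV ι κ P' _ _ D').2 H (Complex.exp (-((2 * j + 1) / 2 * lin ℓ (lam k₀)))) (1 / 2)
      (fun i => -(yy N β e (lam k₀) i / 2)) using 2 with k k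
    · rw [lin_half, mul_left_comm, ← Complex.exp_add]
      congr 2
      ring
    · funext i
      simp only [yy]
      push_cast
      ring
  refine (hV ι κ P' _ _ D').1 fun n hn => ?_
  obtain ⟨q, hq⟩ : ∃ q : κ → ℤ, ∀ k ∈ P,
      (q k : ℂ) = p k * ∏ i, bin (yy N β e (lam k) i) (n i) := by
    have : ∀ k, ∃ q : ℤ, k ∈ P → (q : ℂ) = p k * ∏ i, bin (yy N β e (lam k) i) (n i) := by
      intro k
      by_cases hk : k ∈ P
      · choose z hz using hX.yy_int (hP.mem k hk)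
        choose b hb using fun i => bin_int (z i) (n i)
        refine ⟨p k * ∏ i, b i, fun _ => ?_⟩
        push_cast
        simp only [hz, hb]
      · exact ⟨0, fun h => absurd h hk⟩
    choose q hq using this
    exact ⟨q, hq⟩
  have hqs : ∑ k ∈ P, ‖(q k : ℂ)‖ ≤ Real.exp ((5 * m + 8) * g) := by
    rw [show (5 * m + 8) * g = (5 * m + 7) * g + g by ring, Real.exp_add]
    refine le_trans ?_ (mul_le_mul_of_nonneg_right hp (Real.exp_pos _).le)
    rw [sum_mul]
    refine sum_le_sum fun k hk => ?_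
    rw [hq k hk, norm_mul, Complex.norm_intCast]
    exact mul_le_mul_of_nonneg_left (hbin k hk n hn) (abs_nonneg _)
  have hη : Real.exp (-(10 * c * g)) ≤ 1 := Real.exp_le_one_iff.2 (neg_nonpos.2 (by positivity))
  have hnear' : ∀ k ∈ P, ∀ i ∈ Nn, ‖ℓ i * ((lam k i : ℂ) - β i * lam k e / β e) / x‖ ≤ 1 ∧
      ‖ℓ i * ((lam k i : ℂ) - β i * lam k e / β e) / x‖ ^ (τ i + 1) ≤
        Real.exp (-(10 * c * g)) := fun k hk i hi => by
    have h1 := hnear k hk i hi
    rw [← Real.norm_eq_abs, ← Complex.norm_real] at h1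
    push_cast at h1
    rwa [norm_div, norm_mul, hxn]
  have hdel' : ∀ k ∈ P, ‖(lam k e : ℂ) / β e * lin ℓ β / x‖ ≤ Real.exp (-(10 * c * g)) :=
    fun k hk => by
    have h1 := hdel k hk
    rw [← Real.norm_eq_abs, ← Complex.norm_real] at h1
    push_cast at h1
    rwa [norm_div, norm_mul, hxn]
  have hder : ∀ j' < S, ∀ r < t,
      ‖∑ k ∈ P, (q k : ℂ) * Complex.exp ((2 * j' + 1) * lin ℓ (lam k)) * lin ℓ (lam k) ^ r‖ ≤
        Real.exp ((8 * m + 8 - 10 * c) * g) * (4 * t) ^ r := fun j' hj' r hr => by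
    have hγ := Step.gamma_yy hX.one ℓ hX.ne x
    have hs := Step.lin_split ℓ hX.ne Nn x
    have h1 := hE ι κ P _ (fun k => lin ℓ (lam k) / x)
      (fun k => (lam k e : ℂ) / β e * lin ℓ β / x) _
      (fun i => ℓ i / ((N : ℂ) ^ 2 * β e) / x) (Nnᶜ.erase e) Nn D D' τ t r (2 * m)
      (Real.exp (-(10 * c * g))) (fun i => binP (n i)) (hvan j' hj')
      (disjoint_left.2 fun i hi => mem_compl.1 (mem_of_mem_erase hi))
      (fun k _ => by simpa only [hγ] using hs (lam k)) hDD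
      (fun i hi => hDF i (mem_compl.1 (mem_of_mem_erase hi)) (ne_of_mem_erase hi)) hDN
      (by positivity) (Real.exp_pos _).le (fun k hk => by
        simp only [hγ]
        have h3 : ‖∑ i ∈ Nn, ℓ i * ((lam k i : ℂ) - β i * lam k e / β e) / x‖ ≤ Nn.card :=
          (norm_sum_le _ _).trans ((sum_le_card_nsmul _ _ 1 fun i hi =>
            (hnear' k hk i hi).1).trans_eq (by simp))
        have h4 := (hdel' k hk).trans hη
        have h5 : ‖lin ℓ (lam k) / x‖ ≤ m := by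
          rw [norm_div, hxn, div_le_iff₀ hx0]
          exact hl k hk
        rw [eq_sub_of_add_eq (eq_sub_of_add_eq (hs (lam k)).symm)]
        refine (norm_sub_le_of_le (norm_sub_le_of_le h5 h4) h3).trans ?_
        linarith)
      (fun k hk i hi => by simpa only [hγ] using hnear' k hk i hi)
      (fun k hk => ⟨(hdel' k hk).trans hη, hdel' k hk⟩) hr.le
      (fun i => (natDegree_binP _).trans_le (hn i))
    have h2 : ∀ k ∈ P, (p k : ℂ) * Complex.exp ((2 * j' + 1) * lin ℓ (lam k)) *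
        ∏ i, (binP (n i)).eval (yy N β e (lam k) i) =
        q k * Complex.exp ((2 * j' + 1) * lin ℓ (lam k)) := fun k hk => by
      simp only [eval_binP, hq k hk]
      ring
    rw [sum_congr rfl fun k hk => congrArg (· * (lin ℓ (lam k) / x) ^ r) (h2 k hk),
      sum_congr rfl fun k hk => congrArg (‖·‖) (h2 k hk)] at h1
    simp only [div_pow, ← mul_div_assoc] at h1
    rw [← sum_div, norm_div, norm_pow, hxn, div_le_iff₀ (pow_pos hx0 r), mul_assoc,
      ← mul_pow] at h1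
    refine h1.trans ?_
    have h3 : ∑ k ∈ P, ‖(q k : ℂ) * Complex.exp ((2 * j' + 1) * lin ℓ (lam k))‖ ≤
        Real.exp ((5 * m + 8) * g) * Real.exp (2 * m * g) := by
      refine le_trans ?_ (mul_le_mul_of_nonneg_right hqs (Real.exp_pos _).le)
      rw [sum_mul]
      refine sum_le_sum fun k hk => ?_
      rw [norm_mul]
      refine mul_le_mul_of_nonneg_left ((Complex.norm_exp_le_exp_norm _).trans
        (Real.exp_le_exp.2 ?_)) (norm_nonneg _)
      have h6 : ‖(2 * j' + 1 : ℂ)‖ ≤ 2 * S := by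
        rw [show (2 * j' + 1 : ℂ) = (2 * j' + 1 : ℕ) by push_cast; rfl, Complex.norm_natCast]
        exact_mod_cast (show 2 * j' + 1 ≤ 2 * S by omega)
      rw [norm_mul]
      refine (mul_le_mul h6 (hl k hk) (norm_nonneg _) (by positivity)).trans ?_
      nlinarith
    have h4 : (Nn.card : ℝ) + 1 ≤ Real.exp (m * g) :=
      hcard.trans (by nlinarith [Real.add_one_le_exp (m * g)])
    have h5 : (2 * m + Nn.card + 1) * x ≤ 4 * (t : ℝ) := by nlinarith
    calc _ ≤ Real.exp (m * g) * Real.exp (-(10 * c * g)) *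
          (Real.exp ((5 * m + 8) * g) * Real.exp (2 * m * g)) * (4 * t) ^ r := by gcongr
      _ = _ := by
        simp only [← Real.exp_add]
        congr 2
        ring
  have hint := hI κ P (fun k => q k) (fun k => lin ℓ (lam k)) S t (m * x) _ _ ht hmx
    (Real.exp_pos _).le hl hz0 hz1 hder
  push_cast at hint
  obtain ⟨cl, hcl⟩ := hC F ι m N ℓ hX.card hX.one hX.den
  have hA1 := hN.prod_le hX.card hg0 hag
  have hA0 : 0 < ∏ i, (dn i : ℝ) ^ ⌈2 * g / a i⌉₊ := prod_pos fun i _ =>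
    pow_pos (Nat.cast_pos.2 (hN.hd i)) _
  have hA2 : ∀ k ∈ P, Sm F ((((∏ i, (dn i : ℝ) ^ ⌈2 * g / a i⌉₊ : ℝ) : ℂ) *
      Complex.exp ((2 * j + 1) / 2 * lin ℓ (lam k))) ^ 2) (Real.exp (5 * m * g) ^ 2) :=
    fun k hk => by
    have h5 : ∀ i, |(((((2 * j + 1 : ℤ) : ℚ) • lam k) i : ℚ) : ℝ)| * a i ≤ 4 * g := fun i => by
      have h1 := hN.pos i
      simp only [Pi.smul_apply, smul_eq_mul]
      push_cast
      rw [abs_mul, abs_of_nonneg (by positivity), mul_assoc]
      refine (mul_le_mul hj' (hP.box k hk i) (by positivity) (by positivity)).trans ?_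
      linarith
    have hz := (hD F ι dn ℓ a _ (fun i => ⌈2 * g / a i⌉₊ * 2) (4 * m * g) hN
      ((hP.mem k hk).zsmul (2 * j + 1)) (fun i => by
        have h1 := hN.pos i
        have h3 := Nat.le_ceil (2 * g / a i)
        rw [div_le_iff₀ h1] at h3
        refine le_of_mul_le_mul_right ((h5 i).trans ?_) h1
        push_cast
        linarith) ((sum_le_card_nsmul _ _ _ fun i _ => h5 i).trans (by
          have h1 : (Fintype.card ι : ℝ) ≤ m := Nat.cast_le.2 hX.card
          rw [nsmul_eq_mul, card_univ]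
          nlinarith))).1
    simp only [pow_mul, prod_pow] at hz
    convert hz.mono (H' := Real.exp (5 * m * g) ^ 2) ?_ using 1
    · rw [mul_pow, ← Complex.exp_nat_mul, lin_smul]
      push_cast
      congr 2
      ring
    · refine (mul_le_mul_of_nonneg_right (pow_le_pow_left₀ hA0.le hA1 2)
        (Real.exp_pos _).le).trans_eq ?_
      simp only [← Real.exp_nat_mul, ← Real.exp_add]
      congr 1
      push_cast
      ring
  generalize ∏ i, (dn i : ℝ) ^ ⌈2 * g / a i⌉₊ = A at hA0 hA1 hA2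
  have hA3 : (A : ℂ) ≠ 0 := Complex.ofReal_ne_zero.2 hA0.ne'
  have h0 := hK F d κ P (2 ^ m) (fun k => cl (lam k)) q
    (fun k => A * Complex.exp ((2 * j + 1) / 2 * lin ℓ (lam k))) _ (Real.exp ((10 * m + 8) * g))
    hX.fld (fun k _ => mul_ne_zero hA3 (Complex.exp_ne_zero _)) (Real.exp_pos _).le hA2
    (fun k hk l hl h => (Step.half_iff (hP.mem k hk) (hP.mem l hl) j hA3).1
      (hcl _ _ (hP.mem k hk) (hP.mem l hl) h))
    (Real.one_le_exp (by positivity)) (by
      rw [show (10 * m + 8) * g = (5 * m + 8) * g + 5 * m * g by ring, Real.exp_add]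
      simp only [Complex.norm_intCast] at hqs
      exact mul_le_mul_of_nonneg_right hqs (Real.exp_pos _).le) (by
      refine lt_of_le_of_lt ?_ (Step.final (sx := S * (m * x)) hg hc hct htc (by nlinarith) hA1 hqs
        (sum_nonneg fun k _ => norm_nonneg _))
      refine mul_le_mul_of_nonneg_right ?_ (by positivity)
      simp only [mul_left_comm _ (A : ℂ)]
      rw [← mul_sum, norm_mul, Complex.norm_of_nonneg hA0.le]
      exact mul_le_mul_of_nonneg_left hint hA0.le) k₀ hk₀ P' fun k => (hP' k).trans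
        (and_congr_right fun hk => Step.half_iff (hP.mem k hk) (hP.mem k₀ hk₀) j hA3)
  simp only [mul_left_comm _ (A : ℂ)] at h0
  rw [← mul_sum, mul_eq_zero] at h0
  refine Eq.trans (sum_congr rfl fun k hk => ?_) (h0.resolve_left hA3)
  rw [hq k ((hP' k).1 hk).1]
  ring

end Pool.Agent.Lib.MP_4ffbf9_nt.MA
end

-- part Pool.Agent.Lib.MP_4ffbf9_nt.MA.Start
section

/-! The auxiliary function. -/

set_option autoImplicit false

namespace Pool.Agent.Lib.MP_4ffbf9_nt.MA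

open Finset Polynomial

theorem stStart (hS : StSiegel) (hD : StDen) (hV : StVan) : StStart := by
  intro F ι κ _ d m N dn ℓ a β e P₀ lam S D x g hc hP hS1 hg ha hx hSx hcard hE hb
  classical
  obtain ⟨P₁, p1, p2⟩ := exists_subset_card_eq hcard
  have hn := hc.num.toNum0
  have d0 : (∏ i, (dn i : ℂ) ^ ⌈2 * g / a i⌉₊) ≠ 0 := prod_ne_zero_iff.2 fun i _ =>
    pow_ne_zero _ (Nat.cast_ne_zero.2 (hn.hd i).ne')
  have d1 := hn.prod_le hc.card (by linarith : (0 : ℝ) ≤ g) ha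
  have hj : ∀ j : Fin S, (2 * (j : ℕ) + 1 : ℝ) * x ≤ 2 * g := fun j => by
    have : ((j : ℕ) : ℝ) + 1 ≤ S := by exact_mod_cast j.2
    nlinarith
  have g0 : (0 : ℝ) ≤ m * g := by positivity
  have ex : ∀ (r : Fin S × ∀ i, Fin (D i + 1)), ∀ k ∈ P₁,
      Sm F ((∏ i, bin (yy N β e (lam k) i) (r.2 i)) * ((∏ i, (dn i : ℂ) ^ ⌈2 * g / a i⌉₊) *
        Complex.exp ((2 * (r.1 : ℕ) + 1) * lin ℓ (lam k)))) (Real.exp ((5 * m + 1) * g)) := by
    intro r k hk1
    have hk := hP.mem k (p1 hk1)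
    have hbox : ∀ i, |(((((2 * (r.1 : ℕ) + 1 : ℕ) : ℤ) : ℚ) • lam k) i : ℝ)| * a i ≤ 2 * g :=
      fun i => by
      rw [Pi.smul_apply, smul_eq_mul]
      push_cast
      rw [abs_mul, abs_of_nonneg (by positivity), mul_assoc]
      exact (mul_le_mul_of_nonneg_left (hP.box k (p1 hk1) i) (by positivity)).trans (hj r.1)
    have h1 := (hD F ι dn ℓ a _ (fun i => ⌈2 * g / a i⌉₊) (2 * m * g) hn
      (hk.zsmul (2 * (r.1 : ℕ) + 1 : ℕ)) (fun i => by
        refine le_trans ?_ (Nat.le_ceil _)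
        rw [le_div_iff₀ (hn.pos i)]
        exact hbox i) (by
        refine (sum_le_card_nsmul _ _ _ fun i _ => hbox i).trans ?_
        rw [nsmul_eq_mul, card_univ]
        have : (Fintype.card ι : ℝ) ≤ m := Nat.cast_le.2 hc.card
        nlinarith)).1
    rw [lin_smul] at h1
    push_cast at h1
    choose y hy using hc.yy_int hk
    choose n hn' using fun i => bin_int (y i) (r.2 i)
    have h2 : ∏ i, bin (yy N β e (lam k) i) (r.2 i) = ((∏ i, n i : ℤ) : ℂ) := by
      push_cast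
      simp only [hy, hn']
    have h3 := hb k (p1 hk1) (fun i => r.2 i) fun i => Nat.lt_succ_iff.1 (r.2 i).2
    rw [h2] at h3 ⊢
    refine ((Sm.int F _).mul h1).mono ?_
    rw [show (5 * m + 1) * g = g + (3 * m * g + 2 * m * g) by ring, Real.exp_add, Real.exp_add]
    exact mul_le_mul h3 (mul_le_mul_of_nonneg_right d1 (by positivity)) (by positivity)
      (by positivity)
  have c1 : Fintype.card (Fin S × ∀ i, Fin (D i + 1)) = S * ∏ i, (D i + 1) := by simp
  have hd1 := hc.fld.one_le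
  obtain ⟨p, t0, t2, t1⟩ := hS F d (Fin S × ∀ i, Fin (D i + 1)) κ P₁ _ _ hc.fld
    (Real.one_le_exp (by positivity)) ex (card_pos.1 (by rw [p2]; positivity))
    (by rw [c1, p2])
  rw [p2] at t2
  refine ⟨P₁.filter fun k => p k ≠ 0, p, (filter_subset _ _).trans p1, ?_,
    fun k hk => (mem_filter.1 hk).2, ?_, fun j hj => (hV ι κ _ _ _ D).1 fun n hn' => ?_⟩
  · obtain ⟨k, hk, hk0⟩ := t0
    exact ⟨k, mem_filter.2 ⟨hk, hk0⟩⟩
  · have h6 : (6 : ℝ) ≤ Real.exp (2 * g) := by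
      have h1 := Real.exp_one_gt_d9
      have h2 : Real.exp 1 ≤ Real.exp g := Real.exp_le_exp.2 hg
      rw [two_mul, Real.exp_add]
      nlinarith
    refine (sum_le_card_nsmul _ _
      (Real.exp (2 * g) * Real.exp (2 * g) * Real.exp ((5 * m + 1) * g)) fun k hk => ?_).trans ?_
    · exact (t2 k (mem_filter.1 hk).1).trans (mul_le_mul_of_nonneg_right
        (mul_le_mul h6 hE (by positivity) (by positivity)) (by positivity))
    · rw [nsmul_eq_mul, show (5 * m + 7) * g = 2 * g + (2 * g + 2 * g + (5 * m + 1) * g) by ring,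
        Real.exp_add, Real.exp_add, Real.exp_add]
      exact mul_le_mul_of_nonneg_right
        ((Nat.cast_le.2 ((card_filter_le _ _).trans p2.le)).trans hE) (by positivity)
  · have h1 := t1 (⟨j, hj⟩, fun i => ⟨n i, Nat.lt_succ_of_le (hn' i)⟩)
    rw [sum_filter_of_ne (p := fun k => p k ≠ 0)
      fun k _ h h0 => h (by rw [h0, Int.cast_zero, zero_mul, zero_mul])]
    refine (mul_eq_zero.1 ?_).resolve_left d0
    rw [← h1, mul_sum]
    exact sum_congr rfl fun k _ => by ring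

end Pool.Agent.Lib.MP_4ffbf9_nt.MA
end

-- part Pool.Agent.Lib.MP_4ffbf9_nt.MA.Sep
section

/-! Separation of the values of some coordinates. -/

set_option autoImplicit false

namespace Pool.Agent.Lib.MP_4ffbf9_nt.MA

open Finset Polynomial

theorem Sep.lagr (y c : ℂ) (hc : c ≠ 0) (R : ℕ) : ∃ L : ℂ[X], L.natDegree ≤ 2 * R ∧
    L.eval y = 1 ∧ ∀ z : ℤ, z ≠ 0 → |z| ≤ R → L.eval (y + c * z) = 0 := by
  refine ⟨∏ n ∈ (Icc (-(R : ℤ)) R).erase 0, (1 - C (c * n)⁻¹ * (X - C y)), ?_, ?_,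
    fun z h0 h1 => ?_⟩
  · refine (natDegree_prod_le _ _).trans ((sum_le_card_nsmul _ _ 1 fun n _ => ?_).trans ?_)
    · compute_degree
    · rw [card_erase_of_mem (by simp), Int.card_Icc, smul_eq_mul]
      omega
  · simp [eval_prod]
  · rw [eval_prod]
    refine prod_eq_zero (mem_erase.2 ⟨h0, mem_Icc.2 (abs_le.1 h1)⟩) ?_
    have : (z : ℂ) ≠ 0 := Int.cast_ne_zero.2 h0
    simp only [eval_sub, eval_one, eval_mul, eval_C, eval_X, add_sub_cancel_left]
    rw [inv_mul_cancel₀ (mul_ne_zero hc this), sub_self]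

theorem Sep.yy_sub {ι : Type} (N : ℕ) (β : ι → ℚ) (e : ι) (x x' : ι → ℚ) (i : ι) :
    yy N β e (x - x') i = yy N β e x i - yy N β e x' i := by
  simp only [yy, Pi.sub_apply]
  push_cast
  ring

theorem stSep : StSep := by
  classical
  intro F ι κ _ d m N dn ℓ a β e Nn P lam p S D R x hC hP hV ⟨k0, hk0⟩ he hR
  have N0 : (0 : ℝ) < N := by exact_mod_cast hC.one
  have b0 : (N : ℂ) * β e ≠ 0 :=
    mul_ne_zero (by exact_mod_cast N0.ne') (Rat.cast_ne_zero.2 hC.ne)
  have hL : ∀ i, ∃ L : ℂ[X], i ∈ Nn → L.natDegree ≤ D i ∧ L.eval (yy N β e (lam k0) i) = 1 ∧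
      ∀ k ∈ P, lam k i ≠ lam k0 i → L.eval (yy N β e (lam k) i) = 0 := fun i => by
    obtain ⟨L, h1, h2, h3⟩ := Sep.lagr (yy N β e (lam k0) i) _ b0 (R i)
    refine ⟨L, fun hi => ⟨h1.trans (hR i hi).2, h2, fun k hk hne => ?_⟩⟩
    obtain ⟨z, hz⟩ := hC.den _ ((hP.mem k hk).sub (hP.mem k0 hk0)) i
    have hz' : (N : ℝ) * (lam k i - lam k0 i) = z := by exact_mod_cast hz
    have hz'' : (N : ℂ) * (lam k i - lam k0 i) = z := by exact_mod_cast hz
    have e1 : yy N β e (lam k) i = yy N β e (lam k0) i + N * β e * z := by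
      rw [yy, yy, he k hk, he k0 hk0, ← hz'']
      push_cast
      ring
    rw [e1]
    refine h3 z (fun h0 => hne ?_) ?_
    · rw [h0, Int.cast_zero, mul_eq_zero, Pi.sub_apply, sub_eq_zero] at hz
      exact hz.resolve_left (by exact_mod_cast N0.ne')
    · have h4 := mul_le_mul_of_nonneg_left (hP.diam k hk k0 hk0 i) N0.le
      rw [← mul_assoc, ← abs_of_pos N0, ← abs_mul, hz', abs_of_pos N0] at h4
      have h5 : |(z : ℝ)| < R i + 1 :=
        lt_of_mul_lt_mul_right (h4.trans_lt (hR i hi).1) (hC.num.toNum0.pos i).le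
      have h6 : |z| < R i + 1 := by exact_mod_cast h5
      omega
  choose L hL using hL
  have hs : P.filter (fun k => ∀ i ∈ Nn, lam k i = lam k0 i) ⊆ P := filter_subset _ _
  refine ⟨P.filter fun k => ∀ i ∈ Nn, lam k i = lam k0 i, fun k => lam k - lam k0, hs,
    ⟨k0, mem_filter.2 ⟨hk0, fun _ _ => rfl⟩⟩, ⟨fun k hk => (hP.mem k (hs hk)).sub (hP.mem k0 hk0),
      fun k hk k' hk' h => hP.inj k (hs hk) k' (hs hk') (sub_left_inj.1 h), fun k hk i => ?_,
      fun k hk k' hk' i => ?_⟩, fun j hj f hf => ?_, fun k hk => ⟨?_, fun i hi => ?_⟩⟩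
  · simpa using hP.diam k (hs hk) k0 hk0 i
  · simpa using hP.diam k (hs hk) k' (hs hk') i
  · have h1 := hV j hj (fun i => if i ∈ Nn then C ((f i).eval 0) * L i
      else (f i).comp (X - C (yy N β e (lam k0) i))) fun i => by
        split_ifs with hi
        · exact (natDegree_C_mul_le _ _).trans (hL i hi).1
        · refine natDegree_comp_le.trans ?_
          rw [natDegree_X_sub_C, mul_one]
          exact hf i
    rw [← sum_subset hs fun k hk hk' => by
      rw [mem_filter, not_and] at hk'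
      obtain ⟨i, hi⟩ := not_forall.1 (hk' hk)
      obtain ⟨hi, hne⟩ := Classical.not_imp.1 hi
      rw [prod_eq_zero (mem_univ i), mul_zero]
      rw [if_pos hi, eval_mul, (hL i hi).2.2 k hk hne, mul_zero]] at h1
    refine mul_left_cancel₀ (Complex.exp_ne_zero ((2 * j + 1) * lin ℓ (lam k0))) ?_
    rw [mul_zero, mul_sum, ← h1]
    refine sum_congr rfl fun k hk => ?_
    rw [← mul_assoc]
    congr 1
    · beta_reduce
      rw [lin_sub, mul_left_comm, ← Complex.exp_add]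
      congr 2
      ring
    · refine prod_congr rfl fun i _ => ?_
      beta_reduce
      rw [Sep.yy_sub]
      split_ifs with hi
      · have e1 : yy N β e (lam k) i = yy N β e (lam k0) i := by
          rw [yy, yy, he k (hs hk), he k0 hk0, (mem_filter.1 hk).2 i hi]
        rw [e1, sub_self, eval_mul, eval_C, (hL i hi).2.1, mul_one]
      · simp [eval_comp]
  · exact sub_eq_zero.2 ((he k (hs hk)).trans (he k0 hk0).symm)
  · exact sub_eq_zero.2 ((mem_filter.1 hk).2 i hi)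

end Pool.Agent.Lib.MP_4ffbf9_nt.MA
end
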