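import Pool.Agent.Lib.MP_4ffbf9_nt.MA.Van

-- part Pool.Agent.Lib.MP_4ffbf9_nt.MA.Desc
section

/-! The descent. -/

set_option autoImplicit false

namespace Pool.Agent.Lib.MP_4ffbf9_nt.MA

open Finset Polynomial

namespace Desc

variable {ι κ : Type} [Fintype ι] {F : IntermediateField ℚ ℂ} {d m N : ℕ} {dn : ι → ℕ}
  {ℓ : ι → ℂ} {a : ι → ℝ} {β : ι → ℚ} {e : ι}

/-- the size of the products of binomial coefficients -/
theorem phi (hC : Ctx F d m N dn ℓ a β e) {H B T g : ℝ} {T₀ : ℕ} (hB : 1 ≤ B) (hH : H ≤ T₀)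
    (hT : T₀ ≤ T) (hg : m * ((Real.log ((N : ℝ) ^ 2 * B) + 2) * T) ≤ g)
    (hb : ∀ i, i ≠ e → |(β e : ℝ)| / a i + |(β i : ℝ)| / a e ≤ B) {x : ι → ℚ}
    (hx : ∀ i, |(x i : ℝ)| * a i ≤ H) {n : ι → ℕ} (hd : ∀ i, n i ≤ T₀) :
    ‖∏ i, bin (yy N β e x i) (n i)‖ ≤ Real.exp g := by
  have hN : (1 : ℝ) ≤ N := Nat.one_le_cast.2 hC.one
  have h1 : (1 : ℝ) ≤ (N : ℝ) ^ 2 * B := one_le_mul_of_one_le_of_one_le (one_le_pow₀ hN) hB
  have hL := Real.log_nonneg h1
  have hT0 : (0 : ℝ) ≤ T₀ := Nat.cast_nonneg _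
  have hH0 : 0 ≤ H := (mul_nonneg (abs_nonneg _) (hC.num.toNum0.pos e).le).trans (hx e)
  have h2 : ∀ i, ‖yy N β e x i‖ ≤ (N : ℝ) ^ 2 * B * T₀ := fun i => by
    rw [norm_yy]
    by_cases hi : i = e
    · rw [hi, sub_self, mul_zero, abs_zero]
      positivity
    rw [abs_mul, abs_of_nonneg (by positivity : (0 : ℝ) ≤ (N : ℝ) ^ 2), mul_assoc]
    refine mul_le_mul_of_nonneg_left ((abs_sub _ _).trans ?_) (by positivity)
    have k1 : ∀ j, |(x j : ℝ)| ≤ T₀ / a j := fun j =>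
      (le_div_iff₀ (hC.num.toNum0.pos j)).2 ((hx j).trans hH)
    rw [abs_mul, abs_mul]
    refine (add_le_add (mul_le_mul_of_nonneg_left (k1 i) (abs_nonneg _))
      (mul_le_mul_of_nonneg_left (k1 e) (abs_nonneg _))).trans
      (le_of_eq_of_le ?_ (mul_le_mul_of_nonneg_right (hb i hi) hT0))
    ring
  have h3 : ∀ i, ‖bin (yy N β e x i) (n i)‖ ≤
      Real.exp ((Real.log ((N : ℝ) ^ 2 * B) + 1 + 1) * T₀) := fun i => by
    refine bin_size _ _ _ _ (hd i) (by linarith) ?_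
    rw [Real.exp_add, Real.exp_log (by linarith)]
    have k1 : (2 : ℝ) ≤ Real.exp 1 := by linarith [Real.add_one_le_exp (1 : ℝ)]
    have k2 := mul_le_mul_of_nonneg_right h1 hT0
    have k3 := mul_le_mul_of_nonneg_left k1 (mul_nonneg (zero_le_one.trans h1) hT0)
    linarith [h2 i]
  rw [norm_prod]
  refine (prod_le_prod (fun i _ => norm_nonneg _) fun i _ => h3 i).trans ?_
  rw [prod_const, ← Real.exp_nat_mul, card_univ]
  refine Real.exp_le_exp.2 (le_trans ?_ hg)
  refine mul_le_mul (Nat.cast_le.2 hC.card) ?_ (by positivity) (Nat.cast_nonneg _)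
  exact mul_le_mul (by linarith) hT hT0 (by linarith)

/-- the end of the descent -/
theorem fin (hC : Ctx F d m N dn ℓ a β e) (hI : Ind ℓ) {x : ℝ} {P : Finset κ}
    {lam : κ → ι → ℚ} {p : κ → ℤ} {S : ℕ} {D : ι → ℕ} (h0 : P.Nonempty) (hP : Pts F ℓ a x P lam)
    (hp : ∀ k ∈ P, p k ≠ 0) (hV : VanS ℓ N β e P lam p S D) (hS : 1 ≤ S)
    (hx : m * x < Real.log 2) : False := by
  obtain ⟨k₀, hk₀⟩ := h0
  have hx0 : 0 ≤ x := (mul_nonneg (abs_nonneg _) (hC.num.toNum0.pos e).le).trans (hP.box k₀ hk₀ e)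
  have h1 : P = {k₀} := eq_singleton_iff_unique_mem.2 ⟨hk₀, fun k hk => by
    refine hP.inj k hk k₀ hk₀ (by_contra fun h => ?_)
    have h2 := hC.num.gap' hI ((hP.mem k hk).sub (hP.mem k₀ hk₀)) (sub_ne_zero.2 h)
    refine (h2.trans ((sum_le_card_nsmul _ _ x fun i _ => ?_).trans ?_)).not_gt hx
    · rw [Pi.sub_apply, Rat.cast_sub]
      exact hP.diam k hk k₀ hk₀ i
    · rw [nsmul_eq_mul, card_univ]
      exact mul_le_mul_of_nonneg_right (Nat.cast_le.2 hC.card) hx0⟩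
  have h2 := hV 0 hS (fun _ => 1) fun i => by simp
  rw [h1, sum_singleton] at h2
  simp only [eval_one, prod_const_one, mul_one, mul_eq_zero, Int.cast_eq_zero,
    Complex.exp_ne_zero, or_false] at h2
  exact hp k₀ hk₀ h2

theorem one_le (hC : Ctx F d m N dn ℓ a β e) {x : ι → ℚ} (hx : InG F ℓ x) {i : ι} (h : x i ≠ 0) :
    1 ≤ N * |(x i : ℝ)| := by
  obtain ⟨z, hz⟩ := hC.den x hx i
  have h1 : (N : ℝ) * x i = z := by exact_mod_cast hz
  have h2 : z ≠ 0 := fun k => by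
    rw [k, Int.cast_zero] at hz
    exact mul_ne_zero (Nat.cast_ne_zero.2 (Nat.one_le_iff_ne_zero.1 hC.one)) h hz
  rw [← Nat.abs_cast N, ← abs_mul, h1]
  exact_mod_cast Int.one_le_abs h2

theorem div_le (hC : Ctx F d m N dn ℓ a β e) (y : ℝ) : |y / β e| ≤ N * |y| := by
  have h0 : 0 < |(β e : ℝ)| := abs_pos.2 (Rat.cast_ne_zero.2 hC.ne)
  rw [abs_div, div_le_iff₀ h0]
  have := mul_le_mul_of_nonneg_left (one_le hC hC.mem hC.ne) (abs_nonneg y)
  linarith

theorem abs_le (hC : Ctx F d m N dn ℓ a β e) {x : ι → ℚ} {H : ℝ} {i : ι}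
    (hx : |(x i : ℝ)| * a i ≤ H) : |(x i : ℝ)| ≤ H :=
  (le_mul_of_one_le_right (abs_nonneg _) (hC.num.toNum0.one i)).trans hx

theorem near (hC : Ctx F d m N dn ℓ a β e) {x : ι → ℚ} {H B : ℝ} {i : ι}
    (hx : ∀ i, |(x i : ℝ)| * a i ≤ H) (hb : |(β e : ℝ)| / a i + |(β i : ℝ)| / a e ≤ B) :
    ‖ℓ i‖ * |(x i : ℝ) - β i * x e / β e| ≤ ‖ℓ i‖ * (H * (1 + B * N)) := by
  refine mul_le_mul_of_nonneg_left ((abs_sub _ _).trans ?_) (norm_nonneg _)
  have h1 : |(β i : ℝ)| / a e ≤ B :=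
    (le_add_of_nonneg_left (div_nonneg (abs_nonneg _) (hC.num.toNum0.pos i).le)).trans hb
  have h2 : |(β i : ℝ) * x e| ≤ B * H := by
    have h3 := mul_le_mul h1 (hx e) (mul_nonneg (abs_nonneg _) (hC.num.toNum0.pos e).le)
      ((div_nonneg (abs_nonneg _) (hC.num.toNum0.pos e).le).trans h1)
    rwa [mul_comm _ (a e), ← mul_assoc, div_mul_cancel₀ _ (hC.num.toNum0.pos e).ne', ← abs_mul] at h3
  have h3 := (div_le hC _).trans (mul_le_mul_of_nonneg_left h2 (Nat.cast_nonneg N))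
  linarith [abs_le hC (hx i)]

theorem zero (hC : Ctx F d m N dn ℓ a β e) {x : ι → ℚ} (hx : InG F ℓ x) {H : ℝ} {i : ι} {j J : ℕ}
    (hj : J ≤ j) (h1 : |(x i : ℝ)| * a i ≤ H / 2 ^ j) (h2 : N * H < 2 ^ J * a i) : x i = 0 := by
  by_contra h
  have h3 := one_le hC hx h
  have h4 := (le_div_iff₀ (by positivity)).1 h1
  have h5 : (2 : ℝ) ^ J * a i ≤ 2 ^ j * a i :=
    mul_le_mul_of_nonneg_right (pow_le_pow_right₀ one_le_two hj) (hC.num.toNum0.pos i).le
  have h6 := mul_le_mul_of_nonneg_left h4 (Nat.cast_nonneg (α := ℝ) N)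
  have h7 := mul_le_mul_of_nonneg_right h3
    (mul_nonneg (by positivity : (0 : ℝ) ≤ 2 ^ j) (hC.num.toNum0.pos i).le)
  linarith

theorem half {x : ℝ} {P P' : Finset κ} {lam : κ → ι → ℚ} (hP : Pts F ℓ a x P lam) {k₀ : κ}
    (h0 : k₀ ∈ P) (h : ∀ k, k ∈ P' ↔ k ∈ P ∧ InG F ℓ fun i => (lam k i - lam k₀ i) / 2) :
    Pts F ℓ a (x / 2) P' fun k i => (lam k i - lam k₀ i) / 2 := by
  refine ⟨fun k hk => ((h k).1 hk).2, fun k hk k' hk' h1 => hP.inj k ((h k).1 hk).1 k'
    ((h k').1 hk').1 (funext fun i => ?_), fun k hk i => ?_, fun k hk k' hk' i => ?_⟩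
  · have := congrFun h1 i
    linarith
  · have := hP.diam k ((h k).1 hk).1 k₀ h0 i
    push_cast
    rw [abs_div, abs_two]
    linarith
  · have := hP.diam k ((h k).1 hk).1 k' ((h k').1 hk').1 i
    push_cast
    rw [← sub_div, sub_sub_sub_cancel_right, abs_div, abs_two]
    linarith

omit [Fintype ι] in
theorem dh_le [DecidableEq ι] {c x H : ℝ} (hc : 0 ≤ c) (h : x ≤ H) (n : ℕ)
    {R : ι → ℕ} (hR : ∀ i, 2 * R i ≤ ⌊4 * c * H⌋₊) (τ : ι → ℕ) (Nn : Finset ι) (e i : ι) :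
    Dh c x n R τ Nn e i ≤ 2 * ⌊4 * c * H⌋₊ := by
  have : ⌊4 * c * x⌋₊ ≤ ⌊4 * c * H⌋₊ :=
    Nat.floor_le_floor (mul_le_mul_of_nonneg_left h (by positivity))
  have := hR i
  rw [Dh]
  split_ifs <;> omega

end Desc

open Desc in
theorem stDesc (hS : StStart) (hT : StStep) (hP : StSep) : StDesc := by
  intro F ι _ _ d m N dn ℓ a β e Nn S J τ H c B P₀ hC hI he hc hH hB ha hs hb hN2 hJ hl hβ hP0
    hcard
  classical
  obtain ⟨R, hR⟩ : ∃ R : ι → ℕ, R = fun i => ⌊H / a i⌋₊ := ⟨_, rfl⟩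
  rw [← hR] at hcard
  have hm : (1 : ℝ) ≤ m := Nat.one_le_cast.2 hC.m_pos
  have hN : (1 : ℝ) ≤ N := Nat.one_le_cast.2 hC.one
  have c0 : (d : ℝ) + (m : ℝ) ^ 2 + 16 * m + 7 ≤ c := by
    refine le_trans ?_ hc
    rw [cc]
    push_cast
    have : (d : ℝ) ≤ d * 2 ^ 2 ^ m * (10 * m + 8) := by
      rw [mul_assoc]
      exact le_mul_of_one_le_right (Nat.cast_nonneg _)
        (one_le_mul_of_one_le_of_one_le (one_le_pow₀ one_le_two) (by linarith))
    linarith
  have d0 : (0 : ℝ) ≤ d := Nat.cast_nonneg _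
  have c1 : (m : ℝ) ^ 2 + 16 * m + 7 ≤ c := by linarith
  have c2 : (0 : ℝ) ≤ (m : ℝ) ^ 2 := by positivity
  have c3 : 1 ≤ c := by linarith
  have hL : 0 ≤ Real.log ((N : ℝ) ^ 2 * B) :=
    Real.log_nonneg (one_le_mul_of_one_le_of_one_le (one_le_pow₀ hN) (by linarith))
  have s1 : 8 * m * c ≤ S := le_trans (le_mul_of_one_le_right (by positivity) (by linarith)) hs
  have s2 : (1 : ℝ) ≤ S := by linarith [one_le_mul_of_one_le_of_one_le hm c3]
  have s3 : 1 ≤ S := Nat.one_le_cast.1 s2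
  have g1 : 1 ≤ S * H := one_le_mul_of_one_le_of_one_le s2 hH
  have t1 : ((2 * ⌊4 * c * H⌋₊ : ℕ) : ℝ) ≤ 8 * c * H := by
    have : (⌊4 * c * H⌋₊ : ℝ) ≤ 4 * c * H := Nat.floor_le (by positivity)
    push_cast
    linarith
  have t2 : 2 * H ≤ ⌊4 * c * H⌋₊ := by
    have := Nat.lt_floor_add_one (4 * c * H)
    have := mul_le_mul_of_nonneg_right c3 (by linarith : 0 ≤ H)
    linarith
  have r1 : ∀ i, 2 * R i ≤ ⌊4 * c * H⌋₊ := fun i => by
    have k1 : (R i : ℝ) ≤ H := by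
      rw [hR]
      exact (Nat.floor_le (div_nonneg (by linarith) (hC.num.toNum0.pos i).le)).trans
        (div_le_self (by linarith) (hC.num.toNum0.one i))
    exact Nat.cast_le (α := ℝ).1 (by push_cast; linarith)
  have r2 : ∀ i, H < (R i + 1) * a i := fun i => by
    rw [hR]
    exact (div_lt_iff₀ (hC.num.toNum0.pos i)).1 (Nat.lt_floor_add_one _)
  have Phi : ∀ x : ι → ℚ, (∀ i, |(x i : ℝ)| * a i ≤ H) → ∀ n : ι → ℕ,
      (∀ i, n i ≤ 2 * ⌊4 * c * H⌋₊) → ‖∏ i, bin (yy N β e x i) (n i)‖ ≤ Real.exp (S * H) :=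
    fun x hx n hd => phi hC (by linarith) (by push_cast; linarith) t1 (by
      have := mul_le_mul_of_nonneg_right hs (by linarith : 0 ≤ H)
      linarith) hb hx hd
  obtain ⟨P₁, p, p0, p1, p2, p3, p4⟩ := hS F ι (ι → ℚ) d m N dn ℓ a β e P₀ id S
    (Dh c H J R τ Nn e) H (S * H) hC hP0 s3 g1 ha (by linarith) le_rfl hcard (by
      have k1 : 4 * (d : ℝ) * S ≤ Real.exp (S * H) := by
        have k2 := Real.quadratic_le_exp_of_nonneg (show 0 ≤ S * H by linarith)
        have k3 : 8 * c ≤ 8 * m * c := by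
          have := mul_le_mul_of_nonneg_right hm (by linarith : 0 ≤ c)
          linarith
        have k4 : (S : ℝ) ≤ S * H := le_mul_of_one_le_right (by linarith) hH
        have k5 : 8 * (d : ℝ) * S ≤ (S * H) ^ 2 := by
          rw [sq]
          exact mul_le_mul (by linarith) k4 (by linarith) (by linarith)
        linarith
      have k2 : ∏ i, ((Dh c H J R τ Nn e i : ℝ) + 1) ≤ Real.exp (S * H) := by
        refine (prod_le_prod (g := fun _ => Real.exp (8 * c * H)) (fun i _ => by positivity)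
          fun i _ => (Real.add_one_le_exp _).trans (Real.exp_le_exp.2 (le_trans
            (Nat.cast_le.2 (dh_le (by linarith) le_rfl J r1 τ Nn e i)) t1))).trans ?_
        rw [prod_const, ← Real.exp_nat_mul, card_univ]
        refine Real.exp_le_exp.2 ((mul_le_mul_of_nonneg_right (Nat.cast_le.2 hC.card)
          (by positivity)).trans ?_)
        have := mul_le_mul_of_nonneg_right s1 (by linarith : 0 ≤ H)
        linarith
      push_cast
      rw [← mul_assoc, two_mul (S * H), Real.exp_add]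
      exact mul_le_mul k1 k2 (by positivity) (by positivity))
    fun k hk n hd => Phi k (hP0.box k hk) n fun i =>
      (hd i).trans (dh_le (by linarith) le_rfl J r1 τ Nn e i)
  have key : ∀ j : ℕ, ∃ (P : Finset (ι → ℚ)) (lam : (ι → ℚ) → ι → ℚ), P.Nonempty ∧ P ⊆ P₁ ∧
      Pts F ℓ a (H / 2 ^ j) P lam ∧
      VanS ℓ N β e P lam p (2 ^ j * S) (Dh c (H / 2 ^ j) (J - j) R τ Nn e) := fun j => by
    induction j with
    | zero =>
      refine ⟨P₁, id, p1, Subset.rfl, ?_, ?_⟩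
      · simpa using hP0.mono p0
      · simpa using p4
    | succ j ih =>
      obtain ⟨P, lam, ⟨k₀, q1⟩, q2, q3, q4, q5⟩ :
          ∃ (P : Finset (ι → ℚ)) (lam : (ι → ℚ) → ι → ℚ), P.Nonempty ∧ P ⊆ P₁ ∧
          Pts F ℓ a (H / 2 ^ j) P lam ∧
          VanS ℓ N β e P lam p (2 ^ j * S) (Dh c (H / 2 ^ j) (J - j) R τ Nn e) ∧
          (J ≤ j → ∀ k ∈ P, ∀ i ∈ Nn, lam k e = 0 ∧ lam k i = 0) := by
        obtain ⟨P, lam, q1, q2, q3, q4⟩ := ih
        by_cases hj : J ≤ j ∧ Nn.Nonempty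
        · obtain ⟨P', lam', w1, w2, w3, w4, w5⟩ := hP F ι _ d m N dn ℓ a β e Nn P lam p _ _ R _
            hC q3 q4 q1 (fun k hk => zero hC (q3.mem k hk) hj.1 (q3.box k hk e) (hJ hj.2))
            fun i hi => ⟨lt_of_le_of_lt (by
              have k1 : (N : ℝ) ≤ 2 ^ j := by
                exact_mod_cast hN2.trans (Nat.pow_le_pow_right two_pos hj.1)
              rw [← mul_div_assoc, div_le_iff₀ (by positivity), mul_comm]
              exact mul_le_mul_of_nonneg_left k1 (by linarith)) (r2 i), by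
              rw [Dh, if_neg (fun k : i = e => he (k ▸ hi)), if_pos hi]
              exact Nat.le_add_right _ _⟩
          exact ⟨P', lam', w2, w1.trans q2, w3, w4, fun _ k hk i hi =>
            ⟨(w5 k hk).1, (w5 k hk).2 i hi⟩⟩
        · exact ⟨P, lam, q1, q2, q3, q4, fun h _ _ i hi => (hj ⟨h, i, hi⟩).elim⟩
      obtain ⟨x, hx⟩ : ∃ x, x = H / 2 ^ j := ⟨_, rfl⟩
      have x00 : 0 < x := by rw [hx]; positivity
      have x0 := x00.le
      have x1 : x ≤ H := hx ▸ div_le_self (by linarith) (one_le_pow₀ one_le_two)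
      have x2 : ((2 ^ j * S : ℕ) : ℝ) * x = S * H := by
        rw [hx]
        push_cast
        field_simp
      have x3 : H / 2 ^ (j + 1) = x / 2 := by rw [hx, pow_succ, div_div]
      have x4 : 1 ≤ 2 * m * x := by
        by_contra k
        exact fin hC hI ⟨k₀, q1⟩ q3 (fun k hk => p2 k (q2 hk)) q4
          (Nat.mul_pos (by positivity) s3) (by
            rw [← hx]
            linarith [Real.log_two_gt_d9])
      have x5 : 1 ≤ c * x := x4.trans (mul_le_mul_of_nonneg_right (by linarith) x0)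
      have x6 : c * x ≤ ⌈c * x⌉₊ := Nat.le_ceil _
      have x7 : (⌈c * x⌉₊ : ℝ) ≤ c * x + 1 := (Nat.ceil_lt_add_one (by linarith)).le
      have x8 : ⌊4 * c * (x / 2)⌋₊ + ⌈c * x⌉₊ ≤ ⌊4 * c * x⌋₊ := Nat.le_floor (by
        have := Nat.floor_le (show 0 ≤ 4 * c * (x / 2) by linarith)
        push_cast
        linarith)
      have x9 : (0 : ℝ) ≤ (2 ^ j * S : ℕ) := Nat.cast_nonneg _
      have bx : ∀ k ∈ P, ∀ i, |(lam k i : ℝ)| * a i ≤ H := fun k hk i =>
        (q3.box k hk i).trans (hx ▸ x1)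
      have hP' : ∀ k, k ∈ P.filter (fun k => InG F ℓ fun i => (lam k i - lam k₀ i) / 2) ↔
          k ∈ P ∧ InG F ℓ fun i => (lam k i - lam k₀ i) / 2 := fun k => mem_filter
      rw [x3, pow_succ', mul_assoc]
      rw [← hx] at q3 q4
      refine ⟨_, _, ⟨k₀, (hP' k₀).2 ⟨q1, ?_⟩⟩, (filter_subset _ _).trans q2,
        half q3 q1 hP', hT F ι _ d m N dn ℓ a β e Nn P lam p _ ⌈c * x⌉₊ _ _
          (if j < J then τ else 0) x (S * H) c hC he q3 q4 g1 ha x00 x2.le hc ?_ ?_ ?_ ?_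
          (fun k hk n hd => Phi _ (bx k hk) n fun i => (hd i).trans
            (dh_le (by linarith) (by linarith) _ r1 τ Nn e i)) (fun i => ?_) (fun i h1 h2 => ?_)
          (fun i hi => ?_) (fun k hk i hi => ?_) (fun k hk => ?_) k₀ q1 _ hP'⟩
      · simp only [sub_self, zero_div]
        exact InG.zero F ℓ
      · have := mul_le_mul_of_nonneg_left x6 x9
        rw [← x2]
        linarith
      · have k1 := mul_le_mul_of_nonneg_left x7 x9
        have k2 := mul_le_mul_of_nonneg_left x4 x9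
        rw [← x2]
        linarith
      · have k1 := mul_le_mul_of_nonneg_right c1 x0
        have k2 := mul_nonneg c2 x0
        have k3 := mul_nonneg (by linarith : (0 : ℝ) ≤ m) x0
        linarith
      · exact (sum_le_sum_of_subset_of_nonneg q2 fun _ _ _ => abs_nonneg _).trans p3
      · simp only [Dh]
        split_ifs
        · exact le_rfl
        · exact Nat.add_le_add_left
            (min_le_min (Nat.mul_le_mul_right _ (by omega)) (by omega)) _
        · omega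
      · simpa only [Dh, if_neg h1, if_neg h2] using x8
      · have h2 : i ≠ e := fun k => he (k ▸ hi)
        simp only [Dh, if_neg h2, if_pos hi]
        rw [add_assoc]
        refine Nat.add_le_add_left
          (le_min ?_ ((add_le_add (min_le_right _ _) (min_le_right _ _)).trans x8)) _
        refine (add_le_add (min_le_left _ _) (min_le_left _ _)).trans ?_
        split_ifs with hj
        · rw [show J - j = J - (j + 1) + 1 by omega, add_one_mul]
        · exact Nat.mul_le_mul_right _ (by omega : J - (j + 1) ≤ J - j)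
      · split_ifs with hj
        · have k1 : ‖ℓ i‖ * |(lam k i : ℝ) - β i * lam k e / β e| / x ≤ ‖ℓ i‖ * (1 + B * N) := by
            rw [div_le_iff₀ x00, mul_assoc, mul_comm _ x]
            exact near hC (q3.box k hk) (hb i fun k => he (k ▸ hi))
          exact ⟨k1.trans (hl i hi).1, (pow_le_pow_left₀ (by positivity) k1 _).trans (hl i hi).2⟩
        · rw [(q5 (not_lt.1 hj) k hk i hi).1, (q5 (not_lt.1 hj) k hk i hi).2]
          simp [Real.exp_nonneg]
      · refine le_trans ?_ hβ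
        rw [div_le_iff₀ x00, mul_right_comm]
        exact mul_le_mul_of_nonneg_right ((div_le hC _).trans
          (mul_le_mul_of_nonneg_left (abs_le hC (q3.box k hk e)) (by linarith))) (norm_nonneg _)
  obtain ⟨j, hj⟩ := pow_unbounded_of_one_lt (2 * m * H) (one_lt_two (α := ℝ))
  obtain ⟨P, lam, q1, q2, q3, q4⟩ := key j
  refine fin hC hI q1 q3 (fun k hk => p2 k (q2 hk)) q4 (Nat.mul_pos (by positivity) s3) ?_
  rw [← mul_div_assoc, div_lt_iff₀ (by positivity)]
  have := mul_le_mul_of_nonneg_right Real.log_two_gt_d9.le (by positivity : (0 : ℝ) ≤ 2 ^ j)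
  have : (0 : ℝ) ≤ 2 ^ j := by positivity
  linarith

end Pool.Agent.Lib.MP_4ffbf9_nt.MA
end

-- part Pool.Agent.Lib.MP_4ffbf9_nt.MA.Core
section

/-! Choice of the parameters. -/

set_option autoImplicit false

namespace Pool.Agent.Lib.MP_4ffbf9_nt.MA

open Finset Polynomial

namespace CoreAux

theorem pow_log {N : ℝ} (hN : 1 ≤ N) (n : ℕ) :
    (2 * Real.log N + 3) ^ n ≤ 3 ^ (n + 1) * n.factorial * N := by
  have h0 := Real.log_nonneg hN
  have h1 := Real.pow_div_factorial_le_exp (Real.log N + 1) (by linarith) n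
  rw [div_le_iff₀ (by positivity), Real.exp_add, Real.exp_log (by linarith)] at h1
  have h2 : Real.exp 1 ≤ 3 := Real.exp_one_lt_three.le
  calc _ ≤ (3 * (Real.log N + 1)) ^ n := pow_le_pow_left₀ (by linarith) (by linarith) n
    _ ≤ 3 ^ n * (N * 3 * n.factorial) := by
      rw [mul_pow]
      exact mul_le_mul_of_nonneg_left (h1.trans (by gcongr)) (by positivity)
    _ = _ := by ring

theorem near {m c K σ S J H a : ℝ} (hm : 1 ≤ m) (hc : 1 ≤ c) (hK : 1 ≤ K) (hσ : 1 ≤ σ)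
    (hS0 : 0 ≤ S) (hS : S ≤ 9 * m * c * σ) (hJ : J ≤ 4 * σ) (hH : 0 < H) (ha : 0 < a)
    (h : a ≤ S * H) : 2 * (H / a) + J * (2 * K * (10 * c * (S * H)) / a) + 1 ≤
      2000 * m * c ^ 2 * σ ^ 2 * K * (H / (2 * a)) := by
  have h0 : 0 < H / a := div_pos hH ha
  have h1 : 1 ≤ S * (H / a) := by rw [← mul_div_assoc, one_le_div ha]; exact h
  have h2 : 1 ≤ c * σ * K := one_le_mul_of_one_le_of_one_le (one_le_mul_of_one_le_of_one_le hc hσ) hK
  have h3 : 1 ≤ m * c * σ := one_le_mul_of_one_le_of_one_le (one_le_mul_of_one_le_of_one_le hm hc) hσ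
  have h4 : 2 + J * (20 * K * c * S) + S ≤ 1000 * (m * c * σ) * (c * σ * K) := by
    have : J * (20 * K * c * S) ≤ 4 * σ * (20 * K * c * (9 * m * c * σ)) := by gcongr
    nlinarith
  calc _ ≤ (2 + J * (20 * K * c * S) + S) * (H / a) := by
        rw [add_mul, add_mul]
        exact add_le_add (le_of_eq (by ring)) h1
    _ ≤ _ := (mul_le_mul_of_nonneg_right h4 h0.le).trans_eq (by ring)

end CoreAux

open CoreAux in
theorem stCore (hL : StLat) (hD : StDesc) : StCore := by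
  intro d m
  obtain ⟨c₂, hc₂⟩ : ∃ c : ℝ, c = cc d m := ⟨_, rfl⟩
  have c1 : 1 ≤ c₂ := hc₂ ▸ Nat.one_le_cast.2 (by unfold cc; omega)
  obtain ⟨C, hC⟩ : ∃ C : ℝ, C = 2000 * m * c₂ ^ 2 := ⟨_, rfl⟩
  obtain ⟨c, k1, k2, k3⟩ : ∃ c : ℝ, 9 * m * c₂ * (6 * m ^ 2 + 3) ≤ c ∧ 10 * c₂ + 1 ≤ c ∧
      4 * d * (9 * m * c₂) ^ 2 * (C ^ m * (10 * c₂) ^ m) *
        (3 ^ (2 * m + 2 + 1) * (2 * m + 2).factorial) ≤ c :=
    ⟨_, le_max_left _ _, le_max_of_le_right (le_max_left _ _),
      le_max_of_le_right (le_max_right _ _)⟩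
  have c0 : 1 ≤ c := by linarith
  refine ⟨c, c0, fun F ι _ _ dn ℓ a K β e Nn B W Ω hF hm hN₁ hI hβ he heN hB hW hWB hΩ haΩ hBe hK
    hb => ?_⟩
  have hN := hN₁.toNum0
  by_contra! hlt
  obtain ⟨N, N1, N2, N3, N4⟩ := hL F ι m dn ℓ a hm hN₁ hI
  have ctx : Ctx F d m N dn ℓ a β e := ⟨hF, hm, hN₁, N1, N3, hβ, he⟩
  have m1 : (1 : ℝ) ≤ m := Nat.one_le_cast.2 ctx.m_pos
  have n1 : (1 : ℝ) ≤ N := Nat.one_le_cast.2 N1
  have o1 : 1 ≤ Ω := (hN.one e).trans (haΩ e)
  have l1 : 1 ≤ Real.log B := (Real.le_log_iff_exp_le (by linarith)).2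
    (Real.exp_one_lt_three.le.trans hB)
  have l0 := Real.log_nonneg n1
  have w1 : c * Real.log B ≤ W := le_trans (mul_le_mul_of_nonneg_left
    (le_self_pow₀ l1 (by omega)) (by linarith)) hW
  have w2 : 1 ≤ W := (one_le_mul_of_one_le_of_one_le c0 l1).trans w1
  obtain ⟨σ, hσ⟩ : ∃ σ : ℝ, σ = Real.log ((N : ℝ) ^ 2 * B) + 2 := ⟨_, rfl⟩
  have s0 : σ = 2 * Real.log N + Real.log B + 2 := by
    rw [hσ, Real.log_mul (by positivity) (by linarith), Real.log_pow, Nat.cast_ofNat]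
  have s1 : 1 ≤ σ := by linarith
  have s2 : σ ≤ (6 * m ^ 2 + 3) * Ω * Real.log B := by
    have h1 : (N : ℝ) ≤ (3 * m * Ω) ^ m := N2.trans ((prod_le_prod
      (fun i _ => by have := hN.pos i; positivity) fun i _ =>
        mul_le_mul_of_nonneg_left (haΩ i) (by positivity)).trans (by
      rw [prod_const, card_univ]
      exact pow_le_pow_right₀ (one_le_mul_of_one_le_of_one_le (by linarith only [m1]) o1) hm))
    have h2 := Real.log_le_log (by linarith) h1
    rw [Real.log_pow] at h2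
    have h3 : m * Real.log (3 * m * Ω) ≤ m * (3 * m * Ω) :=
      mul_le_mul_of_nonneg_left (Real.log_le_self (by positivity)) (by positivity)
    have h4 : m ^ 2 * Ω ≤ m ^ 2 * Ω * Real.log B := le_mul_of_one_le_right (by positivity) l1
    have h5 : Real.log B ≤ Ω * Real.log B := le_mul_of_one_le_left (by linarith) o1
    linarith only [h2, h3, h4, h5, s0, l1]
  have s3 : (N : ℝ) * B ^ 2 * 2 < Real.exp (2 * σ) := by
    rw [hσ, two_mul, Real.exp_add, Real.exp_add, Real.exp_log (by positivity)]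
    have h1 : (2 : ℝ) + 1 ≤ Real.exp 2 := Real.add_one_le_exp 2
    have h2 : (N : ℝ) ≤ N ^ 2 := le_self_pow₀ n1 two_ne_zero
    calc _ < N * B * 3 * (1 * B * 3) := by
          linarith only [mul_pos (zero_lt_one.trans_le n1) (show 0 < B ^ 2 by positivity)]
      _ ≤ _ := by gcongr <;> linarith
  have q1 : 1 ≤ m * c₂ * σ :=
    one_le_mul_of_one_le_of_one_le (one_le_mul_of_one_le_of_one_le m1 c1) s1
  obtain ⟨S, S1, S2⟩ : ∃ S : ℕ, 8 * m * c₂ * σ ≤ S ∧ S ≤ 9 * m * c₂ * σ :=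
    ⟨_, Nat.le_ceil _, (Nat.ceil_lt_add_one (by positivity)).le.trans (by linarith)⟩
  obtain ⟨J, J1, J2⟩ : ∃ J : ℕ, 3 * σ ≤ J ∧ J ≤ 4 * σ :=
    ⟨_, Nat.le_ceil _, (Nat.ceil_lt_add_one (by positivity)).le.trans (by linarith)⟩
  have S3 : (1 : ℝ) ≤ S := by linarith
  have S4 : S ≤ W * Ω := by
    calc _ ≤ 9 * m * c₂ * ((6 * m ^ 2 + 3) * Ω * Real.log B) := S2.trans (by gcongr)
      _ = 9 * m * c₂ * (6 * m ^ 2 + 3) * Real.log B * Ω := by ring
      _ ≤ _ := mul_le_mul_of_nonneg_right (le_trans (by gcongr) w1) (by linarith)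
  obtain ⟨H, hH⟩ : ∃ H : ℝ, S * H = W * Ω := ⟨W * Ω / S, mul_div_cancel₀ _ (by linarith)⟩
  have H1 : 1 ≤ H := le_of_mul_le_mul_left (by rw [mul_one, hH]; exact S4) (zero_lt_one.trans_le S3)
  have H2 : ∀ i, a i ≤ S * H := fun i =>
    hH ▸ (haΩ i).trans (le_mul_of_one_le_left (by linarith) w2)
  have J3 : (N : ℝ) * B ^ 2 < 2 ^ J := by
    refine (lt_of_le_of_lt (le_mul_of_one_le_right (by positivity) one_le_two) s3).trans_le ?_
    rw [← Real.exp_log (show (0 : ℝ) < 2 ^ J by positivity), Real.log_pow, Real.exp_le_exp]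
    nlinarith only [Real.log_two_gt_d9, J1, s1]
  obtain ⟨P, P1, P2⟩ := N4 H (by linarith)
  refine hD F ι d m N dn ℓ a β e (Nn.filter fun i => 4 * K i * σ ≤ a i) S J
    (fun i => ⌊2 * K i * (10 * c₂ * (S * H)) / a i⌋₊) H c₂ B P ctx hI
    (fun h => heN (mem_filter.1 h).1) hc₂.ge H1 hB H2 (hσ ▸ S1) hb ?_ (fun h => ?_) (fun i hi => ?_)
    ?_ P1 ?_
  · exact_mod_cast (le_mul_of_one_le_right (by linarith) (one_le_pow₀ (by linarith))).trans J3.le
  · have h1 := hBe (h.mono (filter_subset _ _))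
    calc (N : ℝ) * H ≤ N * (B * (B * a e)) := mul_le_mul_of_nonneg_left
          ((le_mul_of_one_le_left (by linarith) S3).trans (hH ▸ by gcongr)) (by linarith)
      _ = N * B ^ 2 * a e := by ring
      _ < _ := mul_lt_mul_of_pos_right J3 (hN.pos e)
  · obtain ⟨h1, h2⟩ := mem_filter.1 hi
    obtain ⟨h3, h4⟩ := hK i h1
    have h5 := hN.pos i
    have h6 : ‖ℓ i‖ * (1 + B * N) ≤ Real.exp (-(a i / (2 * K i))) := by
      calc _ ≤ B * Real.exp (-(a i / K i)) * (B * N + B * N) := by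
            gcongr
            exact one_le_mul_of_one_le_of_one_le (by linarith only [hB]) n1
        _ = N * B ^ 2 * 2 * Real.exp (-(a i / K i)) := by ring
        _ ≤ Real.exp (2 * σ) * Real.exp (-(a i / K i)) := by gcongr
        _ ≤ _ := by
          rw [← Real.exp_add, Real.exp_le_exp]
          have : 2 * σ ≤ a i / (2 * K i) := by rw [le_div_iff₀ (by linarith)]; linarith
          have : a i / K i = 2 * (a i / (2 * K i)) := by field_simp
          linarith
    refine ⟨h6.trans (Real.exp_le_one_iff.2 (neg_nonpos.2 (by positivity))),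
      (pow_le_pow_left₀ (by positivity) h6 _).trans ?_⟩
    rw [← Real.exp_nat_mul, Real.exp_le_exp, mul_neg, neg_le_neg_iff, ← mul_div_assoc,
      le_div_iff₀ (by linarith), ← div_le_iff₀ h5, mul_comm, Nat.cast_succ]
    exact (Nat.lt_floor_add_one _).le
  · have h1 : (N : ℝ) ≤ Real.exp (W * Ω) := by
      rw [← Real.log_le_iff_le_exp (by linarith)]
      linarith only [mul_le_mul_of_nonneg_right (one_le_mul_of_one_le_of_one_le m1 c1)
        (zero_le_one.trans s1), s0, l0, l1, S1, S4]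
    refine (mul_le_mul h1 hlt.le (norm_nonneg _) (by positivity)).trans ?_
    rw [← Real.exp_add, Real.exp_le_exp, hH, mul_assoc c]
    linarith only [mul_le_mul_of_nonneg_right k2 (show 0 ≤ W * Ω by positivity)]
  have C1 : 40 * c₂ ≤ C := by
    rw [hC]
    linarith only [c1, mul_le_mul_of_nonneg_right (one_le_mul_of_one_le_of_one_le m1 c1)
      (zero_le_one.trans c1)]
  have h1 : ∀ i, ((Dh c₂ H J (fun i => ⌊H / a i⌋₊) (fun i => ⌊2 * K i * (10 * c₂ * (S * H)) / a i⌋₊)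
      (Nn.filter fun i => 4 * K i * σ ≤ a i) e i + 1 : ℕ) : ℝ) ≤
      (if i ∈ Nn then C * σ ^ 2 * K i else 10 * c₂ * a i) * (H / (2 * a i)) *
        if i = e then H⁻¹ else 1 := fun i => by
    have h5 := hN.pos i
    have h2 : ((⌊4 * c₂ * H⌋₊ + 1 : ℕ) : ℝ) ≤ 10 * c₂ * a i * (H / (2 * a i)) := by
      rw [Nat.cast_succ, show 10 * c₂ * a i * (H / (2 * a i)) = 4 * c₂ * H + c₂ * H by
        field_simp; norm_num]
      exact add_le_add (Nat.floor_le (by positivity)) (one_le_mul_of_one_le_of_one_le c1 H1)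
    rw [Dh]
    split_ifs with h3 h4 h6 h7 h8
    · exact absurd (h3 ▸ h4) heN
    · rw [show 10 * c₂ * a i * (H / (2 * a i)) * H⁻¹ = 5 * c₂ by field_simp; norm_num]
      push_cast
      linarith
    · have h9 := (hK i h7).1
      rw [mul_one, hC]
      refine le_trans ?_ (near m1 c1 h9 s1 S.cast_nonneg S2 J2 (by linarith) h5 (H2 i))
      push_cast
      gcongr
      · exact Nat.floor_le (by positivity)
      · exact (min_le_left _ _).trans (mul_le_mul_of_nonneg_left (Nat.floor_le (by positivity))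
          J.cast_nonneg)
    · exact absurd (mem_filter.1 h6).1 h7
    · have h9 := (hK i h8).1
      have h10 : a i ≤ 4 * K i * σ := le_of_not_ge fun h => h6 (mem_filter.2 ⟨h8, h⟩)
      rw [mul_one]
      refine h2.trans (mul_le_mul_of_nonneg_right ?_ (by positivity))
      calc _ ≤ 10 * c₂ * (4 * K i * σ) := by gcongr
        _ = 40 * c₂ * σ * K i := by ring
        _ ≤ _ := by gcongr; exacts [by linarith, le_self_pow₀ s1 two_ne_zero]
    · rwa [mul_one]
  have h2 : Nn.card ≤ m := (card_le_univ _).trans hm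
  have h3 : ∏ i, (if i ∈ Nn then C * σ ^ 2 * K i else 10 * c₂ * a i) ≤
      C ^ m * (10 * c₂) ^ m * σ ^ (2 * Nn.card) * Ω := by
    rw [← prod_mul_prod_compl Nn, prod_congr rfl fun i hi => if_pos hi,
      prod_congr (s₁ := Nnᶜ) rfl fun i hi => if_neg (mem_compl.1 hi), prod_mul_distrib,
      prod_mul_distrib, prod_mul_distrib, prod_const, prod_const, prod_const, ← pow_mul]
    calc _ = C ^ Nn.card * (10 * c₂) ^ Nnᶜ.card * σ ^ (2 * Nn.card) *
          ((∏ i ∈ Nnᶜ, a i) * ∏ i ∈ Nn, K i) := by ring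
      _ ≤ _ := by
        have : 0 ≤ C := by linarith
        gcongr
        · exact mul_nonneg (prod_nonneg fun i _ => (hN.pos i).le)
            (prod_nonneg fun i hi => zero_le_one.trans (hK i hi).1)
        · linarith
        · linarith
        · exact (card_le_univ _).trans hm
  have h4 : σ ^ (2 * Nn.card + 2) ≤ 3 ^ (2 * m + 2 + 1) * (2 * m + 2).factorial * N *
      Real.log B ^ (2 * Nn.card + 2) := by
    calc _ ≤ ((2 * Real.log N + 3) * Real.log B) ^ (2 * Nn.card + 2) := by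
          gcongr
          linarith only [s0, l1, mul_le_mul_of_nonneg_left l1 l0]
      _ ≤ _ := by
        rw [mul_pow]
        exact mul_le_mul_of_nonneg_right ((pow_le_pow_right₀ (by linarith) (by omega)).trans
          (pow_log n1 _)) (by positivity)
  have h5 : 0 ≤ ∏ i, H / (2 * a i) := prod_nonneg fun i _ => by have := hN.pos i; positivity
  have C0 : 0 ≤ C ^ m * (10 * c₂) ^ m := by
    have : 0 ≤ C := by linarith
    positivity
  rw [← Nat.cast_le (α := ℝ), Nat.cast_mul, Nat.cast_mul, Nat.cast_mul, Nat.cast_prod,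
    Nat.cast_ofNat]
  refine le_trans ?_ P2
  refine (mul_le_mul_of_nonneg_left (mul_le_mul_of_nonneg_left (prod_le_prod
    (fun i _ => Nat.cast_nonneg _) fun i _ => h1 i) S.cast_nonneg) (by positivity)).trans ?_
  rw [prod_mul_distrib, prod_mul_distrib, Fintype.prod_ite_eq', mul_right_comm _ _ H⁻¹,
    ← mul_assoc, ← mul_assoc]
  refine mul_le_mul_of_nonneg_right (le_of_mul_le_mul_right ?_ (zero_lt_one.trans_le w2)) h5
  calc _ ≤ 4 * d * S * (C ^ m * (10 * c₂) ^ m * σ ^ (2 * Nn.card) * Ω * H⁻¹) * W := by gcongr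
    _ = 4 * d * S ^ 2 * (C ^ m * (10 * c₂) ^ m) * σ ^ (2 * Nn.card) := by
      have : Ω * W = S * H := by rw [hH, mul_comm]
      field_simp
      linear_combination d * C ^ m * this
    _ ≤ 4 * d * (9 * m * c₂ * σ) ^ 2 * (C ^ m * (10 * c₂) ^ m) * σ ^ (2 * Nn.card) := by gcongr
    _ = 4 * d * (9 * m * c₂) ^ 2 * (C ^ m * (10 * c₂) ^ m) * σ ^ (2 * Nn.card + 2) := by ring
    _ ≤ 4 * d * (9 * m * c₂) ^ 2 * (C ^ m * (10 * c₂) ^ m) * (3 ^ (2 * m + 2 + 1) *
        (2 * m + 2).factorial) * Real.log B ^ (2 * Nn.card + 2) * N :=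
      (mul_le_mul_of_nonneg_left h4 (by positivity)).trans_eq (by ring)
    _ ≤ _ := by
      rw [mul_comm (N : ℝ) W]
      exact mul_le_mul_of_nonneg_right (le_trans (by gcongr) hW) (by linarith)

end Pool.Agent.Lib.MP_4ffbf9_nt.MA
end

-- part Pool.Agent.Lib.MP_4ffbf9_nt.MA.CoreS
section

/-! Restriction to the support. -/

set_option autoImplicit false

namespace Pool.Agent.Lib.MP_4ffbf9_nt.MA

open Finset Polynomial

theorem stCoreS (hC : StCore) : StCoreS := by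
  intro d m
  obtain ⟨c, hc, h⟩ := hC d m
  refine ⟨c, hc,
    fun F ι _ _ dn ℓ a K β e σ Nn B W Ω hF hm hn hσ hi hG he heN hN hB hW hWB hP ha ho hs hb => ?_⟩
  have key : ∀ x : ι → ℚ, (∀ i, i ∉ σ → x i = 0) →
      lin (fun i : σ => ℓ i) (fun i : σ => x i) = lin ℓ x := fun x hx => by
    rw [lin, lin, sum_coe_sort σ fun i => (x i : ℂ) * ℓ i]
    exact sum_subset (subset_univ _) fun i _ k => by rw [hx i k, Rat.cast_zero, zero_mul]
  have hβ := key β fun i k => by_contra fun k' => k ((hσ i).2 k')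
  have hc : (Nn.subtype (· ∈ σ)).card = Nn.card := by
    rw [card_subtype, filter_true_of_mem hN]
  rw [← hβ]
  refine h F σ (fun i => dn i) _ (fun i => a i) (fun i => K i) _ ⟨e, he⟩
    (Nn.subtype (· ∈ σ)) B W Ω hF ((Fintype.card_subtype_le _).trans hm)
    ⟨⟨fun i => hn.hd i, fun i => hn.mem i, fun i => hn.int1 i, fun i => hn.int2 i,
      fun i => hn.ha i, fun i => hn.conj i, fun i => hn.norm_le i, fun i => hn.one i⟩,
      fun x hx h0 => ?_⟩
    (fun x hx => ?_) (by rwa [InG, hβ]) ((hσ e).1 he) (by simpa using heN) hB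
    (by rwa [hc]) hWB (le_of_eq_of_le (congrArg₂ _ ?_ (prod_subtype_of_mem K hN)) hP)
    (fun i => ha i i.2) (fun ⟨i, k⟩ => ho ⟨i, mem_subtype.1 k⟩)
    (fun i k => hs i (mem_subtype.1 k)) fun i k => hb i i.2 fun k' => k (Subtype.ext k')
  · have h1 := key (fun i => if k : i ∈ σ then x ⟨i, k⟩ else 0) fun i k => dif_neg k
    simp only [coe_mem, dite_true, Subtype.coe_eta] at h1
    refine (hn.gap _ (by rwa [InG, ← h1]) (by rwa [← h1])).trans_eq ?_
    rw [← sum_subset (subset_univ σ) fun i _ k => by simp [k], ← sum_coe_sort σ]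
    simp
  · have h1 := key (fun i => if k : i ∈ σ then x ⟨i, k⟩ else 0) fun i k => dif_neg k
    simp only [coe_mem, dite_true, Subtype.coe_eta] at h1
    have h2 := hi _ (fun i k => dif_neg fun k' => (hσ i).1 k' k) (h1.symm.trans hx)
    exact funext fun i => (dif_pos i.2).symm.trans (congrFun h2 i)
  · refine prod_bij (fun i _ => i.1) (fun i k => ?_) (fun i _ j _ => Subtype.ext)
      (fun i k => ⟨⟨i, (mem_sdiff.1 k).1⟩, ?_, rfl⟩) fun _ _ => rfl
    · simpa using k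
    · simpa using (mem_sdiff.1 k).2

end Pool.Agent.Lib.MP_4ffbf9_nt.MA
end

-- part Pool.Agent.Lib.MP_4ffbf9_nt.MA.Red
section

/-! Reduction to independent logarithms. -/

set_option autoImplicit false

namespace Pool.Agent.Lib.MP_4ffbf9_nt.MA

open Finset Polynomial

theorem Red.ind {ι : Type} [Fintype ι] (ℓ : ι → ℂ) (a : ι → ℝ) (ha : ∀ i, 0 < a i) (n : ℕ) :
    ∀ (b : ι → ℚ) (M : ℝ), (univ.filter fun i => b i ≠ 0).card ≤ n →
      (∀ i, |(b i : ℝ)| * a i ≤ M) → ∃ β : ι → ℚ, lin ℓ β = lin ℓ b ∧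
        (∀ i, |(β i : ℝ)| * a i ≤ 2 ^ n * M) ∧
        ∀ x : ι → ℚ, (∀ i, β i = 0 → x i = 0) → lin ℓ x = 0 → x = 0 := by
  induction n with
  | zero =>
    intro b M hc hM
    refine ⟨b, rfl, fun i => by simpa using hM i, fun x hx _ => funext fun i => hx i ?_⟩
    by_contra h
    have : i ∈ univ.filter fun i => b i ≠ 0 := mem_filter.2 ⟨mem_univ _, h⟩
    rw [card_eq_zero.1 (Nat.le_zero.1 hc)] at this
    exact absurd this (notMem_empty _)
  | succ n ih =>
    intro b M hc hM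
    by_cases h : ∀ x : ι → ℚ, (∀ i, b i = 0 → x i = 0) → lin ℓ x = 0 → x = 0
    · refine ⟨b, rfl, fun i => (hM i).trans ?_, h⟩
      have h0 : 0 ≤ M := (mul_nonneg (abs_nonneg _) (ha i).le).trans (hM i)
      exact le_mul_of_one_le_left h0 (one_le_pow₀ one_le_two)
    · simp only [not_forall] at h
      obtain ⟨x, hx, hl, hne⟩ := h
      obtain ⟨i0, hi0⟩ := Function.ne_iff.1 hne
      obtain ⟨k, -, hk⟩ := exists_max_image univ (fun i => |(x i : ℝ)| * a i) ⟨i0, mem_univ _⟩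
      have hxk : x k ≠ 0 := fun e => by
        have h1 := hk i0 (mem_univ _)
        have h2 : 0 < |(x i0 : ℝ)| * a i0 :=
          mul_pos (abs_pos.2 (Rat.cast_ne_zero.2 hi0)) (ha i0)
        simp only [e, Rat.cast_zero, abs_zero, zero_mul] at h1
        exact absurd h1 (not_le.2 h2)
      have hbk : b k ≠ 0 := fun e => hxk (hx k e)
      obtain ⟨β, h1, h2, h3⟩ := ih (b - (b k / x k) • x) (2 * M) (by
        refine Nat.le_of_lt_succ (lt_of_lt_of_le (card_lt_card ⟨fun i hi => ?_, fun hs => ?_⟩) hc)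
        · refine mem_filter.2 ⟨mem_univ _, fun e => (mem_filter.1 hi).2 ?_⟩
          simp [e, hx i e]
        · refine (mem_filter.1 (hs (mem_filter.2 ⟨mem_univ k, hbk⟩))).2 ?_
          simp [div_mul_cancel₀ _ hxk]) (fun i => by
        have hp : (0 : ℝ) < |(x k : ℝ)| := abs_pos.2 (Rat.cast_ne_zero.2 hxk)
        have e1 : |(b k : ℝ) / x k * x i| * a i ≤ M := by
          rw [abs_mul, abs_div, mul_assoc]
          refine (mul_le_mul_of_nonneg_left (hk i (mem_univ _)) (by positivity)).trans ?_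
          rw [← mul_assoc, div_mul_cancel₀ _ hp.ne']
          exact hM k
        have e2 : |(b i : ℝ) - (b k : ℝ) / x k * x i| * a i ≤
            (|(b i : ℝ)| + |(b k : ℝ) / x k * x i|) * a i :=
          mul_le_mul_of_nonneg_right (abs_sub _ _) (ha i).le
        simp only [Pi.sub_apply, Pi.smul_apply, smul_eq_mul]
        push_cast
        linarith [hM i])
      refine ⟨β, by rw [h1, lin_sub, lin_smul, hl, mul_zero, sub_zero], fun i => ?_, h3⟩
      rw [pow_succ, mul_assoc]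
      exact h2 i

theorem stRed : StRed := fun _ _ ℓ a b M ha hM =>
  Red.ind ℓ a ha _ b M (card_le_univ _) hM

end Pool.Agent.Lib.MP_4ffbf9_nt.MA
end

-- part Pool.Agent.Lib.MP_4ffbf9_nt.MA.Triv
section

/-! The trivial lower bound. -/

set_option autoImplicit false

namespace Pool.Agent.Lib.MP_4ffbf9_nt.MA

open Finset Polynomial

theorem stTriv (hL : StLiou) (hD : StDen) : StTriv := by
  intro F d ι _ dn ℓ a b r hF hN hr h1 h0
  have e : lin ℓ (fun i => (b i : ℚ)) = ∑ i, (b i : ℂ) * ℓ i := by simp [lin]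
  have hd : (0 : ℝ) ≤ d := Nat.cast_nonneg d
  have hS := (hD F ι dn ℓ a (fun i => (b i : ℚ)) (fun i => (b i).natAbs) r hN (hN.inG_int b)
    (fun i => by simp) (by simpa using hr)).1
  rw [e] at hS
  generalize ∑ i, (b i : ℂ) * ℓ i = L at hS h0
  rcases le_or_gt 1 ‖L‖ with hL1 | hL1
  · exact (Real.exp_le_one_iff.2 (by nlinarith)).trans hL1
  have h2 : Complex.exp L ≠ 1 := fun h => by
    obtain ⟨n, rfl⟩ := Complex.exp_eq_one_iff.1 h
    have h3 : (1 : ℝ) ≤ |(n : ℝ)| := by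
      exact_mod_cast Int.one_le_abs fun k : n = 0 => h0 (by simp [k])
    rw [norm_mul, Complex.norm_intCast, norm_mul, norm_mul, Complex.norm_I, Complex.norm_real,
      Complex.norm_ofNat, Real.norm_of_nonneg Real.pi_pos.le] at hL1
    nlinarith [Real.pi_gt_three]
  obtain ⟨M, hM⟩ : ∃ M : ℕ, M = ∏ i, dn i ^ (b i).natAbs := ⟨_, rfl⟩
  have m0 : 0 < M := hM ▸ prod_pos fun i _ => pow_pos (hN.hd i) _
  have m1 : ∏ i, (dn i : ℂ) ^ (b i).natAbs = M := by rw [hM]; push_cast; rfl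
  have m2 : ∏ i, (dn i : ℝ) ^ (b i).natAbs = M := by rw [hM]; push_cast; rfl
  have m3 : (M : ℝ) ≤ Real.exp r := by
    rw [← m2]
    refine (prod_le_prod (fun i _ => by positivity) fun i _ => ?_).trans
      ((Real.exp_sum _ _).ge.trans (Real.exp_le_exp.2 hr))
    rw [← Real.exp_log (Nat.cast_pos.2 (hN.hd i) : (0 : ℝ) < dn i), ← Real.exp_nat_mul,
      Nat.cast_natAbs, Int.cast_abs]
    exact Real.exp_le_exp.2 (mul_le_mul_of_nonneg_left (hN.ha i) (abs_nonneg _))
  rw [m1, m2] at hS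
  have r2 : 2 ≤ Real.exp r := by linarith [Real.add_one_le_exp r]
  have h4 : Sm F (M * Complex.exp L + ((-M : ℤ) : ℂ)) (Real.exp (3 * r)) := by
    refine (hS.add (Sm.int F (-M))).mono ?_
    rw [Int.cast_neg, norm_neg, Int.cast_natCast, Complex.norm_natCast,
      show 3 * r = r + r + r by ring, Real.exp_add, Real.exp_add]
    nlinarith [mul_le_mul_of_nonneg_right m3 (show 0 ≤ Real.exp r + 1 by linarith),
      mul_le_mul_of_nonneg_left r2 (show 0 ≤ Real.exp r * Real.exp r by positivity)]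
  have e2 : M * Complex.exp L + ((-M : ℤ) : ℂ) = M * (Complex.exp L - 1) := by push_cast; ring
  rw [e2] at h4
  have h5 := (hL F d hF).1 _ _ h4 (Real.one_le_exp (by linarith))
    (mul_ne_zero (Nat.cast_ne_zero.2 m0.ne') (sub_ne_zero.2 h2))
  have h6 : ‖(M : ℂ) * (Complex.exp L - 1)‖ ≤ Real.exp r * (Real.exp r * ‖L‖) := by
    rw [norm_mul, Complex.norm_natCast]
    exact mul_le_mul m3 ((Complex.norm_exp_sub_one_le hL1.le).trans
      (mul_le_mul_of_nonneg_right r2 (norm_nonneg _))) (norm_nonneg _) (by positivity)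
  have h7 := h5.trans (mul_le_mul_of_nonneg_right h6 (by positivity))
  rw [Real.exp_neg, inv_le_iff_one_le_mul₀ (Real.exp_pos _),
    show (3 * d + 2) * r = r + r + d * (3 * r) by ring, Real.exp_add, Real.exp_add,
    Real.exp_nat_mul]
  exact h7.trans_eq (by ring)

end Pool.Agent.Lib.MP_4ffbf9_nt.MA
end
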