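import Pool.Agent.Lib.MP_4ffbf9_nt.MA.Van





import Pool.Agent.Lib.MP_4ffbf9_nt.MA.Sep







import Pool.Agent.Lib.MP_4ffbf9_nt.MA.Triv




import Pool.Agent.Lib.MP_4ffbf9_nt.MA.Main

/-! Assembly; large heights are treated with the inequality of Liouville. -/

set_option autoImplicit false

namespace Pool.Agent.Lib.MP_4ffbf9_nt.MA

open Finset MB.MainAux

theorem coreS : StCoreS :=
  stCoreS (stCore stLat (stDesc (stStart (stSiegel stLiou) stDen stVan)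
    (stStep stInterp (stKL stLiou) stDen stCls stVan stExp) stSep))

theorem num : StNum := stNum (stGap stDen)

theorem main1 (d m : ℕ) : ∃ c : ℝ, 0 < c ∧
    ∀ (F : IntermediateField ℚ ℂ) (ι : Type) [Fintype ι] [DecidableEq ι] (dn : ι → ℕ) (ℓ : ι → ℂ)
    (a K : ι → ℝ) (b : ι → ℤ) (o : ι) (Nn : Finset ι) (B : ℝ), Fld F d →
    Fintype.card ι ≤ m → Num F dn ℓ a → o ∉ Nn → 3 ≤ B → (∀ i, |(b i : ℝ)| ≤ B) →
    (∀ i ∈ Nn, a i ≤ a o ∧ 1 ≤ K i ∧ ‖ℓ i‖ ≤ B * Real.exp (-(a i / K i))) →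
    ∑ i, (b i : ℂ) * ℓ i ≠ 0 →
    Real.exp (-(c * ((∏ i ∈ Nnᶜ, a i) * ∏ i ∈ Nn, K i) * Real.log B ^ (2 * Nn.card + 2))) ≤
      ‖∑ i, (b i : ℂ) * ℓ i‖ := by
  obtain ⟨c, hc, h⟩ := main0 stRed coreS d m
  refine ⟨c + (3 * d + 2) * m, by positivity,
    fun F ι _ _ dn ℓ a K b o₁ Nn B hF hm hN ho₁ hB hb hn hΛ => ?_⟩
  obtain ⟨o, ho, hmax⟩ := exists_max_image Nnᶜ a ⟨o₁, mem_compl.2 ho₁⟩
  have hall : ∀ i, a i ≤ a o := fun i => by
    by_cases hi : i ∈ Nn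
    · exact (hn i hi).1.trans (hmax o₁ (mem_compl.2 ho₁))
    · exact hmax i (mem_compl.2 hi)
  have hP : 0 ≤ (∏ i ∈ Nnᶜ, a i) * ∏ i ∈ Nn, K i :=
    mul_nonneg (prod_nonneg fun i _ => (hN.pos i).le)
      (prod_nonneg fun i hi => by linarith [(hn i hi).2.1])
  have hL : 1 ≤ Real.log B ^ (2 * Nn.card + 2) := one_le_pow₀ (one_le_log hB)
  have hm1 : (1 : ℝ) ≤ m := Nat.one_le_cast.2 (le_trans (Fintype.card_pos_iff.2 ⟨o⟩) hm)
  have hd : (0 : ℝ) ≤ (3 * d + 2) * m := by positivity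
  by_cases hc2 : (∏ i ∈ (insert o Nn)ᶜ, a i) * ∏ i ∈ Nn, K i ≤ B
  · refine le_trans (Real.exp_le_exp.2 (neg_le_neg ?_)) (h F ι dn ℓ a K b o Nn B hF hm hN
      (mem_compl.1 ho) hB hb hc2 (fun i hi => ⟨hall i, (hn i hi).2⟩) hΛ)
    gcongr
    linarith
  · have h1 : ∑ i, |(b i : ℝ)| * a i ≤ m * (B * a o) := by
      refine (sum_le_card_nsmul _ _ (B * a o) fun i _ =>
        mul_le_mul (hb i) (hall i) (hN.pos i).le (by linarith)).trans ?_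
      rw [nsmul_eq_mul, card_univ]
      exact mul_le_mul_of_nonneg_right (Nat.cast_le.2 hm) (mul_nonneg (by linarith) (hN.pos o).le)
    have h2 : B * a o ≤ (∏ i ∈ Nnᶜ, a i) * ∏ i ∈ Nn, K i := by
      rw [← mul_prod_erase _ _ ho, ← compl_insert, mul_assoc, mul_comm]
      exact mul_le_mul_of_nonneg_left (not_le.1 hc2).le (hN.pos o).le
    refine le_trans (Real.exp_le_exp.2 (neg_le_neg ?_)) (stTriv stLiou stDen F d ι dn ℓ a b _ hF
      hN.toNum0 h1 (one_le_mul_of_one_le_of_one_le hm1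
        (one_le_mul_of_one_le_of_one_le (by linarith) (hN.one o))) hΛ)
    calc (3 * d + 2) * (m * (B * a o))
        ≤ (3 * d + 2) * m * ((∏ i ∈ Nnᶜ, a i) * ∏ i ∈ Nn, K i) * 1 := by
          rw [mul_one, ← mul_assoc]; exact mul_le_mul_of_nonneg_left h2 hd
      _ ≤ _ := by gcongr; linarith

end Pool.Agent.Lib.MP_4ffbf9_nt.MA
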